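import Pool.Agent.H319R3.GC.Defs

/-!
Generalised Collatz maps of coprime type, task W1: words.
-/

set_option autoImplicit false

namespace Pool.Agent.H319R3.GC

open Finset

variable {d : ℕ} {m r : ℕ → ℤ}

theorem mem_LW {k : ℕ} {w : List ℕ} : w ∈ LW d k ↔ w.length = k ∧ ∀ i ∈ w, i < d := by
  induction k generalizing w with
  | zero =>
    simp only [LW, mem_singleton]
    constructor
    · rintro rfl; simp
    · rintro ⟨h, _⟩; exact List.length_eq_zero_iff.1 h
  | succ k ih =>
    simp only [LW, mem_biUnion, mem_range, mem_image]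
    constructor
    · rintro ⟨i, hi, u, hu, rfl⟩
      obtain ⟨h1, h2⟩ := ih.1 hu
      refine ⟨by simp [h1], ?_⟩
      intro j hj
      rcases List.mem_cons.1 hj with rfl | hj
      · exact hi
      · exact h2 j hj
    · rintro ⟨h1, h2⟩
      cases w with
      | nil => simp at h1
      | cons i u =>
        exact ⟨i, h2 i (by simp), u,
          ih.2 ⟨by simpa using h1, fun j hj => h2 j (by simp [hj])⟩, rfl⟩

theorem sum_LW_succ {M : Type*} [AddCommMonoid M] (k : ℕ) (f : List ℕ → M) :
    ∑ w ∈ LW d (k + 1), f w = ∑ i ∈ range d, ∑ w ∈ LW d k, f (i :: w) := by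
  show ∑ w ∈ (range d).biUnion fun i => (LW d k).image (List.cons i), f w = _
  rw [Finset.sum_biUnion]
  · refine Finset.sum_congr rfl fun i _ => ?_
    rw [Finset.sum_image]
    intro a _ b _ h
    exact (List.cons.inj h).2
  · intro i _ j _ hij
    rw [Function.onFun, Finset.disjoint_left]
    intro w hw hw'
    obtain ⟨u, _, rfl⟩ := mem_image.1 hw
    obtain ⟨v, _, h⟩ := mem_image.1 hw'
    exact hij (List.cons.inj h).1.symm

theorem sum_LW_add {M : Type*} [AddCommMonoid M] (k l : ℕ) (f : List ℕ → M) :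
    ∑ w ∈ LW d (k + l), f w = ∑ u ∈ LW d k, ∑ v ∈ LW d l, f (u ++ v) := by
  induction k generalizing f with
  | zero => simp [LW]
  | succ k ih =>
    have e : k + 1 + l = (k + l) + 1 := by ring
    rw [e, sum_LW_succ, sum_LW_succ]
    refine Finset.sum_congr rfl fun i _ => ?_
    rw [ih]
    rfl

theorem card_LW (k : ℕ) : (LW d k).card = d ^ k := by
  induction k with
  | zero => simp [LW]
  | succ k ih =>
    rw [Finset.card_eq_sum_ones, sum_LW_succ]
    simp only [← Finset.card_eq_sum_ones, ih]
    simp [pow_succ, mul_comm]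

theorem Mw_append (u v : List ℕ) : Mw m (u ++ v) = Mw m u * Mw m v := by
  simp [Mw]

theorem Ww_append (u v : List ℕ) :
    Ww d m r (u ++ v) = Mw m v * Ww d m r u + (d : ℤ) ^ u.length * Ww d m r v := by
  induction u with
  | nil => simp [Ww]
  | cons i u ih =>
    have e : (i :: u) ++ v = i :: (u ++ v) := rfl
    rw [e]
    simp only [Ww]
    rw [ih, Mw_append, List.length_cons, pow_succ]
    ring

theorem Mw_cons (i : ℕ) (w : List ℕ) : Mw m (i :: w) = m i * Mw m w := by
  simp [Mw]

theorem Mw_cop (h : Adm d m r) {w : List ℕ} (hw : ∀ i ∈ w, i < d) : IsCoprime (Mw m w) (d : ℤ) := by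
  induction w with
  | nil => simpa [Mw] using isCoprime_one_left
  | cons i w ih =>
    rw [Mw_cons]
    exact IsCoprime.mul_left (h.cop i (hw i (by simp))) (ih fun j hj => hw j (by simp [hj]))

theorem Mw_ne_zero (h : Adm d m r) {w : List ℕ} (hw : ∀ i ∈ w, i < d) : Mw m w ≠ 0 := by
  intro h0
  have h1 := Mw_cop h hw
  rw [h0, isCoprime_zero_left] at h1
  have h2 := Int.isUnit_iff.1 h1
  have h3 := h.two_le
  omega

/-- same length, same multiplier, same offset: same word -/
theorem Ww_inj (h : Adm d m r) {u v : List ℕ} (hu : ∀ i ∈ u, i < d) (hv : ∀ i ∈ v, i < d)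
    (hl : u.length = v.length) (hM : Mw m u = Mw m v) (hW : Ww d m r u = Ww d m r v) : u = v := by
  induction u generalizing v with
  | nil => exact (List.length_eq_zero_iff.1 hl.symm).symm
  | cons i u ih =>
    cases v with
    | nil => simp at hl
    | cons j v =>
      have hi : i < d := hu i (by simp)
      have hj : j < d := hv j (by simp)
      have hu' : ∀ a ∈ u, a < d := fun a ha => hu a (by simp [ha])
      have hv' : ∀ a ∈ v, a < d := fun a ha => hv a (by simp [ha])
      rw [Mw_cons, Mw_cons] at hM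
      simp only [Ww] at hW
      have hd : (2 : ℤ) ≤ d := by exact_mod_cast h.two_le
      obtain ⟨a, ha⟩ := h.adm i hi
      obtain ⟨b, hb⟩ := h.adm j hj
      have hdiv : (d : ℤ) ∣ ((i : ℤ) - j) * (m i * Mw m u) := by
        refine ⟨a * Mw m u - b * Mw m v - Ww d m r u + Ww d m r v, ?_⟩
        have e1 : m i * (i : ℤ) * Mw m u - r i * Mw m u = d * a * Mw m u := by
          rw [← ha]; ring
        have e2 : m j * (j : ℤ) * Mw m v - r j * Mw m v = d * b * Mw m v := by
          rw [← hb]; ring
        have e3 : (j : ℤ) * (m i * Mw m u) = j * (m j * Mw m v) := by rw [hM]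
        linear_combination e1 - e2 - e3 + hW
      have hc : IsCoprime (m i * Mw m u) (d : ℤ) := by
        have := Mw_cop h hu
        rwa [Mw_cons] at this
      have hdv : (d : ℤ) ∣ (i : ℤ) - j := hc.symm.dvd_of_dvd_mul_right hdiv
      have hij : i = j := by
        obtain ⟨t, ht⟩ := hdv
        have : t = 0 := by
          by_contra ht0
          rcases lt_or_gt_of_ne ht0 with h1 | h1
          · have : (d : ℤ) * t ≤ d * (-1) := by
              apply mul_le_mul_of_nonneg_left (by omega) (by omega)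
            omega
          · have : (d : ℤ) * 1 ≤ d * t := by
              apply mul_le_mul_of_nonneg_left (by omega) (by omega)
            omega
        rw [this] at ht
        omega
      subst hij
      have hmi : m i ≠ 0 := by
        intro h0
        have := h.cop i hi
        rw [h0, isCoprime_zero_left] at this
        have h2 := Int.isUnit_iff.1 this
        omega
      have hM' : Mw m u = Mw m v := mul_left_cancel₀ hmi hM
      have hW' : Ww d m r u = Ww d m r v := by
        rw [hM'] at hW
        have hd0 : (d : ℤ) ≠ 0 := by omega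
        exact mul_left_cancel₀ hd0 (add_left_cancel hW)
      rw [ih hu' hv' (by simpa using hl) hM' hW']

theorem mem_gr {k : ℕ} {M : ℤ} {w : List ℕ} : w ∈ gr d m k M ↔ w ∈ LW d k ∧ Mw m w = M := by
  simp [gr]

theorem sum_gr {N : Type*} [AddCommMonoid N] (k : ℕ) (f : List ℕ → N) :
    ∑ M ∈ Ms d m k, ∑ w ∈ gr d m k M, f w = ∑ w ∈ LW d k, f w := by
  unfold gr Ms
  exact Finset.sum_fiberwise_of_maps_to (fun w hw => mem_image_of_mem _ hw) f

theorem sum_card_gr (k : ℕ) : ∑ M ∈ Ms d m k, ((gr d m k M).card : ℝ) = (d : ℝ) ^ k := by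
  have h := sum_gr (d := d) (m := m) k (fun _ => (1 : ℝ))
  simp only [Finset.sum_const, nsmul_eq_mul, mul_one] at h
  rw [h, card_LW]
  push_cast
  rfl

/-- the multiplier as a product over the letters -/
theorem Mw_eq_prod {w : List ℕ} (hw : ∀ i ∈ w, i < d) :
    Mw m w = ∏ i ∈ range d, m i ^ w.count i := by
  unfold Mw
  rw [Finset.prod_list_map_count]
  apply Finset.prod_subset
  · intro i hi
    exact mem_range.2 (hw i (List.mem_toFinset.1 hi))
  · intro i _ hi
    have : w.count i = 0 := List.count_eq_zero.2 fun h => hi (List.mem_toFinset.2 h)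
    rw [this, pow_zero]

theorem natAbs_Mw {w : List ℕ} (hw : ∀ i ∈ w, i < d) :
    (Mw m w).natAbs = ∏ i ∈ range d, (m i).natAbs ^ w.count i := by
  rw [Mw_eq_prod hw]
  have h : ∀ s : Finset ℕ, (∏ i ∈ s, m i ^ w.count i).natAbs =
      ∏ i ∈ s, (m i).natAbs ^ w.count i := by
    intro s
    induction s using Finset.induction_on with
    | empty => simp
    | insert a s ha ih => rw [prod_insert ha, prod_insert ha, Int.natAbs_mul, Int.natAbs_pow, ih]
  exact h _

/-- `Mw` only depends on the numbers of occurrences of the letters -/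
theorem card_Ms (k : ℕ) : (Ms d m k).card ≤ (k + 1) ^ d := by
  have hsub : Ms d m k ⊆ (Fintype.piFinset (fun _ : Fin d => range (k + 1))).image
      (fun c : Fin d → ℕ => ∏ i : Fin d, m i ^ c i) := by
    intro M hM
    obtain ⟨w, hw, rfl⟩ := mem_image.1 hM
    obtain ⟨h1, h2⟩ := mem_LW.1 hw
    refine mem_image.2 ⟨fun i => w.count (i : ℕ), ?_, ?_⟩
    · rw [Fintype.mem_piFinset]
      intro i
      rw [mem_range]
      have := List.count_le_length (a := (i : ℕ)) (l := w)
      omega
    · rw [Mw_eq_prod h2, Finset.prod_range]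
  calc (Ms d m k).card ≤ _ := card_le_card hsub
    _ ≤ (Fintype.piFinset (fun _ : Fin d => range (k + 1))).card := card_image_le
    _ = (k + 1) ^ d := by simp [Fintype.card_piFinset]

/-- if every letter occurs between `i₁` and `i₂` times -/
theorem dvd_Mw {k i₁ : ℕ} {w : List ℕ} (hw : w ∈ LW d k) (h1 : ∀ i < d, i₁ ≤ w.count i) :
    PP d m ^ i₁ ∣ (Mw m w).natAbs := by
  rw [natAbs_Mw (mem_LW.1 hw).2, PP, ← Finset.prod_pow]
  exact Finset.prod_dvd_prod_of_dvd _ _ fun i hi => pow_dvd_pow _ (h1 i (mem_range.1 hi))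

theorem Mw_dvd {k i₂ : ℕ} {w : List ℕ} (hw : w ∈ LW d k) (h2 : ∀ i < d, w.count i ≤ i₂) :
    (Mw m w).natAbs ∣ PP d m ^ i₂ := by
  rw [natAbs_Mw (mem_LW.1 hw).2, PP, ← Finset.prod_pow]
  exact Finset.prod_dvd_prod_of_dvd _ _ fun i hi => pow_dvd_pow _ (h2 i (mem_range.1 hi))

theorem natAbs_Mw_dvd {k : ℕ} {w : List ℕ} (hw : w ∈ LW d k) : (Mw m w).natAbs ∣ PP d m ^ k := by
  refine Mw_dvd hw fun i _ => ?_
  have := List.count_le_length (a := i) (l := w)
  have h := (mem_LW.1 hw).1
  omega

theorem range_mem : List.range d ∈ LW d d :=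
  mem_LW.2 ⟨List.length_range, fun _ hi => List.mem_range.1 hi⟩

theorem Mw_range : (Mw m (List.range d)).natAbs = PP d m := by
  rw [natAbs_Mw (d := d) (fun _ hi => List.mem_range.1 hi), PP]
  refine Finset.prod_congr rfl fun i hi => ?_
  rw [List.count_eq_one_of_mem List.nodup_range (List.mem_range.2 (mem_range.1 hi)), pow_one]

end Pool.Agent.H319R3.GC
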