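import Pool.Agent.H319R3.GC.Defs

/-! Task M2: typical words (Chernoff bound for the numbers of occurrences of the letters). -/

set_option autoImplicit false

namespace Pool.Agent.H319R3.GC

open Finset

private lemma M2_sum_succ {d : ℕ} (k : ℕ) (f : List ℕ → ℝ) :
    ∑ w ∈ LW d (k + 1), f w = ∑ i ∈ range d, ∑ w ∈ LW d k, f (i :: w) := by
  rw [LW, Finset.sum_biUnion]
  · refine Finset.sum_congr rfl fun i _ => ?_
    rw [Finset.sum_image]
    intro u _ v _ huv
    exact (List.cons_injective huv)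
  · intro i _ j _ hij
    rw [Function.onFun, Finset.disjoint_left]
    intro w hw hw'
    obtain ⟨u, _, rfl⟩ := Finset.mem_image.1 hw
    obtain ⟨v, _, hv⟩ := Finset.mem_image.1 hw'
    exact hij (List.cons.inj hv).1.symm

/-- exponential moments of the number of occurrences of a letter -/
private lemma M2_mgf {d : ℕ} (i : ℕ) (s u : ℝ) (b : ℕ) :
    ∑ w ∈ LW d b, Real.exp (s * ((w.count i : ℝ) - b * u))
      = (∑ j ∈ range d, Real.exp (s * ((if j = i then 1 else 0) - u))) ^ b := by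
  induction b with
  | zero => simp [LW]
  | succ k ih =>
    rw [M2_sum_succ, pow_succ', Finset.sum_mul]
    refine Finset.sum_congr rfl fun j _ => ?_
    rw [← ih, Finset.mul_sum]
    refine Finset.sum_congr rfl fun w _ => ?_
    rw [← Real.exp_add]
    congr 1
    rw [List.count_cons]
    by_cases hj : j = i
    · subst hj
      simp
      ring
    · simp [hj]
      ring

private lemma M2_base {d : ℕ} (h : 2 ≤ d) {i : ℕ} (hi : i < d) {s : ℝ} (hs : |s| ≤ 1) :
    ∑ j ∈ range d, Real.exp (s * ((if j = i then 1 else 0) - 1 / (d : ℝ)))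
      ≤ d * Real.exp (s ^ 2) := by
  have hd : (0 : ℝ) < d := by exact_mod_cast (by omega : 0 < d)
  have hd1 : (1 : ℝ) ≤ d := by exact_mod_cast (by omega : 1 ≤ d)
  have h1 : ∀ j ∈ range d, Real.exp (s * ((if j = i then 1 else 0) - 1 / (d : ℝ))) ≤
      1 + s * ((if j = i then 1 else 0) - 1 / (d : ℝ)) + s ^ 2 := by
    intro j _
    have hx : |((if j = i then (1 : ℝ) else 0) - 1 / (d : ℝ))| ≤ 1 := by
      have h2 : 0 < 1 / (d : ℝ) := by positivity
      have h3 : 1 / (d : ℝ) ≤ 1 := by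
        rw [div_le_one hd]; exact hd1
      rw [abs_le]
      split_ifs
      · constructor <;> linarith
      · constructor <;> linarith
    set x := ((if j = i then (1 : ℝ) else 0) - 1 / (d : ℝ)) with hxdef
    have hsx : |s * x| ≤ 1 := by
      rw [abs_mul]
      calc |s| * |x| ≤ 1 * 1 := mul_le_mul hs hx (abs_nonneg _) zero_le_one
        _ = 1 := one_mul 1
    have h4 := Real.abs_exp_sub_one_sub_id_le hsx
    have h5 := (abs_le.1 h4).2
    have h6 : (s * x) ^ 2 ≤ s ^ 2 := by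
      rw [mul_pow]
      have : x ^ 2 ≤ 1 := by
        rw [← sq_abs]
        calc |x| ^ 2 ≤ 1 ^ 2 := pow_le_pow_left₀ (abs_nonneg _) hx 2
          _ = 1 := one_pow 2
      calc s ^ 2 * x ^ 2 ≤ s ^ 2 * 1 := mul_le_mul_of_nonneg_left this (sq_nonneg _)
        _ = s ^ 2 := mul_one _
    linarith
  refine (Finset.sum_le_sum h1).trans ?_
  have h7 : ∑ j ∈ range d, (1 + s * ((if j = i then (1 : ℝ) else 0) - 1 / (d : ℝ)) + s ^ 2)
      = d * (1 + s ^ 2) := by
    rw [Finset.sum_add_distrib, Finset.sum_add_distrib, ← Finset.mul_sum, Finset.sum_sub_distrib]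
    simp only [Finset.sum_const, Finset.card_range, nsmul_eq_mul, mul_one]
    rw [Finset.sum_ite_eq' (range d) i]
    rw [if_pos (Finset.mem_range.2 hi)]
    have : (d : ℝ) * (1 / d) = 1 := by field_simp
    rw [this]
    ring
  rw [h7]
  refine mul_le_mul_of_nonneg_left ?_ hd.le
  have := Real.add_one_le_exp (s ^ 2)
  linarith

private lemma M2_tail {d : ℕ} (h : 2 ≤ d) {i : ℕ} (hi : i < d) {s η : ℝ} (hs : |s| ≤ 1) (b : ℕ) :
    (((LW d b).filter fun w => |s| * (η * b) ≤ s * ((w.count i : ℝ) - b * (1 / d))).card : ℝ)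
      ≤ (d : ℝ) ^ b * Real.exp (-((|s| * η - s ^ 2) * b)) := by
  set F := (LW d b).filter fun w => |s| * (η * b) ≤ s * ((w.count i : ℝ) - b * (1 / d)) with hF
  have h1 : (F.card : ℝ) * Real.exp (|s| * (η * b)) ≤
      ∑ w ∈ LW d b, Real.exp (s * ((w.count i : ℝ) - b * (1 / d))) := by
    calc (F.card : ℝ) * Real.exp (|s| * (η * b)) = ∑ _w ∈ F, Real.exp (|s| * (η * b)) := by
          rw [Finset.sum_const, nsmul_eq_mul]
      _ ≤ ∑ w ∈ F, Real.exp (s * ((w.count i : ℝ) - b * (1 / d))) := by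
          refine Finset.sum_le_sum fun w hw => Real.exp_le_exp.2 ?_
          exact (Finset.mem_filter.1 hw).2
      _ ≤ ∑ w ∈ LW d b, Real.exp (s * ((w.count i : ℝ) - b * (1 / d))) :=
          Finset.sum_le_sum_of_subset_of_nonneg (Finset.filter_subset _ _)
            fun _ _ _ => (Real.exp_pos _).le
  rw [M2_mgf] at h1
  have h2 : (∑ j ∈ range d, Real.exp (s * ((if j = i then 1 else 0) - 1 / (d : ℝ)))) ^ b
      ≤ (d * Real.exp (s ^ 2)) ^ b :=
    pow_le_pow_left₀ (Finset.sum_nonneg fun _ _ => (Real.exp_pos _).le) (M2_base h hi hs) b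
  have h3 := h1.trans h2
  have h4 : (F.card : ℝ) = (F.card : ℝ) * Real.exp (|s| * (η * b)) * Real.exp (-(|s| * (η * b))) := by
    rw [mul_assoc, ← Real.exp_add]
    simp
  rw [h4]
  calc (F.card : ℝ) * Real.exp (|s| * (η * b)) * Real.exp (-(|s| * (η * b)))
      ≤ (d * Real.exp (s ^ 2)) ^ b * Real.exp (-(|s| * (η * b))) :=
        mul_le_mul_of_nonneg_right h3 (Real.exp_pos _).le
    _ = (d : ℝ) ^ b * Real.exp (-((|s| * η - s ^ 2) * b)) := by
        rw [mul_pow, ← Real.exp_nat_mul, mul_assoc, ← Real.exp_add]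
        congr 2
        ring

theorem typical {d : ℕ} (h : 2 ≤ d) {η : ℝ} (hη : 0 < η) : ∃ c : ℝ, 0 < c ∧ ∀ b : ℕ,
    (((LW d b).filter fun w => ∃ i < d, η * b < |(w.count i : ℝ) - b / d|).card : ℝ)
      ≤ 2 * d * ((d : ℝ) ^ b * Real.exp (-(c * b))) := by
  set θ : ℝ := min 1 (η / 2) with hθ
  have hθ0 : 0 < θ := lt_min one_pos (by linarith)
  have hθ1 : θ ≤ 1 := min_le_left _ _
  have hθ2 : θ ≤ η / 2 := min_le_right _ _
  refine ⟨θ * η - θ ^ 2, by nlinarith, fun b => ?_⟩
  set A : ℕ → ℝ → Finset (List ℕ) := fun i s =>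
    (LW d b).filter fun w => |s| * (η * b) ≤ s * ((w.count i : ℝ) - b * (1 / d)) with hA
  have hsub : ((LW d b).filter fun w => ∃ i < d, η * b < |(w.count i : ℝ) - b / d|) ⊆
      (range d).biUnion fun i => A i θ ∪ A i (-θ) := by
    intro w hw
    obtain ⟨hwL, i, hi, hlt⟩ := Finset.mem_filter.1 hw
    refine Finset.mem_biUnion.2 ⟨i, Finset.mem_range.2 hi, ?_⟩
    have he : (b : ℝ) * (1 / d) = b / d := by ring
    rcases le_or_gt 0 ((w.count i : ℝ) - b / d) with h0 | h0
    · rw [abs_of_nonneg h0] at hlt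
      refine Finset.mem_union_left _ (Finset.mem_filter.2 ⟨hwL, ?_⟩)
      rw [abs_of_pos hθ0, he]
      exact mul_le_mul_of_nonneg_left hlt.le hθ0.le
    · rw [abs_of_neg h0] at hlt
      refine Finset.mem_union_right _ (Finset.mem_filter.2 ⟨hwL, ?_⟩)
      rw [abs_neg, abs_of_pos hθ0, he]
      nlinarith [mul_le_mul_of_nonneg_left hlt.le hθ0.le]
  have hcard : ∀ i ∈ range d, ((A i θ ∪ A i (-θ)).card : ℝ) ≤
      2 * ((d : ℝ) ^ b * Real.exp (-((θ * η - θ ^ 2) * b))) := by
    intro i hi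
    have hi' := Finset.mem_range.1 hi
    have h1 := M2_tail h hi' (s := θ) (η := η) (by rw [abs_of_pos hθ0]; exact hθ1) b
    have h2 := M2_tail h hi' (s := -θ) (η := η) (by rw [abs_neg, abs_of_pos hθ0]; exact hθ1) b
    rw [abs_of_pos hθ0] at h1
    rw [neg_sq] at h2
    have h3 : |(-θ)| = θ := by rw [abs_neg, abs_of_pos hθ0]
    have h4 : ((A i (-θ)).card : ℝ) ≤ (d : ℝ) ^ b * Real.exp (-((θ * η - θ ^ 2) * b)) := by
      have : (|(-θ)| * η - θ ^ 2) = θ * η - θ ^ 2 := by rw [h3]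
      rw [this] at h2
      exact h2
    have h5 : ((A i θ).card : ℝ) ≤ (d : ℝ) ^ b * Real.exp (-((θ * η - θ ^ 2) * b)) := by
      have : A i θ = (LW d b).filter fun w => θ * (η * b) ≤ θ * ((w.count i : ℝ) - b * (1 / d)) := by
        simp only [hA, abs_of_pos hθ0]
      rw [this]
      exact h1
    calc ((A i θ ∪ A i (-θ)).card : ℝ) ≤ ((A i θ).card : ℝ) + ((A i (-θ)).card : ℝ) := by
          exact_mod_cast Finset.card_union_le _ _
      _ ≤ _ := by linarith
  calc (((LW d b).filter fun w => ∃ i < d, η * b < |(w.count i : ℝ) - b / d|).card : ℝ)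
      ≤ (((range d).biUnion fun i => A i θ ∪ A i (-θ)).card : ℝ) := by
        exact_mod_cast Finset.card_le_card hsub
    _ ≤ ∑ i ∈ range d, ((A i θ ∪ A i (-θ)).card : ℝ) := by
        exact_mod_cast Finset.card_biUnion_le
    _ ≤ ∑ _i ∈ range d, 2 * ((d : ℝ) ^ b * Real.exp (-((θ * η - θ ^ 2) * b))) :=
        Finset.sum_le_sum hcard
    _ = 2 * d * ((d : ℝ) ^ b * Real.exp (-((θ * η - θ ^ 2) * b))) := by
        rw [Finset.sum_const, Finset.card_range, nsmul_eq_mul]
        ring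

end Pool.Agent.H319R3.GC
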