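import Pool.Agent.H319R3.GC.F1

/-! F2: basic facts on `cnt` and `Gam`. -/

set_option autoImplicit false

namespace Pool.Agent.H319R3.GC

open Finset

theorem cnt_nonneg {ι : Type*} (s : Finset ι) (v : ι → ℤ) (D : ℕ) (c : ℤ) : 0 ≤ cnt s v D c :=
  Nat.cast_nonneg _

theorem cnt_le {ι : Type*} (s : Finset ι) (v : ι → ℤ) (D : ℕ) (c : ℤ) : cnt s v D c ≤ s.card := by
  unfold cnt
  exact_mod_cast card_filter_le _ _

theorem cnt_congr {ι : Type*} (s : Finset ι) (v : ι → ℤ) {D : ℕ} {c c' : ℤ}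
    (h : (D : ℤ) ∣ c - c') : cnt s v D c = cnt s v D c' := by
  unfold cnt
  congr 2
  apply filter_congr
  intro i _
  constructor
  · intro h1
    have e : v i - c' = (v i - c) + (c - c') := by ring
    rw [e]; exact dvd_add h1 h
  · intro h1
    have e : v i - c = (v i - c') - (c - c') := by ring
    rw [e]; exact dvd_sub h1 h

/-- `cnt` is periodic in the class -/
theorem cnt_per {ι : Type*} (s : Finset ι) (v : ι → ℤ) (D : ℕ) (x : ℤ) :
    cnt s v D (x + D) = cnt s v D x := cnt_congr s v (by simp)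

theorem dvd_emod_iff {D : ℕ} (hD : 0 < D) (x : ℤ) {c : ℕ} (hc : c < D) :
    (D : ℤ) ∣ x - c ↔ (x % D).toNat = c := by
  have hD' : (0 : ℤ) < D := by exact_mod_cast hD
  have h0 := Int.emod_nonneg x hD'.ne'
  have h1 : (c : ℤ) % D = c := Int.emod_eq_of_lt (by positivity) (by exact_mod_cast hc)
  constructor
  · intro h
    have h2 : (c : ℤ) % D = x % D := Int.modEq_iff_dvd.2 h
    rw [← h2, h1]
    simp
  · intro h
    have h2 : x % D = (c : ℤ) % D := by
      rw [h1, ← h]
      exact (Int.toNat_of_nonneg h0).symm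
    exact Int.modEq_iff_dvd.1 h2.symm

theorem sum_cnt {ι : Type*} (s : Finset ι) (v : ι → ℤ) {D : ℕ} (hD : 0 < D) :
    ∑ c ∈ range D, cnt s v D (c : ℤ) = s.card := by
  classical
  have hD' : (0 : ℤ) < D := by exact_mod_cast hD
  have h := card_eq_sum_card_fiberwise (s := s) (t := range D)
    (f := fun i => (v i % D).toNat) (by
      intro i _
      rw [mem_coe, mem_range]
      have h1 := Int.emod_lt_of_pos (v i) hD'
      have h2 := Int.emod_nonneg (v i) hD'.ne'
      show (v i % D).toNat < D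
      omega)
  rw [h]
  push_cast
  refine sum_congr rfl fun c hc => ?_
  unfold cnt
  congr 2
  apply filter_congr
  intro i _
  exact dvd_emod_iff hD (v i) (mem_range.1 hc)

theorem cnt_split {ι : Type*} (s : Finset ι) (v : ι → ℤ) {D R : ℕ} (hD : 0 < D) (hR : 0 < R)
    (c : ℤ) : cnt s v D c = ∑ a ∈ range R, cnt s v (D * R) (c + D * a) := by
  classical
  have hD' : (0 : ℤ) < D := by exact_mod_cast hD
  have hR' : (0 : ℤ) < R := by exact_mod_cast hR
  unfold cnt
  have h := card_eq_sum_card_fiberwise (s := s.filter fun i => (D : ℤ) ∣ v i - c) (t := range R)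
    (f := fun i => (((v i - c) / D) % R).toNat) (by
      intro i _
      rw [mem_coe, mem_range]
      have h1 := Int.emod_lt_of_pos ((v i - c) / D) hR'
      have h2 := Int.emod_nonneg ((v i - c) / D) hR'.ne'
      show (((v i - c) / D) % R).toNat < R
      omega)
  rw [h]
  push_cast
  refine sum_congr rfl fun a ha => ?_
  rw [filter_filter]
  congr 2
  apply filter_congr
  intro i _
  have ha' := mem_range.1 ha
  constructor
  · rintro ⟨⟨k, hk⟩, h2⟩
    rw [hk, Int.mul_ediv_cancel_left _ hD'.ne'] at h2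
    have h3 := (dvd_emod_iff hR k ha').2 h2
    have e : v i - (c + D * a) = D * (k - a) := by linarith
    rw [e]
    exact mul_dvd_mul_left _ h3
  · rintro ⟨k, hk⟩
    have e : v i - c = D * (a + R * k) := by linarith
    refine ⟨⟨_, e⟩, ?_⟩
    rw [e, Int.mul_ediv_cancel_left _ hD'.ne']
    rw [← dvd_emod_iff hR _ ha']
    exact ⟨k, by ring⟩

/-- the classes mod `D R` are `c + D a` -/
theorem sum_range_mul {M : Type*} [AddCommMonoid M] {D R : ℕ} (hD : 0 < D) (f : ℕ → M) :
    ∑ c ∈ range (D * R), f c = ∑ c ∈ range D, ∑ a ∈ range R, f (c + D * a) := by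
  clear hD
  induction R with
  | zero => simp
  | succ R ih =>
    have e : D * (R + 1) = D * R + D := by ring
    rw [e, sum_range_add, ih, ← sum_add_distrib]
    refine sum_congr rfl fun c _ => ?_
    rw [sum_range_succ, add_comm (D * R) c]

theorem Fib_nonneg {ι : Type*} (s : Finset ι) (v : ι → ℤ) (D R : ℕ) (c : ℤ) :
    0 ≤ Fib s v D R c := FR_nonneg fun _ _ => cnt_nonneg _ _ _ _

theorem Gam_nonneg {ι : Type*} (s : Finset ι) (v : ι → ℤ) (D R : ℕ) : 0 ≤ Gam s v D R :=
  sum_nonneg fun _ _ => Fib_nonneg _ _ _ _ _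

theorem Gam_le {ι : Type*} (s : Finset ι) (v : ι → ℤ) {D R : ℕ} (hD : 0 < D) (hR : 1 ≤ R) :
    Gam s v D R ≤ (R - 1) * s.card := by
  unfold Gam
  calc ∑ c ∈ range D, Fib s v D R (c : ℤ)
      ≤ ∑ c ∈ range D, ((R : ℝ) - 1) * cnt s v D (c : ℤ) := by
        refine sum_le_sum (fun c _ => ?_)
        have h := FR_le hR (f := fun a => cnt s v (D * R) ((c : ℤ) + D * a))
          (fun a _ => cnt_nonneg _ _ _ _)
        rw [← cnt_split s v hD hR] at h
        exact h
    _ = (R - 1) * s.card := by rw [← mul_sum, sum_cnt s v hD]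

open scoped Classical in
theorem cnt_biUnion {ι κ : Type*} (J : Finset κ) (S : κ → Finset ι)
    (hS : ∀ j ∈ J, ∀ j' ∈ J, j ≠ j' → Disjoint (S j) (S j')) (v : ι → ℤ) (D : ℕ) (c : ℤ) :
    cnt (J.biUnion S) v D c = ∑ j ∈ J, cnt (S j) v D c := by
  unfold cnt
  rw [filter_biUnion, card_biUnion]
  · push_cast
    rfl
  · intro j hj j' hj' hne
    exact disjoint_filter_filter (hS j hj j' hj' hne)

open scoped Classical in
theorem Gam_biUnion {ι κ : Type*} (J : Finset κ) (S : κ → Finset ι)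
    (hS : ∀ j ∈ J, ∀ j' ∈ J, j ≠ j' → Disjoint (S j) (S j')) (v : ι → ℤ) (D R : ℕ) :
    Gam (J.biUnion S) v D R ≤ ∑ j ∈ J, Gam (S j) v D R := by
  unfold Gam
  rw [sum_comm]
  refine sum_le_sum (fun c _ => ?_)
  unfold Fib
  have e : FR R (fun a => cnt (J.biUnion S) v (D * R) ((c : ℤ) + D * a)) =
      FR R (fun a => ∑ j ∈ J, cnt (S j) v (D * R) ((c : ℤ) + D * a)) :=
    FR_congr fun a _ => cnt_biUnion J S hS v _ _
  rw [e]
  exact FR_sum J _ fun j _ a _ => cnt_nonneg _ _ _ _

open scoped Classical in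
theorem cnt_image {ι ι' : Type*} (s : Finset ι') (φ : ι' → ι) (hφ : Set.InjOn φ (s : Set ι'))
    (v : ι → ℤ) (D : ℕ) (c : ℤ) : cnt (s.image φ) v D c = cnt s (fun i => v (φ i)) D c := by
  unfold cnt
  rw [filter_image, card_image_of_injOn]
  intro a ha b hb h
  exact hφ (mem_coe.2 (mem_filter.1 (mem_coe.1 ha)).1) (mem_coe.2 (mem_filter.1 (mem_coe.1 hb)).1) h

open scoped Classical in
theorem Gam_image {ι ι' : Type*} (s : Finset ι') (φ : ι' → ι) (hφ : Set.InjOn φ (s : Set ι'))
    (v : ι → ℤ) (D R : ℕ) : Gam (s.image φ) v D R = Gam s (fun i => v (φ i)) D R := by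
  unfold Gam Fib
  refine sum_congr rfl fun c _ => ?_
  exact FR_congr fun a _ => cnt_image s φ hφ v _ _

end Pool.Agent.H319R3.GC
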