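import Pool.Agent.H319R3.GC.W2

/-! Counting integers in windows and classes (task S1). -/

set_option autoImplicit false

namespace Pool.Agent.H319R3.GC

open Finset

variable {d : ℕ} {m r : ℕ → ℤ}

private theorem side {a b : ℝ} (hab : a ≤ b) {Q : ℕ} (hQ : 0 < Q) (c : ℤ) :
    ∃ F : Finset ℤ, (∀ x : ℤ, a ≤ (x : ℝ) → (x : ℝ) < b → (Q : ℤ) ∣ x - c → x ∈ F) ∧
      (F.card : ℝ) ≤ (b - a) / Q + 1 := by
  have hQr : (0 : ℝ) < Q := by exact_mod_cast hQ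
  refine ⟨(Finset.Ico ⌈(a - c) / Q⌉ ⌈(b - c) / Q⌉).image (fun t : ℤ => c + Q * t), ?_, ?_⟩
  · intro x h1 h2 ⟨t, ht⟩
    rw [mem_image]
    refine ⟨t, ?_, by linarith⟩
    have hx : (x : ℝ) - c = Q * t := by exact_mod_cast ht
    rw [Finset.mem_Ico]
    constructor
    · rw [Int.ceil_le, div_le_iff₀ hQr]; nlinarith
    · rw [Int.lt_ceil, lt_div_iff₀ hQr]; nlinarith
  · refine le_trans (Nat.cast_le.2 Finset.card_image_le) ?_
    rw [Int.card_Ico]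
    have h3 : (a - c) / Q ≤ (b - c) / Q := by gcongr
    have h4 : ⌈(a - c) / Q⌉ ≤ ⌈(b - c) / Q⌉ := Int.ceil_mono h3
    have h5 : (((⌈(b - c) / Q⌉ - ⌈(a - c) / Q⌉).toNat : ℤ) : ℝ)
        = ((⌈(b - c) / Q⌉ - ⌈(a - c) / Q⌉ : ℤ) : ℝ) := by
      rw [Int.toNat_of_nonneg (by omega)]
    have h6 := Int.ceil_lt_add_one ((b - c) / (Q : ℝ))
    have h7 := Int.le_ceil ((a - c) / (Q : ℝ))
    have h8 : (b - a) / Q = (b - c) / Q - (a - c) / Q := by ring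
    rw [Int.cast_natCast] at h5
    rw [h5, Int.cast_sub]
    linarith

/-- number of integers `a ≤ |x| < b`, `x ≡ c mod Q` -/
theorem win_le {a b : ℝ} (ha : 0 ≤ a) (hab : a ≤ b) {Q : ℕ} (hQ : 0 < Q) (c : ℤ) :
    {x : ℤ | a ≤ |(x : ℝ)| ∧ |(x : ℝ)| < b ∧ (Q : ℤ) ∣ x - c}.Finite ∧
    ({x : ℤ | a ≤ |(x : ℝ)| ∧ |(x : ℝ)| < b ∧ (Q : ℤ) ∣ x - c}.ncard : ℝ) ≤ 2 * ((b - a) / Q + 1) := by
  obtain ⟨F, hF, hFc⟩ := side hab hQ c
  obtain ⟨G, hG, hGc⟩ := side hab hQ (-c)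
  have hsub : {x : ℤ | a ≤ |(x : ℝ)| ∧ |(x : ℝ)| < b ∧ (Q : ℤ) ∣ x - c}
      ⊆ ((F ∪ G.image (fun x => -x) : Finset ℤ) : Set ℤ) := by
    rintro x ⟨h1, h2, h3⟩
    rw [Finset.mem_coe, mem_union, mem_image]
    rcases le_total 0 (x : ℝ) with hx | hx
    · left
      rw [abs_of_nonneg hx] at h1 h2
      exact hF x h1 h2 h3
    · right
      rw [abs_of_nonpos hx] at h1 h2
      refine ⟨-x, hG (-x) (by push_cast; exact h1) (by push_cast; exact h2) ?_, by ring⟩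
      have : -x - -c = -(x - c) := by ring
      rw [this]
      exact (dvd_neg).2 h3
  refine ⟨(Finset.finite_toSet _).subset hsub, ?_⟩
  have h1 := Set.ncard_le_ncard hsub (Finset.finite_toSet _)
  rw [Set.ncard_coe_finset] at h1
  have h2 := Finset.card_union_le F (G.image (fun x => -x))
  have h3 : (G.image (fun x => -x)).card ≤ G.card := Finset.card_image_le
  have h1' : ({x : ℤ | a ≤ |(x : ℝ)| ∧ |(x : ℝ)| < b ∧ (Q : ℤ) ∣ x - c}.ncard : ℝ)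
      ≤ ((F ∪ G.image (fun x => -x)).card : ℝ) := Nat.cast_le.2 h1
  have h2' : ((F ∪ G.image (fun x => -x)).card : ℝ) ≤ (F.card : ℝ) + G.card := by
    exact_mod_cast h2.trans (Nat.add_le_add_left h3 _)
  linarith

private theorem ncard_cover {ι : Type*} (s : Finset ι) (A : Set ℤ) (B : ι → Set ℤ)
    (hB : ∀ i ∈ s, (B i).Finite) (h : ∀ x ∈ A, ∃ i ∈ s, x ∈ B i) :
    (A.ncard : ℝ) ≤ ∑ i ∈ s, ((B i).ncard : ℝ) := by
  classical
  have h1 : A ⊆ ⋃ i ∈ s, B i := by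
    intro x hx
    obtain ⟨i, hi, hxi⟩ := h x hx
    exact Set.mem_biUnion hi hxi
  have hfin : (⋃ i ∈ s, B i).Finite := Set.Finite.biUnion s.finite_toSet hB
  have h2 := Set.ncard_le_ncard h1 hfin
  have h3 : (⋃ i ∈ s, B i).ncard ≤ ∑ i ∈ s, (B i).ncard := by
    clear h1 h2 hfin h
    induction s using Finset.induction_on with
    | empty => simp
    | insert a t ha ih =>
      rw [Finset.set_biUnion_insert, Finset.sum_insert ha]
      refine (Set.ncard_union_le _ _).trans ?_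
      gcongr
      exact ih fun i hi => hB i (Finset.mem_insert_of_mem hi)
  exact_mod_cast h2.trans h3

/-- coarser classes -/
theorem PB.coarse {S : Set ℤ} {a : ℝ} (ha : 0 < a) {Q Q' : ℕ} {ρ : ℝ} (hQ' : 0 < Q') (hQ : Q ∣ Q')
    (h : PB S a Q' ρ) : PB S a Q ρ := by
  intro c
  obtain ⟨n, rfl⟩ := hQ
  have hQ0 : 0 < Q := Nat.pos_of_ne_zero (by rintro rfl; simp at hQ')
  have hn0 : 0 < n := Nat.pos_of_ne_zero (by rintro rfl; simp at hQ')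
  have hQr : (0 : ℝ) < Q := by exact_mod_cast hQ0
  have hnr : (0 : ℝ) < n := by exact_mod_cast hn0
  have key : wc S a Q c ≤ ∑ i ∈ range n, wc S a (Q * n) (c + Q * i) := by
    unfold wc
    apply ncard_cover
    · intro i _
      refine (win_le ha.le (by linarith : a ≤ 2 * a) hQ' (c + Q * i)).1.subset ?_
      rintro x ⟨_, h1, h2, h3⟩
      exact ⟨h1, h2, h3⟩
    · rintro x ⟨h0, h1, h2, t, ht⟩
      have hn1 : (0 : ℤ) < n := by exact_mod_cast hn0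
      have e0 : 0 ≤ t % n := Int.emod_nonneg _ (by omega)
      have e1 : t % n < n := Int.emod_lt_of_pos _ hn1
      have e2 : ((t % n).toNat : ℤ) = t % n := Int.toNat_of_nonneg e0
      refine ⟨(t % n).toNat, ?_, h0, h1, h2, ?_⟩
      · rw [mem_range]; omega
      · rw [e2]
        refine ⟨t / n, ?_⟩
        have := Int.emod_add_mul_ediv t n
        push_cast
        linear_combination ht - (Q : ℤ) * this
  have h2 : ∑ i ∈ range n, wc S a (Q * n) (c + Q * i)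
      ≤ ∑ i ∈ range n, ρ * (2 * a) / ((Q * n : ℕ) : ℝ) := Finset.sum_le_sum fun i _ => h _
  refine key.trans (h2.trans (le_of_eq ?_))
  rw [Finset.sum_const, card_range, nsmul_eq_mul]
  push_cast
  field_simp

open scoped Classical in
/-- few integers of a window in a class have their itinerary in a given set of words -/
theorem bad_words (h : Adm d m r) {a : ℝ} (ha : 0 < a) {k Q : ℕ} (hQ : 0 < Q) (hQd : Nat.Coprime Q d)
    (hk : (d : ℝ) ^ k * Q ≤ a) (c : ℤ) (Bad : Finset (List ℕ)) :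
    ({x : ℤ | a ≤ |(x : ℝ)| ∧ |(x : ℝ)| < 2 * a ∧ (Q : ℤ) ∣ x - c ∧ wd d m r k x ∈ Bad}.ncard : ℝ)
      ≤ Bad.card * (4 * a / ((d : ℝ) ^ k * Q)) := by
  have hd0 : 0 < d := by have := h.two_le; omega
  have hdr : (0 : ℝ) < d := by exact_mod_cast hd0
  have hQr : (0 : ℝ) < Q := by exact_mod_cast hQ
  have hpos : (0 : ℝ) < (d : ℝ) ^ k * Q := by positivity
  have hfin : ∀ c' : ℤ, {x : ℤ | a ≤ |(x : ℝ)| ∧ |(x : ℝ)| < 2 * a ∧ (Q : ℤ) ∣ x - c'}.Finite :=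
    fun c' => (win_le ha.le (by linarith : a ≤ 2 * a) hQ c').1
  have key := ncard_cover Bad
    {x : ℤ | a ≤ |(x : ℝ)| ∧ |(x : ℝ)| < 2 * a ∧ (Q : ℤ) ∣ x - c ∧ wd d m r k x ∈ Bad}
    (fun w => {x : ℤ | a ≤ |(x : ℝ)| ∧ |(x : ℝ)| < 2 * a ∧ (Q : ℤ) ∣ x - c ∧ wd d m r k x = w})
    (fun w _ => (hfin c).subset (by rintro x ⟨h1, h2, h3, -⟩; exact ⟨h1, h2, h3⟩))
    (by rintro x ⟨h1, h2, h3, h4⟩; exact ⟨_, h4, h1, h2, h3, rfl⟩)
  refine key.trans ?_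
  rw [← nsmul_eq_mul]
  apply Finset.sum_le_card_nsmul
  intro w _
  by_cases hne : {x : ℤ | a ≤ |(x : ℝ)| ∧ |(x : ℝ)| < 2 * a ∧ (Q : ℤ) ∣ x - c ∧
      wd d m r k x = w}.Nonempty
  · obtain ⟨x₀, -, -, hx3, hx4⟩ := hne
    have hR0 : 0 < d ^ k * Q := by positivity
    obtain ⟨hf, hc⟩ := win_le ha.le (by linarith : a ≤ 2 * a) hR0 x₀
    have hsub : {x : ℤ | a ≤ |(x : ℝ)| ∧ |(x : ℝ)| < 2 * a ∧ (Q : ℤ) ∣ x - c ∧ wd d m r k x = w}
        ⊆ {x : ℤ | a ≤ |(x : ℝ)| ∧ |(x : ℝ)| < 2 * a ∧ ((d ^ k * Q : ℕ) : ℤ) ∣ x - x₀} := by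
      rintro x ⟨h1, h2, h3, h4⟩
      refine ⟨h1, h2, ?_⟩
      have e1 : (d : ℤ) ^ k ∣ x - x₀ := wd_cong h (h4.trans hx4.symm)
      have e2 : (Q : ℤ) ∣ x - x₀ := by
        have := dvd_sub h3 hx3
        have e : x - c - (x₀ - c) = x - x₀ := by ring
        rwa [e] at this
      have e3 : IsCoprime ((d : ℤ) ^ k) (Q : ℤ) := by
        apply IsCoprime.pow_left
        exact (Nat.isCoprime_iff_coprime.2 hQd).symm
      push_cast
      exact e3.mul_dvd e1 e2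
    have h5 : (({x : ℤ | a ≤ |(x : ℝ)| ∧ |(x : ℝ)| < 2 * a ∧ (Q : ℤ) ∣ x - c ∧
        wd d m r k x = w}.ncard : ℕ) : ℝ) ≤
        ({x : ℤ | a ≤ |(x : ℝ)| ∧ |(x : ℝ)| < 2 * a ∧ ((d ^ k * Q : ℕ) : ℤ) ∣ x - x₀}.ncard : ℝ) := by
      exact_mod_cast Set.ncard_le_ncard hsub hf
    refine h5.trans (hc.trans ?_)
    have h6 : (1 : ℝ) ≤ a / ((d : ℝ) ^ k * Q) := (one_le_div hpos).2 hk
    have h7 : (((d ^ k * Q : ℕ)) : ℝ) = (d : ℝ) ^ k * Q := by push_cast; ring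
    rw [h7]
    have h8 : (2 * a - a) / ((d : ℝ) ^ k * Q) = a / ((d : ℝ) ^ k * Q) := by ring
    have h9 : 4 * a / ((d : ℝ) ^ k * Q) = 4 * (a / ((d : ℝ) ^ k * Q)) := by ring
    rw [h8, h9]
    linarith
  · rw [Set.not_nonempty_iff_eq_empty] at hne
    rw [hne, Set.ncard_empty]
    simp only [Nat.cast_zero]
    positivity

end Pool.Agent.H319R3.GC
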