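import Pool.Agent.H319R3.GC.Defs

/-! Itineraries (task W2). -/

set_option autoImplicit false

namespace Pool.Agent.H319R3.GC

open Finset

variable {d : ℕ} {m r : ℕ → ℤ}

private theorem mem_LW' {k : ℕ} {w : List ℕ} : w ∈ LW d k ↔ w.length = k ∧ ∀ i ∈ w, i < d := by
  induction k generalizing w with
  | zero =>
    simp only [LW, mem_singleton]
    constructor
    · rintro rfl; simp
    · rintro ⟨h, -⟩; exact List.length_eq_zero_iff.1 h
  | succ k ih =>
    simp only [LW, mem_biUnion, mem_range, mem_image]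
    constructor
    · rintro ⟨i, hi, u, hu, rfl⟩
      obtain ⟨h1, h2⟩ := ih.1 hu
      refine ⟨by simp [h1], ?_⟩
      intro j hj
      rcases List.mem_cons.1 hj with rfl | hj
      · exact hi
      · exact h2 j hj
    · rintro ⟨h1, h2⟩
      cases w with
      | nil => simp at h1
      | cons i u =>
        refine ⟨i, h2 i (by simp), u, ih.2 ⟨by simpa using h1, fun j hj => h2 j (by simp [hj])⟩, rfl⟩

private theorem toNat_mod (h : 2 ≤ d) (x : ℤ) : ((x % d).toNat : ℤ) = x % d ∧ (x % d).toNat < d := by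
  have hd : (0 : ℤ) < d := by exact_mod_cast (by omega : 0 < d)
  have h0 : 0 ≤ x % d := Int.emod_nonneg _ (by omega)
  have h1 : x % d < d := Int.emod_lt_of_pos _ hd
  have h2 : ((x % d).toNat : ℤ) = x % d := Int.toNat_of_nonneg h0
  refine ⟨h2, ?_⟩
  have : ((x % d).toNat : ℤ) < (d : ℤ) := by rw [h2]; exact h1
  exact_mod_cast this

theorem wd_mem (h : 2 ≤ d) (k : ℕ) (x : ℤ) : wd d m r k x ∈ LW d k := by
  induction k generalizing x with
  | zero => simp [wd, LW]
  | succ k ih =>
    simp only [wd, LW, mem_biUnion, mem_range, mem_image]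
    exact ⟨_, (toNat_mod h x).2, _, ih (Tm d m r x), rfl⟩

private theorem Mw_cop' (h : Adm d m r) {w : List ℕ} (hw : ∀ i ∈ w, i < d) :
    IsCoprime (Mw m w) (d : ℤ) := by
  induction w with
  | nil => simpa [Mw] using isCoprime_one_left
  | cons i u ih =>
    have h1 : Mw m (i :: u) = m i * Mw m u := by simp [Mw]
    rw [h1]
    exact (h.cop i (hw i (by simp))).mul_left (ih fun j hj => hw j (by simp [hj]))

private theorem Tm_eq (h : Adm d m r) (x : ℤ) :
    (d : ℤ) * Tm d m r x = m (x % d).toNat * x - r (x % d).toNat := by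
  obtain ⟨h1, h2⟩ := toNat_mod h.two_le x
  unfold Tm
  apply Int.mul_ediv_cancel'
  have h3 := h.adm _ h2
  have h4 : (d : ℤ) ∣ m (x % d).toNat * (x - ((x % d).toNat : ℤ)) := by
    apply Dvd.dvd.mul_left
    rw [h1]
    exact Int.dvd_self_sub_emod
  have h5 := dvd_add h3 h4
  have h6 : m (x % d).toNat * ((x % d).toNat : ℤ) - r (x % d).toNat
      + m (x % d).toNat * (x - ((x % d).toNat : ℤ)) = m (x % d).toNat * x - r (x % d).toNat := by
    ring
  rwa [h6] at h5

theorem iter_eq (h : Adm d m r) (k : ℕ) (x : ℤ) :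
    (d : ℤ) ^ k * (Tm d m r)^[k] x = Mw m (wd d m r k x) * x - Ww d m r (wd d m r k x) := by
  induction k generalizing x with
  | zero => simp [wd, Mw, Ww]
  | succ k ih =>
    have h1 := ih (Tm d m r x)
    have h2 := Tm_eq h x
    rw [Function.iterate_succ_apply]
    have h3 : Mw m (wd d m r (k + 1) x)
        = m (x % d).toNat * Mw m (wd d m r k (Tm d m r x)) := by simp [wd, Mw]
    have h4 : Ww d m r (wd d m r (k + 1) x)
        = r (x % d).toNat * Mw m (wd d m r k (Tm d m r x))
          + d * Ww d m r (wd d m r k (Tm d m r x)) := by simp [wd, Ww]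
    rw [h3, h4, pow_succ]
    linear_combination (d : ℤ) * h1 + Mw m (wd d m r k (Tm d m r x)) * h2

theorem wd_cong (h : Adm d m r) {k : ℕ} {x y : ℤ} (hw : wd d m r k x = wd d m r k y) :
    (d : ℤ) ^ k ∣ x - y := by
  have h1 := iter_eq h k x
  have h2 := iter_eq h k y
  rw [← hw] at h2
  have hc : IsCoprime (Mw m (wd d m r k x)) (d : ℤ) :=
    Mw_cop' h (mem_LW'.1 (wd_mem h.two_le k x)).2
  have hc' : IsCoprime ((d : ℤ) ^ k) (Mw m (wd d m r k x)) := (hc.pow_right (n := k)).symm
  apply hc'.dvd_of_dvd_mul_left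
  exact ⟨(Tm d m r)^[k] x - (Tm d m r)^[k] y, by linear_combination h2 - h1⟩

end Pool.Agent.H319R3.GC
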