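import Pool.Agent.H319R3.GC.Defs

/-! F1: the nonuniformity functional `FR` on `ℤ/R`. -/

set_option autoImplicit false

namespace Pool.Agent.H319R3.GC

open Finset

/-- values of periodic functions at residues -/
theorem per_emod {D : ℕ} {f : ℤ → ℝ} (hf : ∀ x, f (x + D) = f x) (x : ℤ) : f (x % D) = f x := by
  have hp : Function.Periodic f (D : ℤ) := hf
  have h := hp.int_mul (x / D) (x % D)
  rw [← h]
  congr 1
  have := Int.emod_add_mul_ediv x D
  simp only [Int.cast_id]
  linarith

/-- sums over complete residue systems of periodic functions -/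
theorem sum_affine {D : ℕ} (hD : 0 < D) {f : ℤ → ℝ} (hf : ∀ x, f (x + D) = f x) {u : ℤ}
    (hu : IsCoprime u (D : ℤ)) (t : ℤ) :
    ∑ c ∈ range D, f (u * c + t) = ∑ c ∈ range D, f (c : ℤ) := by
  classical
  have hD' : (0 : ℤ) < D := by exact_mod_cast hD
  set e : ℕ → ℕ := fun c => ((u * c + t) % D).toNat with he
  have hecast : ∀ c : ℕ, ((e c : ℕ) : ℤ) = (u * c + t) % D := fun c =>
    Int.toNat_of_nonneg (Int.emod_nonneg _ hD'.ne')
  have hmaps : ∀ c ∈ range D, e c ∈ range D := by
    intro c _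
    rw [mem_range]
    have := Int.emod_lt_of_pos (u * c + t) hD'
    rw [← hecast] at this
    exact_mod_cast this
  have hinj : Set.InjOn e (range D : Set ℕ) := by
    intro c hc c' hc' h
    rw [mem_coe, mem_range] at hc hc'
    have h1 : ((e c : ℕ) : ℤ) = ((e c' : ℕ) : ℤ) := by rw [h]
    rw [hecast, hecast] at h1
    have h2 : (D : ℤ) ∣ u * ((c : ℤ) - c') := by
      have := Int.ModEq.dvd (n := (D : ℤ)) (a := u * c' + t) (b := u * c + t) h1.symm
      have e1 : u * (c : ℤ) + t - (u * c' + t) = u * ((c : ℤ) - c') := by ring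
      rwa [e1] at this
    have h3 : (D : ℤ) ∣ (c : ℤ) - c' := hu.symm.dvd_of_dvd_mul_left h2
    have h4 : (c : ℤ) - c' = 0 := by
      apply Int.eq_zero_of_abs_lt_dvd h3
      rw [abs_lt]
      constructor <;> omega
    omega
  have himg : (range D).image e = range D := by
    apply Finset.eq_of_subset_of_card_le
    · intro x hx
      rw [mem_image] at hx
      obtain ⟨c, hc, rfl⟩ := hx
      exact hmaps c hc
    · rw [card_image_of_injOn hinj]
  calc ∑ c ∈ range D, f (u * c + t) = ∑ c ∈ range D, f ((e c : ℕ) : ℤ) := by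
        refine sum_congr rfl fun c _ => ?_
        rw [hecast, per_emod hf]
    _ = ∑ c ∈ (range D).image e, f (c : ℤ) := (sum_image (f := fun c : ℕ => f (c : ℤ)) hinj).symm
    _ = ∑ c ∈ range D, f (c : ℤ) := by rw [himg]

theorem FR_num {R : ℕ} (hR : 1 ≤ R) (f : ℕ → ℝ) :
    (R : ℝ) * ∑ a ∈ range R, f a ^ 2 - (∑ a ∈ range R, f a) ^ 2 =
      R * ∑ a ∈ range R, (f a - (∑ b ∈ range R, f b) / R) ^ 2 := by
  have hR0 : (R : ℝ) ≠ 0 := by positivity
  have h : ∑ a ∈ range R, (f a - (∑ b ∈ range R, f b) / R) ^ 2 =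
      ∑ a ∈ range R, f a ^ 2 - 2 * ((∑ b ∈ range R, f b) / R) * (∑ a ∈ range R, f a) +
        R * ((∑ b ∈ range R, f b) / R) ^ 2 := by
    have : ∀ a, (f a - (∑ b ∈ range R, f b) / R) ^ 2 =
        f a ^ 2 - 2 * ((∑ b ∈ range R, f b) / R) * f a + ((∑ b ∈ range R, f b) / R) ^ 2 := by
      intro a; ring
    simp only [this]
    rw [sum_add_distrib, sum_sub_distrib, ← mul_sum, sum_const, card_range, nsmul_eq_mul]
  rw [h]
  field_simp
  ring

theorem FR_congr {R : ℕ} {f g : ℕ → ℝ} (h : ∀ a < R, f a = g a) : FR R f = FR R g := by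
  unfold FR
  have h1 : ∑ a ∈ range R, f a = ∑ a ∈ range R, g a :=
    sum_congr rfl fun a ha => h a (mem_range.1 ha)
  have h2 : ∑ a ∈ range R, f a ^ 2 = ∑ a ∈ range R, g a ^ 2 :=
    sum_congr rfl fun a ha => by rw [h a (mem_range.1 ha)]
  rw [h1, h2]

theorem FR_nonneg {R : ℕ} {f : ℕ → ℝ} (hf : ∀ a < R, 0 ≤ f a) : 0 ≤ FR R f := by
  unfold FR
  apply div_nonneg
  · have := sq_sum_le_card_mul_sum_sq (s := range R) (f := f)
    rw [card_range] at this
    linarith
  · exact sum_nonneg fun a ha => hf a (mem_range.1 ha)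

theorem FR_mass_zero {R : ℕ} {f : ℕ → ℝ} (h : ∑ a ∈ range R, f a = 0) : FR R f = 0 := by
  unfold FR
  rw [h, div_zero]

theorem FR_le {R : ℕ} (hR : 1 ≤ R) {f : ℕ → ℝ} (hf : ∀ a < R, 0 ≤ f a) :
    FR R f ≤ (R - 1) * ∑ a ∈ range R, f a := by
  have hS : 0 ≤ ∑ a ∈ range R, f a := sum_nonneg fun a ha => hf a (mem_range.1 ha)
  rcases hS.eq_or_lt with h | h
  · rw [FR_mass_zero h.symm, ← h, mul_zero]
  · unfold FR
    rw [div_le_iff₀ h]
    have h1 : ∑ a ∈ range R, f a ^ 2 ≤ (∑ a ∈ range R, f a) ^ 2 :=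
      sum_sq_le_sq_sum_of_nonneg fun a ha => hf a (mem_range.1 ha)
    have h2 : (0 : ℝ) ≤ R := by positivity
    nlinarith [mul_le_mul_of_nonneg_left h1 h2]

theorem FR_titu (R : ℕ) (F G : ℕ → ℝ) {S T : ℝ} (hS : 0 < S) (hT : 0 < T) :
    (∑ a ∈ range R, (F a + G a) ^ 2) / (S + T) ≤
      (∑ a ∈ range R, F a ^ 2) / S + (∑ a ∈ range R, G a ^ 2) / T := by
  rw [sum_div, sum_div, sum_div, ← sum_add_distrib]
  refine sum_le_sum (fun a _ => ?_)
  rw [div_add_div _ _ hS.ne' hT.ne', div_le_div_iff₀ (by linarith) (mul_pos hS hT)]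
  nlinarith [sq_nonneg (T * F a - S * G a), mul_pos hS hT]

theorem FR_add {R : ℕ} {f g : ℕ → ℝ} (hf : ∀ a < R, 0 ≤ f a) (hg : ∀ a < R, 0 ≤ g a) :
    FR R (fun a => f a + g a) ≤ FR R f + FR R g := by
  rcases Nat.eq_zero_or_pos R with rfl | hR
  · simp [FR]
  have hfz : (∑ a ∈ range R, f a = 0) → ∀ a < R, f a = 0 := fun h a ha =>
    (sum_eq_zero_iff_of_nonneg fun a ha => hf a (mem_range.1 ha)).1 h a (mem_range.2 ha)
  have hgz : (∑ a ∈ range R, g a = 0) → ∀ a < R, g a = 0 := fun h a ha =>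
    (sum_eq_zero_iff_of_nonneg fun a ha => hg a (mem_range.1 ha)).1 h a (mem_range.2 ha)
  have hS : 0 ≤ ∑ a ∈ range R, f a := sum_nonneg fun a ha => hf a (mem_range.1 ha)
  have hT : 0 ≤ ∑ a ∈ range R, g a := sum_nonneg fun a ha => hg a (mem_range.1 ha)
  rcases hS.eq_or_lt with h | h
  · rw [FR_mass_zero h.symm, zero_add]
    exact le_of_eq (FR_congr fun a ha => by rw [hfz h.symm a ha, zero_add])
  rcases hT.eq_or_lt with h' | h'
  · rw [FR_mass_zero h'.symm, add_zero]
    exact le_of_eq (FR_congr fun a ha => by rw [hgz h'.symm a ha, add_zero])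
  set S := ∑ a ∈ range R, f a with hSd
  set T := ∑ a ∈ range R, g a with hTd
  have hst : ∑ a ∈ range R, (f a + g a) = S + T := sum_add_distrib
  have hR0 : (0 : ℝ) < R := by exact_mod_cast hR
  have hgen : ∀ p q : ℝ, (∑ a ∈ range R, (f a + g a - (p + q)) ^ 2) / (S + T) ≤
      (∑ a ∈ range R, (f a - p) ^ 2) / S + (∑ a ∈ range R, (g a - q) ^ 2) / T := by
    intro p q
    have := FR_titu R (fun a => f a - p) (fun a => g a - q) h h'
    have e : ∀ a, f a + g a - (p + q) = (f a - p) + (g a - q) := fun a => by ring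
    simp only [e]
    exact this
  have h3 := hgen (S / R) (T / R)
  rw [← add_div] at h3
  unfold FR
  rw [FR_num hR, FR_num hR, FR_num hR, hst, ← hSd, ← hTd]
  rw [mul_div_assoc, mul_div_assoc, mul_div_assoc, ← mul_add]
  exact mul_le_mul_of_nonneg_left h3 hR0.le

theorem FR_sum {κ : Type*} (J : Finset κ) {R : ℕ} (f : κ → ℕ → ℝ)
    (hf : ∀ j ∈ J, ∀ a < R, 0 ≤ f j a) :
    FR R (fun a => ∑ j ∈ J, f j a) ≤ ∑ j ∈ J, FR R (f j) := by
  classical
  induction J using Finset.induction_on with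
  | empty =>
    simp only [sum_empty]
    exact le_of_eq (FR_mass_zero (by simp))
  | insert j J hj ih =>
    rw [sum_insert hj]
    have e : FR R (fun a => ∑ j ∈ insert j J, f j a) = FR R (fun a => f j a + ∑ j ∈ J, f j a) :=
      FR_congr fun a _ => by rw [sum_insert hj]
    rw [e]
    refine (FR_add (hf j (mem_insert_self _ _)) ?_).trans ?_
    · intro a ha
      exact sum_nonneg fun j' hj' => hf j' (mem_insert_of_mem hj') a ha
    · have := ih fun j' hj' => hf j' (mem_insert_of_mem hj')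
      linarith

/-- invariance under affine bijections of `ℤ/R` -/
theorem FR_unit {R : ℕ} (hR : 1 ≤ R) {f : ℤ → ℝ} (hf : ∀ x, f (x + R) = f x) {u : ℤ}
    (hu : IsCoprime u (R : ℤ)) (t : ℤ) : FR R (fun a => f (u * a + t)) = FR R (fun a => f a) := by
  unfold FR
  have h1 : ∑ a ∈ range R, f (u * a + t) = ∑ a ∈ range R, f (a : ℤ) := sum_affine hR hf hu t
  have h2 : ∑ a ∈ range R, f (u * a + t) ^ 2 = ∑ a ∈ range R, f (a : ℤ) ^ 2 :=
    sum_affine (f := fun x => f x ^ 2) hR (fun x => by simp only [hf]) hu t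
  rw [h1, h2]

theorem FR_conv {R : ℕ} (hR : 1 ≤ R) {f g : ℤ → ℝ} (hf : ∀ x, f (x + R) = f x)
    (hg : ∀ x, g (x + R) = g x) (hf0 : ∀ x, 0 ≤ f x) (hg0 : ∀ x, 0 ≤ g x) :
    FR R (fun a => ∑ b ∈ range R, f b * g (a - b)) ≤ FR R (fun a => f a) * FR R (fun a => g a) := by
  have hR0 : (0 : ℝ) < R := by exact_mod_cast hR
  have hF : 0 ≤ FR R (fun a => f a) := FR_nonneg fun a _ => hf0 a
  have hG : 0 ≤ FR R (fun a => g a) := FR_nonneg fun a _ => hg0 a
  set S := ∑ a ∈ range R, f a with hSd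
  set T := ∑ a ∈ range R, g a with hTd
  have hshift : ∀ b : ℕ, ∑ a ∈ range R, g ((a : ℤ) - b) = T := by
    intro b
    have := sum_affine hR hg (u := 1) isCoprime_one_left (-(b : ℤ))
    simp only [one_mul] at this
    exact this
  have hrefl : ∀ a : ℕ, ∑ b ∈ range R, g ((a : ℤ) - b) = T := by
    intro a
    have := sum_affine hR hg (u := -1) isCoprime_one_left.neg_left (a : ℤ)
    rw [hTd, ← this]
    refine sum_congr rfl fun b _ => ?_
    congr 1
    ring
  have hmass : ∑ a ∈ range R, ∑ b ∈ range R, f b * g ((a : ℤ) - b) = S * T := by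
    rw [sum_comm]
    calc ∑ b ∈ range R, ∑ a ∈ range R, f b * g ((a : ℤ) - b)
        = ∑ b ∈ range R, f b * T := by
          refine sum_congr rfl fun b _ => ?_
          rw [← mul_sum, hshift]
      _ = S * T := by rw [← sum_mul]
  by_cases h0 : S * T = 0
  · rw [FR_mass_zero (by rw [hmass, h0])]
    exact mul_nonneg hF hG
  have hS0 : 0 ≤ S := sum_nonneg fun a _ => hf0 a
  have hT0 : 0 ≤ T := sum_nonneg fun a _ => hg0 a
  have hS : 0 < S := lt_of_le_of_ne hS0 fun h => h0 (by rw [← h, zero_mul])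
  have hT : 0 < T := lt_of_le_of_ne hT0 fun h => h0 (by rw [← h, mul_zero])
  unfold FR
  rw [FR_num hR, FR_num hR, FR_num hR, hmass, ← hSd, ← hTd, div_mul_div_comm]
  apply div_le_div_of_nonneg_right _ (mul_pos hS hT).le
  set A := ∑ a ∈ range R, (f a - S / R) ^ 2 with hA
  set B := ∑ a ∈ range R, (g a - T / R) ^ 2 with hB
  have hB' : ∀ a : ℕ, ∑ b ∈ range R, (g ((a : ℤ) - b) - T / R) ^ 2 = B := by
    intro a
    have := sum_affine (f := fun x => (g x - T / R) ^ 2) hR (fun x => by simp only [hg])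
      (u := -1) isCoprime_one_left.neg_left (a : ℤ)
    rw [hB, ← this]
    refine sum_congr rfl fun b _ => ?_
    have e : (-1 : ℤ) * b + a = a - b := by ring
    rw [e]
  have hterm : ∀ a ∈ range R, (∑ b ∈ range R, f b * g ((a : ℤ) - b) - S * T / R) ^ 2 ≤ A * B := by
    intro a _
    have e : ∑ b ∈ range R, f b * g ((a : ℤ) - b) - S * T / R =
        ∑ b ∈ range R, (f b - S / R) * (g ((a : ℤ) - b) - T / R) := by
      have e1 : ∀ b : ℕ, (f b - S / R) * (g ((a : ℤ) - b) - T / R) =
          f b * g ((a : ℤ) - b) - T / R * f b - S / R * g ((a : ℤ) - b) + S / R * (T / R) := by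
        intro b; ring
      simp only [e1]
      rw [sum_add_distrib, sum_sub_distrib, sum_sub_distrib, ← mul_sum, ← mul_sum, hrefl,
        ← hSd, sum_const, card_range, nsmul_eq_mul]
      field_simp
      ring
    rw [e]
    have := sum_mul_sq_le_sq_mul_sq (range R) (fun b : ℕ => f b - S / R)
      (fun b : ℕ => g ((a : ℤ) - b) - T / R)
    rw [hB'] at this
    exact this
  have hsum := sum_le_sum hterm
  rw [sum_const, card_range, nsmul_eq_mul] at hsum
  calc (R : ℝ) * ∑ a ∈ range R, (∑ b ∈ range R, f b * g ((a : ℤ) - b) - S * T / R) ^ 2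
      ≤ R * (R * (A * B)) := mul_le_mul_of_nonneg_left hsum hR0.le
    _ = R * A * (R * B) := by ring

theorem FR_entropy {R : ℕ} (hR : 1 ≤ R) {f : ℕ → ℝ} (hf : ∀ a < R, 0 ≤ f a) :
    FR R f ≤ 4 * R * (∑ a ∈ range R, f a * Real.log (f a)
      - (∑ a ∈ range R, f a) * Real.log (∑ a ∈ range R, f a)
      + (∑ a ∈ range R, f a) * Real.log R) := by
  have hR0 : (0 : ℝ) < R := by exact_mod_cast hR
  have hR1 : (1 : ℝ) ≤ R := by exact_mod_cast hR
  have hfz : (∑ a ∈ range R, f a = 0) → ∀ a < R, f a = 0 := fun h a ha =>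
    (sum_eq_zero_iff_of_nonneg fun a ha => hf a (mem_range.1 ha)).1 h a (mem_range.2 ha)
  have hS : 0 ≤ ∑ a ∈ range R, f a := sum_nonneg fun a ha => hf a (mem_range.1 ha)
  rcases hS.eq_or_lt with h | h
  · rw [FR_mass_zero h.symm, ← h]
    have : ∑ a ∈ range R, f a * Real.log (f a) = 0 :=
      sum_eq_zero fun a ha => by rw [hfz h.symm a (mem_range.1 ha), zero_mul]
    rw [this]
    simp
  set S := ∑ a ∈ range R, f a with hSd
  -- the termwise inequality
  have key : ∀ y : ℝ, 0 ≤ y → y ≤ S → R * (y - S / R) ^ 2 / S ≤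
      4 * R * (y * Real.log y - y * Real.log S + y * Real.log R - y + S / R) := by
    intro y hy hyS
    rcases hy.eq_or_lt with h0 | h0
    · rw [← h0]
      have e1 : (R : ℝ) * (0 - S / R) ^ 2 / S = S / R := by
        field_simp
        ring
      rw [e1]
      have e2 : 4 * (R : ℝ) * (0 * Real.log 0 - 0 * Real.log S + 0 * Real.log R - 0 + S / R) =
          4 * S := by
        field_simp
        ring
      rw [e2]
      have : S / R ≤ S := div_le_self h.le hR1
      linarith
    · set x := R * y / S with hx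
      have hx0 : 0 < x := by positivity
      have hxR : x ≤ R := by
        rw [hx, div_le_iff₀ h]
        exact mul_le_mul_of_nonneg_left hyS hR0.le
      have hy' : y = S / R * x := by rw [hx]; field_simp
      have hlog : Real.log x = Real.log R + Real.log y - Real.log S := by
        rw [hx, Real.log_div (by positivity) h.ne', Real.log_mul hR0.ne' h0.ne']
      have e1 : (R : ℝ) * (y - S / R) ^ 2 / S = S / R * (x - 1) ^ 2 := by
        rw [hy']
        field_simp
      have e2 : y * Real.log y - y * Real.log S + y * Real.log R - y + S / R =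
          S / R * (x * Real.log x - x + 1) := by
        have : y * Real.log y - y * Real.log S + y * Real.log R = y * Real.log x := by
          rw [hlog]; ring
        rw [this]
        have e3 : y * Real.log x - y + S / R = (S / R * x) * Real.log x - S / R * x + S / R := by
          rw [← hy']
        rw [e3]
        ring
      rw [e1, e2]
      set s := Real.sqrt x with hs
      have hs0 : 0 < s := Real.sqrt_pos.2 hx0
      have hss : s ^ 2 = x := Real.sq_sqrt hx0.le
      have h1 : 1 - s⁻¹ ≤ Real.log s := Real.one_sub_inv_le_log_of_pos hs0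
      have h2 : Real.log x = 2 * Real.log s := by rw [← hss, Real.log_pow]; norm_num
      have h3 : (s - 1) ^ 2 ≤ x * Real.log x - x + 1 := by
        have h4 : x * Real.log x ≥ 2 * (x - s) := by
          rw [h2]
          have h5 : x * (1 - s⁻¹) ≤ x * Real.log s := mul_le_mul_of_nonneg_left h1 hx0.le
          have h6 : x * (1 - s⁻¹) = x - s := by
            rw [← hss]; field_simp
          linarith
        nlinarith
      have h4 : (s + 1) ^ 2 ≤ 4 * R := by
        have h5 : s ≤ Real.sqrt R := Real.sqrt_le_sqrt hxR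
        have h6 : 1 ≤ Real.sqrt R := Real.one_le_sqrt.2 hR1
        have h7 : s + 1 ≤ 2 * Real.sqrt R := by linarith
        have h8 := pow_le_pow_left₀ (by positivity) h7 2
        rw [mul_pow, Real.sq_sqrt hR0.le] at h8
        linarith
      have h5 : (x - 1) ^ 2 = (s - 1) ^ 2 * (s + 1) ^ 2 := by rw [← hss]; ring
      have h6 : 0 ≤ S / R := by positivity
      calc S / R * (x - 1) ^ 2 = S / R * ((s - 1) ^ 2 * (s + 1) ^ 2) := by rw [h5]
        _ ≤ S / R * ((x * Real.log x - x + 1) * (4 * R)) := by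
            apply mul_le_mul_of_nonneg_left _ h6
            exact mul_le_mul h3 h4 (sq_nonneg _) ((sq_nonneg _).trans h3)
        _ = 4 * R * (S / R * (x * Real.log x - x + 1)) := by ring
  unfold FR
  rw [FR_num hR, ← hSd, mul_div_assoc, sum_div, mul_sum]
  have hle : ∑ a ∈ range R, R * ((f a - S / R) ^ 2 / S) ≤ ∑ a ∈ range R,
      4 * R * (f a * Real.log (f a) - f a * Real.log S + f a * Real.log R - f a + S / R) := by
    refine sum_le_sum fun a ha => ?_
    have ha' := mem_range.1 ha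
    have h1 : f a ≤ S := single_le_sum (f := f) (fun b hb => hf b (mem_range.1 hb)) ha
    have := key (f a) (hf a ha') h1
    rwa [mul_div_assoc] at this
  refine hle.trans (le_of_eq ?_)
  rw [← mul_sum]
  congr 1
  rw [sum_add_distrib, sum_sub_distrib, sum_add_distrib, sum_sub_distrib, ← sum_mul, ← sum_mul,
    ← hSd, sum_const, card_range, nsmul_eq_mul]
  field_simp
  ring

theorem FR_l1 {R : ℕ} (hR : 1 ≤ R) {f : ℕ → ℝ} (hf : ∀ a < R, 0 ≤ f a) :
    ∑ a ∈ range R, |f a - (∑ b ∈ range R, f b) / R| ≤ √(FR R f * ∑ a ∈ range R, f a) := by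
  have hfz : (∑ a ∈ range R, f a = 0) → ∀ a < R, f a = 0 := fun h a ha =>
    (sum_eq_zero_iff_of_nonneg fun a ha => hf a (mem_range.1 ha)).1 h a (mem_range.2 ha)
  have hS : 0 ≤ ∑ a ∈ range R, f a := sum_nonneg fun a ha => hf a (mem_range.1 ha)
  rcases hS.eq_or_lt with h | h
  · have : ∑ a ∈ range R, |f a - (∑ b ∈ range R, f b) / R| = 0 :=
      sum_eq_zero fun a ha => by rw [← h, hfz h.symm a (mem_range.1 ha)]; simp
    rw [this]
    exact Real.sqrt_nonneg _
  · apply Real.le_sqrt_of_sq_le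
    unfold FR
    rw [div_mul_cancel₀ _ h.ne', FR_num hR]
    have h1 := sq_sum_le_card_mul_sum_sq (s := range R)
      (f := fun a => |f a - (∑ b ∈ range R, f b) / R|)
    rw [card_range] at h1
    simp only [sq_abs] at h1
    exact h1

end Pool.Agent.H319R3.GC
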