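import Pool.Agent.H319R3.GC.Defs
import Pool.Agent.H319R3.GC.F1
import Pool.Agent.H319R3.GC.F2
import Pool.Agent.H319R3.GC.W1

/-! E1: entropy increments (helper804). -/

set_option autoImplicit false

namespace Pool.Agent.H319R3.GC

open Finset

variable {d : ℕ} {m r : ℕ → ℤ}

theorem EE_step {ι : Type*} (s : Finset ι) (v : ι → ℤ) {D R : ℕ} (hD : 0 < D) (hR : 1 ≤ R) :
    Gam s v D R ≤ 4 * R * (EE s v (D * R) - EE s v D) := by
  have hDR : (0 : ℝ) < D := by exact_mod_cast hD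
  have hRr : (0 : ℝ) < R := by exact_mod_cast hR
  have h1 : EE s v (D * R) - EE s v D = ∑ c ∈ range D,
      (∑ a ∈ range R, cnt s v (D * R) ((c : ℤ) + D * a) *
          Real.log (cnt s v (D * R) ((c : ℤ) + D * a))
        - (∑ a ∈ range R, cnt s v (D * R) ((c : ℤ) + D * a)) *
          Real.log (∑ a ∈ range R, cnt s v (D * R) ((c : ℤ) + D * a))
        + (∑ a ∈ range R, cnt s v (D * R) ((c : ℤ) + D * a)) * Real.log R) := by
    have h2 : ∀ c : ℕ, ∑ a ∈ range R, cnt s v (D * R) ((c : ℤ) + D * a) = cnt s v D (c : ℤ) :=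
      fun c => (cnt_split s v hD hR (c : ℤ)).symm
    simp only [h2]
    rw [Finset.sum_add_distrib, Finset.sum_sub_distrib, ← Finset.sum_mul, sum_cnt s v hD]
    unfold EE
    rw [sum_range_mul hD (fun c : ℕ => cnt s v (D * R) (c : ℤ) *
      Real.log (cnt s v (D * R) (c : ℤ)))]
    have h3 : Real.log ((D * R : ℕ) : ℝ) = Real.log D + Real.log R := by
      push_cast
      exact Real.log_mul hDR.ne' hRr.ne'
    rw [h3]
    push_cast
    ring
  rw [h1, Finset.mul_sum]
  unfold Gam Fib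
  refine Finset.sum_le_sum fun c _ => ?_
  exact FR_entropy hR (f := fun a => cnt s v (D * R) ((c : ℤ) + D * a))
    fun a _ => cnt_nonneg s v _ _

theorem EE_mono {ι : Type*} (s : Finset ι) (v : ι → ℤ) {D N : ℕ} (hN : 0 < N) (h : D ∣ N) :
    EE s v D ≤ EE s v N := by
  obtain ⟨R, rfl⟩ := h
  have hD : 0 < D := Nat.pos_of_ne_zero (by rintro rfl; simp at hN)
  have hR : 1 ≤ R := Nat.pos_of_ne_zero (by rintro rfl; simp at hN)
  have h1 := EE_step s v hD hR
  have h2 := Gam_nonneg s v D R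
  have hRr : (0 : ℝ) < 4 * R := by
    have : (0 : ℝ) < R := by exact_mod_cast hR
    linarith
  have h3 : 0 ≤ 4 * (R : ℝ) * (EE s v (D * R) - EE s v D) := h2.trans h1
  have h4 : 0 ≤ EE s v (D * R) - EE s v D := nonneg_of_mul_nonneg_right h3 hRr
  linarith

theorem gg_nonneg (k D R : ℕ) : 0 ≤ gg d m r k D R :=
  div_nonneg (Finset.sum_nonneg fun M _ => Gam_nonneg _ _ _ _) (by positivity)

theorem gg_le (h : 1 ≤ d) (k : ℕ) {D R : ℕ} (hD : 0 < D) (hR : 1 ≤ R) :
    gg d m r k D R ≤ R - 1 := by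
  have hd : (0 : ℝ) < (d : ℝ) ^ k := by
    have : (0 : ℝ) < d := by exact_mod_cast h
    positivity
  unfold gg
  rw [div_le_iff₀ hd, ← sum_card_gr (d := d) (m := m) k, Finset.mul_sum]
  exact Finset.sum_le_sum fun M _ => Gam_le _ _ hD hR

theorem gg_le_ED (h : 1 ≤ d) (b : ℕ) {D R : ℕ} (hD : 0 < D) (hR : 1 ≤ R) :
    gg d m r b D R ≤ 4 * R * (ED d m r b (D * R) - ED d m r b D) := by
  have hd : (0 : ℝ) < (d : ℝ) ^ b := by
    have : (0 : ℝ) < d := by exact_mod_cast h
    positivity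
  unfold gg ED
  rw [← sub_div, ← Finset.sum_sub_distrib, ← mul_div_assoc, Finset.mul_sum]
  exact div_le_div_of_nonneg_right (Finset.sum_le_sum fun M _ => EE_step _ _ hD hR) hd.le

theorem ED_mono (b : ℕ) {D N : ℕ} (hN : 0 < N) (h : D ∣ N) : ED d m r b D ≤ ED d m r b N := by
  unfold ED
  exact div_le_div_of_nonneg_right (Finset.sum_le_sum fun M _ => EE_mono _ _ hN h) (by positivity)

end Pool.Agent.H319R3.GC
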