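import Pool.Agent.H319R3.GC.W1
import Pool.Agent.H319R3.GC.E1

/-! Task A1: averaging over the length of the suffix. -/

set_option autoImplicit false

namespace Pool.Agent.H319R3.GC

open Finset

variable {d : ℕ} {m r : ℕ → ℤ}

/-- the averaging argument for two sequences -/
theorem avg_seq {W : ℕ} (hW : 1 ≤ W) (A B : ℕ → ℝ) {p U L : ℝ} (hp : 0 < p) (hp1 : p ≤ 1)
    (hX : ∀ j ≤ W, A j ≤ B j) (hstep : ∀ j < W, B (j + 1) ≤ p * A j + (1 - p) * B j)
    (hB : B 0 ≤ U) (hA : L ≤ A W) :
    ∃ j, 1 ≤ j ∧ j ≤ W ∧ B j - A j ≤ (U - L) / (p * W) := by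
  have hW0 : (0 : ℝ) < W := by exact_mod_cast hW
  have h1 : ∑ j ∈ range W, (B (j + 1) - A (j + 1)) ≤
      (1 - p) * ∑ j ∈ range W, (B j - A j) + (A 0 - A W) := by
    rw [mul_sum, ← sum_range_sub' A W, ← sum_add_distrib]
    apply sum_le_sum
    intro j hj
    have := hstep j (mem_range.1 hj)
    linarith
  have h2 : ∑ j ∈ range W, (B (j + 1) - A (j + 1)) + (B 0 - A 0) =
      ∑ j ∈ range W, (B j - A j) + (B W - A W) := by
    rw [← sum_range_succ (fun j => B j - A j), ← sum_range_succ' (fun j => B j - A j)]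
  have h3 := hX 0 (Nat.zero_le _)
  have h4 := hX W le_rfl
  set S := ∑ j ∈ range W, (B (j + 1) - A (j + 1)) with hS
  have h5 : p * S ≤ U - L := by
    have h6 : ∑ j ∈ range W, (B j - A j) = S + (B 0 - A 0) - (B W - A W) := by linarith
    rw [h6] at h1
    have h7 : 0 ≤ (1 - p) * (B W - A W) := mul_nonneg (by linarith) (by linarith)
    have h8 : 0 ≤ p * (B 0 - A 0) := mul_nonneg hp.le (by linarith)
    nlinarith
  have h6 : S ≤ ∑ _j ∈ range W, (U - L) / (p * W) := by
    rw [sum_const, card_range, nsmul_eq_mul]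
    have : (W : ℝ) * ((U - L) / (p * W)) = (U - L) / p := by field_simp
    rw [this, le_div_iff₀ hp]
    linarith
  obtain ⟨j, hj, h7⟩ := exists_le_of_sum_le (nonempty_range_iff.2 (by omega)) h6
  exact ⟨j + 1, by omega, mem_range.1 hj, h7⟩

theorem avg (h : Adm d m r) (b : ℕ) {D R W : ℕ} (hW : 1 ≤ W) (hR : 1 ≤ R) (hRP : R ∣ PP d m)
    (hD0 : 0 < D) (hD : PP d m ^ (W * d) ∣ D) :
    ∃ j, 1 ≤ j ∧ j ≤ W ∧
      (∑ w ∈ LW d (j * d), gg d m r b (D / (Mw m w).natAbs) R) / (d : ℝ) ^ (j * d)
        ≤ 4 * R * (d : ℝ) ^ d * (ED d m r b (D * R) - ED d m r b 1) / W := by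
  classical
  have hd : 2 ≤ d := h.two_le
  have hd0 : (0 : ℝ) < d := by exact_mod_cast (by omega : 0 < d)
  -- divisibility
  have hdvd : ∀ j ≤ W, ∀ w ∈ LW d (j * d), (Mw m w).natAbs ∣ D := by
    intro j hj w hw
    refine (natAbs_Mw_dvd hw).trans ((pow_dvd_pow _ ?_).trans hD)
    exact Nat.mul_le_mul_right d hj
  have hpos : ∀ w : List ℕ, (∀ i ∈ w, i < d) → 0 < (Mw m w).natAbs := fun w hw =>
    Int.natAbs_pos.2 (Mw_ne_zero h hw)
  have hquot : ∀ j ≤ W, ∀ w ∈ LW d (j * d), 0 < D / (Mw m w).natAbs := by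
    intro j hj w hw
    exact Nat.div_pos (Nat.le_of_dvd hD0 (hdvd j hj w hw)) (hpos w (mem_LW.1 hw).2)
  set A : ℕ → ℝ := fun j => (∑ w ∈ LW d (j * d), ED d m r b (D / (Mw m w).natAbs)) /
    (d : ℝ) ^ (j * d) with hAdef
  set B : ℕ → ℝ := fun j => (∑ w ∈ LW d (j * d), ED d m r b (D / (Mw m w).natAbs * R)) /
    (d : ℝ) ^ (j * d) with hBdef
  have hdd : (1 : ℝ) ≤ (d : ℝ) ^ d := one_le_pow₀ (by exact_mod_cast (by omega : 1 ≤ d))
  have hdd0 : (0 : ℝ) < (d : ℝ) ^ d := by positivity
  have hLWne : (LW d (W * d)).Nonempty := by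
    rw [← card_pos, card_LW]; positivity
  obtain ⟨j, hj1, hjW, hj⟩ := avg_seq hW A B (p := 1 / (d : ℝ) ^ d)
    (U := ED d m r b (D * R)) (L := ED d m r b 1) (by positivity)
    (by rw [div_le_one hdd0]; exact hdd)
    (by
      intro j hj
      apply div_le_div_of_nonneg_right _ (by positivity)
      apply sum_le_sum
      intro w hw
      exact ED_mono b (Nat.mul_pos (hquot j hj w hw) hR) (dvd_mul_right _ _))
    (by
      intro j hj
      have e1 : (j + 1) * d = j * d + d := by ring
      have e2 : ∑ w ∈ LW d ((j + 1) * d), ED d m r b (D / (Mw m w).natAbs * R) ≤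
          ∑ u ∈ LW d (j * d), (ED d m r b (D / (Mw m u).natAbs) +
            ((d : ℝ) ^ d - 1) * ED d m r b (D / (Mw m u).natAbs * R)) := by
        rw [e1, sum_LW_add]
        apply sum_le_sum
        intro u hu
        have hu0 := hquot j hj.le u hu
        rw [← add_sum_erase (LW d d) _ (range_mem (d := d))]
        apply add_le_add
        · -- the word containing every letter once
          apply ED_mono b hu0
          rw [Mw_append, Int.natAbs_mul, Mw_range, ← Nat.div_div_eq_div_mul]
          have h2 : PP d m ∣ D / (Mw m u).natAbs := by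
            have h3 : (Mw m u).natAbs * PP d m ∣ D := by
              refine (mul_dvd_mul_right (natAbs_Mw_dvd hu) _).trans ?_
              rw [← pow_succ]
              refine (pow_dvd_pow _ ?_).trans hD
              have : (j + 1) * d ≤ W * d := Nat.mul_le_mul_right d hj
              have h4 : (j + 1) * d = j * d + d := by ring
              omega
            obtain ⟨c, hc⟩ := h3
            rw [hc, mul_assoc, Nat.mul_div_cancel_left _ (hpos u (mem_LW.1 hu).2)]
            exact dvd_mul_right _ _
          calc D / (Mw m u).natAbs / PP d m * R ∣ D / (Mw m u).natAbs / PP d m * PP d m :=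
                mul_dvd_mul_left _ hRP
            _ = D / (Mw m u).natAbs := Nat.div_mul_cancel h2
        · calc ∑ v ∈ (LW d d).erase (List.range d), ED d m r b (D / (Mw m (u ++ v)).natAbs * R)
              ≤ ∑ _v ∈ (LW d d).erase (List.range d), ED d m r b (D / (Mw m u).natAbs * R) := by
                apply sum_le_sum
                intro v hv
                have hv' := mem_of_mem_erase hv
                apply ED_mono b (Nat.mul_pos hu0 hR)
                apply mul_dvd_mul_right
                rw [Mw_append, Int.natAbs_mul, ← Nat.div_div_eq_div_mul]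
                apply Nat.div_dvd_of_dvd
                have h3 : (Mw m u).natAbs * (Mw m v).natAbs ∣ D := by
                  refine (mul_dvd_mul (natAbs_Mw_dvd hu) (natAbs_Mw_dvd hv')).trans ?_
                  rw [← pow_add]
                  refine (pow_dvd_pow _ ?_).trans hD
                  have : (j + 1) * d ≤ W * d := Nat.mul_le_mul_right d hj
                  have h4 : (j + 1) * d = j * d + d := by ring
                  omega
                obtain ⟨c, hc⟩ := h3
                rw [hc, mul_assoc, Nat.mul_div_cancel_left _ (hpos u (mem_LW.1 hu).2)]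
                exact dvd_mul_right _ _
            _ = ((d : ℝ) ^ d - 1) * ED d m r b (D / (Mw m u).natAbs * R) := by
                rw [sum_const, card_erase_of_mem (range_mem (d := d)), card_LW, nsmul_eq_mul]
                rw [Nat.cast_sub (Nat.one_le_pow _ _ (by omega))]
                push_cast
                rfl
      simp only [hAdef, hBdef]
      have e3 : (d : ℝ) ^ ((j + 1) * d) = (d : ℝ) ^ (j * d) * (d : ℝ) ^ d := by
        rw [← pow_add]; congr 1
      rw [sum_add_distrib, ← mul_sum] at e2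
      have hjd : (0 : ℝ) < (d : ℝ) ^ (j * d) := by positivity
      rw [e3, div_le_iff₀ (by positivity)]
      refine e2.trans (le_of_eq ?_)
      field_simp)
    (by simp [hBdef, LW, Mw])
    (by
      simp only [hAdef]
      rw [le_div_iff₀ (by positivity)]
      have h1 : ∑ _w ∈ LW d (W * d), ED d m r b 1 = ED d m r b 1 * (d : ℝ) ^ (W * d) := by
        rw [sum_const, card_LW, nsmul_eq_mul]; push_cast; ring
      rw [← h1]
      apply sum_le_sum
      intro w hw
      exact ED_mono b (hquot W le_rfl w hw) (one_dvd _))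
  refine ⟨j, hj1, hjW, ?_⟩
  have hR0 : (0 : ℝ) < R := by exact_mod_cast hR
  calc (∑ w ∈ LW d (j * d), gg d m r b (D / (Mw m w).natAbs) R) / (d : ℝ) ^ (j * d)
      ≤ (∑ w ∈ LW d (j * d), 4 * R * (ED d m r b (D / (Mw m w).natAbs * R) -
          ED d m r b (D / (Mw m w).natAbs))) / (d : ℝ) ^ (j * d) := by
        apply div_le_div_of_nonneg_right _ (by positivity)
        apply sum_le_sum
        intro w hw
        exact gg_le_ED (by omega) b (hquot j hjW w hw) hR
    _ = 4 * R * (B j - A j) := by
        simp only [hAdef, hBdef]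
        rw [← mul_sum, sum_sub_distrib]
        ring
    _ ≤ 4 * R * ((ED d m r b (D * R) - ED d m r b 1) / (1 / (d : ℝ) ^ d * W)) :=
        mul_le_mul_of_nonneg_left hj (by positivity)
    _ = 4 * R * (d : ℝ) ^ d * (ED d m r b (D * R) - ED d m r b 1) / W := by
        have hW0 : (0 : ℝ) < W := by exact_mod_cast hW
        field_simp

end Pool.Agent.H319R3.GC
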