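import Mathlib

/-! Arithmetic of the parameters in the induction step of the decay theorem. -/

set_option autoImplicit false

namespace Pool.Agent.H319R3.GC

theorem arith {κ δ' e B J t i₁ i₂ : ℝ} (hκ : 0 < κ) (hκ1 : κ < 1) (hδ : 0 < δ') (hδ1 : δ' ≤ 1)
    (he : e = δ' * κ / 16) (hJ : 100 / (δ' * κ) ≤ J) (hB0 : 0 ≤ B)
    (hB : B ≤ ((1 + 2 * e) * J + 1) * (1 - κ) + 1 / 2)
    (h1 : B - e * B - 1 ≤ i₁) (h2 : B + e * B ≤ i₂) (h3 : i₂ ≤ B + e * B + 1) (ht0 : 0 ≤ t)
    (ht : t ≤ e * J) :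
    t + i₂ ≤ (1 - κ / 2) * J ∧ (1 + 2 * e) * J - i₁ ≤ (1 + δ') * (J - t - i₂) ∧
      ∀ k D : ℝ, 2 ≤ D → (1 - 2 * e) * D * J ≤ k → (1 - δ') * D * (J - t - i₂) ≤ k - D * B - t := by
  have hdk : 0 < δ' * κ := by positivity
  have hJ' : 100 ≤ J * (δ' * κ) := by rwa [div_le_iff₀ hdk] at hJ
  have hJ0 : 0 < J := by
    by_contra hneg
    push Not at hneg
    nlinarith
  have he0 : 0 < e := by rw [he]; positivity
  have he1 : e ≤ κ / 16 := by rw [he]; nlinarith
  have he2 : e ≤ δ' / 16 := by rw [he]; nlinarith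
  have heJ : 100 / 16 ≤ e * J := by rw [he]; nlinarith
  have hB1 : B ≤ (1 - 7 * κ / 8) * J + 3 / 2 := by
    have h4 : (1 + 2 * e) * (1 - κ) ≤ 1 - 7 * κ / 8 := by nlinarith
    nlinarith
  refine ⟨?_, ?_, ?_⟩
  · have hBe : e * B ≤ (κ / 16) * J + e * 2 := by nlinarith
    have h5 : 100 ≤ κ * J := by nlinarith
    nlinarith
  · -- (1+2e)J - B + eB + 1 ≤ (1+δ')(J - eJ - B - eB - 1)
    have h5 : (1 + 2 * e) * J - i₁ ≤ (1 + 2 * e) * J - B + e * B + 1 := by linarith
    have h6 : (1 + δ') * (J - e * J - (B + e * B + 1)) ≤ (1 + δ') * (J - t - i₂) :=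
      mul_le_mul_of_nonneg_left (by linarith) (by linarith)
    refine h5.trans (le_trans ?_ h6)
    -- difference
    have h7 : B * (δ' + 3 * e) ≤ ((1 - 7 * κ / 8) * J + 3 / 2) * (δ' + 3 * e) :=
      mul_le_mul_of_nonneg_right hB1 (by linarith)
    have h8 : (1 - 7 * κ / 8) * (δ' + 3 * e) ≤ δ' * (1 - 11 * κ / 16) := by
      rw [he]; nlinarith [mul_pos hdk hκ]
    have h9 : ((1 - 7 * κ / 8) * J + 3 / 2) * (δ' + 3 * e) ≤ δ' * (1 - 11 * κ / 16) * J + 3 := by
      have : (1 - 7 * κ / 8) * (δ' + 3 * e) * J ≤ δ' * (1 - 11 * κ / 16) * J :=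
        mul_le_mul_of_nonneg_right h8 hJ0.le
      nlinarith
    have h10 : δ' * e * J ≤ e * J := by
      have : 0 ≤ e * J := by positivity
      nlinarith
    have h11 : e * J = (δ' * κ) * J / 16 := by rw [he]; ring
    have h12 : δ' * e * B ≤ e * B := by
      have : 0 ≤ e * B := by positivity
      nlinarith
    nlinarith
  · intro k D hD hk
    have h5 : (1 - δ') * D * (J - t - i₂) ≤ (1 - δ') * D * (J - t - B) := by
      apply mul_le_mul_of_nonneg_left
      · nlinarith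
      · have : 0 ≤ 1 - δ' := by linarith
        positivity
    refine h5.trans ?_
    have h6 : (1 - δ') * D * (J - t - B) ≤ (1 - δ') * D * (J - B) := by
      apply mul_le_mul_of_nonneg_left
      · linarith
      · have : 0 ≤ 1 - δ' := by linarith
        positivity
    refine h6.trans ?_
    -- (1-δ') D (J-B) ≤ (1-2e) D J - D B - t
    have h7 : 2 * e * J + δ' * B + e * J ≤ δ' * J := by
      have h8 : δ' * B ≤ δ' * ((1 - 7 * κ / 8) * J + 3 / 2) := mul_le_mul_of_nonneg_left hB1 hδ.le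
      have h9 : e * J = (δ' * κ) * J / 16 := by rw [he]; ring
      nlinarith
    have h8 : t ≤ D * (e * J) := by nlinarith [mul_nonneg he0.le hJ0.le]
    have h9 : D * (2 * e * J + δ' * B + e * J) ≤ D * (δ' * J) :=
      mul_le_mul_of_nonneg_left h7 (by linarith)
    nlinarith

end Pool.Agent.H319R3.GC
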