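import Pool.Agent.H319R3.GC.Defs

/-! Size of the offsets: a moment bound (task M1). -/

set_option autoImplicit false

namespace Pool.Agent.H319R3.GC
open Finset

variable {d : ℕ} {m r : ℕ → ℤ}

private theorem sum_LW_succ' {M : Type*} [AddCommMonoid M] (k : ℕ) (f : List ℕ → M) :
    ∑ w ∈ LW d (k + 1), f w = ∑ i ∈ range d, ∑ w ∈ LW d k, f (i :: w) := by
  change ∑ w ∈ (range d).biUnion fun i => (LW d k).image (List.cons i), f w = _
  rw [Finset.sum_biUnion]
  · refine Finset.sum_congr rfl fun i _ => ?_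
    rw [Finset.sum_image]
    intro x _ y _ hxy
    exact (List.cons_inj_right i).1 hxy
  · intro i _ j _ hij
    change Disjoint _ _
    rw [Finset.disjoint_left]
    intro w hw hw'
    rw [Finset.mem_image] at hw hw'
    obtain ⟨u, _, rfl⟩ := hw
    obtain ⟨u', _, h⟩ := hw'
    exact hij (List.cons_eq_cons.1 h).1.symm

private theorem m_ne_zero (h : Adm d m r) {i : ℕ} (hi : i < d) : m i ≠ 0 := by
  intro h0
  have h1 := h.cop i hi
  rw [h0, isCoprime_zero_left] at h1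
  have h2 := h.two_le
  have h3 := Int.isUnit_iff.1 h1
  omega

private theorem exists_lam (h : Adm d m r) : ∃ lam : ℝ, 0 < lam ∧ lam ≤ 1 ∧
    ∑ i ∈ range d, |(m i : ℝ)| ^ lam < (d : ℝ) * (d : ℝ) ^ lam := by
  have hd : (0 : ℝ) < d := by have := h.two_le; positivity
  have hpos : ∀ i ∈ range d, 0 < |(m i : ℝ)| := by
    intro i hi
    rw [abs_pos]
    exact_mod_cast m_ne_zero h (mem_range.1 hi)
  -- derivative at zero
  let f : ℝ → ℝ := fun t => ∑ i ∈ range d, Real.exp (Real.log |(m i : ℝ)| * t)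
    - d * Real.exp (Real.log d * t)
  have hder : HasDerivAt f (∑ i ∈ range d, Real.log |(m i : ℝ)| - d * Real.log d) 0 := by
    have h1 : ∀ c : ℝ, HasDerivAt (fun t : ℝ => Real.exp (c * t)) c 0 := by
      intro c
      have h2 : HasDerivAt (fun t : ℝ => c * t) (c * 1) 0 := (hasDerivAt_id 0).const_mul c
      have h3 := h2.exp
      simpa using h3
    exact (HasDerivAt.fun_sum fun i _ => h1 _).sub ((h1 _).const_mul _)
  have hlog : ∑ i ∈ range d, Real.log |(m i : ℝ)| - d * Real.log d < 0 := by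
    have h1 : ∑ i ∈ range d, Real.log |(m i : ℝ)| = Real.log (PP d m : ℝ) := by
      rw [PP, Nat.cast_prod, Real.log_prod]
      · refine Finset.sum_congr rfl fun i _ => ?_
        rw [Nat.cast_natAbs, Int.cast_abs]
      · intro i hi
        rw [Nat.cast_natAbs, Int.cast_abs]
        exact (hpos i hi).ne'
    rw [h1, sub_neg, ← Real.log_pow]
    have h2 : (0 : ℝ) < PP d m := by have := h.big; positivity
    exact Real.log_lt_log h2 (by exact_mod_cast h.contr)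
  have hslope := hasDerivAt_iff_tendsto_slope.1 hder
  have hev : ∀ᶠ t in nhdsWithin (0 : ℝ) {0}ᶜ, slope f 0 t < 0 :=
    hslope.eventually (gt_mem_nhds hlog)
  have hev2 : ∀ᶠ t in nhdsWithin (0 : ℝ) (Set.Ioi 0), slope f 0 t < 0 :=
    hev.filter_mono (nhdsWithin_mono _ fun x hx => ne_of_gt hx)
  have hev3 : ∀ᶠ t in nhdsWithin (0 : ℝ) (Set.Ioi 0), t ∈ Set.Ioc (0 : ℝ) 1 :=
    Ioc_mem_nhdsGT one_pos
  obtain ⟨t, ht, ht0, ht1⟩ := (hev2.and hev3).exists
  refine ⟨t, ht0, ht1, ?_⟩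
  have hf0 : f 0 = 0 := by simp [f]
  rw [slope_def_field, hf0, sub_zero, sub_zero] at ht
  have hft : f t < 0 := by
    by_contra hc
    push Not at hc
    exact absurd ht (not_lt.2 (div_nonneg hc ht0.le))
  have h2 : ∑ i ∈ range d, |(m i : ℝ)| ^ t = ∑ i ∈ range d, Real.exp (Real.log |(m i : ℝ)| * t) :=
    Finset.sum_congr rfl fun i hi => Real.rpow_def_of_pos (hpos i hi) t
  rw [h2, Real.rpow_def_of_pos hd]
  have : f t = ∑ i ∈ range d, Real.exp (Real.log |(m i : ℝ)| * t)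
    - d * Real.exp (Real.log d * t) := rfl
  linarith

private theorem sum_Mw_rpow (lam : ℝ) (k : ℕ) :
    ∑ w ∈ LW d k, |(Mw m w : ℝ)| ^ lam = (∑ i ∈ range d, |(m i : ℝ)| ^ lam) ^ k := by
  induction k with
  | zero => simp [LW, Mw]
  | succ k ih =>
    rw [sum_LW_succ', pow_succ', Finset.sum_mul]
    refine Finset.sum_congr rfl fun i _ => ?_
    rw [← ih, Finset.mul_sum]
    refine Finset.sum_congr rfl fun w _ => ?_
    have : Mw m (i :: w) = m i * Mw m w := by simp [Mw]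
    rw [this, Int.cast_mul, abs_mul, Real.mul_rpow (abs_nonneg _) (abs_nonneg _)]

private theorem sum_Ww_rpow {lam : ℝ} (h0 : 0 < lam) (h1 : lam ≤ 1)
    (hS : ∑ i ∈ range d, |(m i : ℝ)| ^ lam < (d : ℝ) * (d : ℝ) ^ lam) (k : ℕ) :
    ∑ w ∈ LW d k, |(Ww d m r w : ℝ)| ^ lam ≤
      (∑ i ∈ range d, |(r i : ℝ)| ^ lam) *
        (((d : ℝ) * (d : ℝ) ^ lam) ^ k - (∑ i ∈ range d, |(m i : ℝ)| ^ lam) ^ k) /
        ((d : ℝ) * (d : ℝ) ^ lam - ∑ i ∈ range d, |(m i : ℝ)| ^ lam) := by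
  set S := ∑ i ∈ range d, |(m i : ℝ)| ^ lam with hSdef
  set D := (d : ℝ) * (d : ℝ) ^ lam with hD
  set A := ∑ i ∈ range d, |(r i : ℝ)| ^ lam with hA
  have hDS : 0 < D - S := sub_pos.2 hS
  induction k with
  | zero => simp [LW, Ww, Real.zero_rpow h0.ne']
  | succ k ih =>
    rw [sum_LW_succ']
    have hstep : ∑ i ∈ range d, ∑ w ∈ LW d k, |(Ww d m r (i :: w) : ℝ)| ^ lam ≤
        ∑ i ∈ range d, ∑ w ∈ LW d k,
          (|(r i : ℝ)| ^ lam * |(Mw m w : ℝ)| ^ lam + (d : ℝ) ^ lam * |(Ww d m r w : ℝ)| ^ lam) := by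
      refine Finset.sum_le_sum fun i _ => Finset.sum_le_sum fun w _ => ?_
      have e : (Ww d m r (i :: w) : ℝ) = r i * Mw m w + d * Ww d m r w := by
        simp [Ww]
      rw [e, ← Real.mul_rpow (abs_nonneg _) (abs_nonneg _), ← abs_mul,
        ← Real.mul_rpow (Nat.cast_nonneg d) (abs_nonneg _)]
      have e2 : (d : ℝ) * |(Ww d m r w : ℝ)| = |(d : ℝ) * Ww d m r w| := by
        rw [abs_mul, Nat.abs_cast]
      rw [e2]
      refine (Real.rpow_le_rpow (abs_nonneg _) (abs_add_le _ _) h0.le).trans ?_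
      exact Real.rpow_add_le_add_rpow (abs_nonneg _) (abs_nonneg _) h0.le h1
    refine hstep.trans ?_
    have e3 : ∑ i ∈ range d, ∑ w ∈ LW d k,
          (|(r i : ℝ)| ^ lam * |(Mw m w : ℝ)| ^ lam + (d : ℝ) ^ lam * |(Ww d m r w : ℝ)| ^ lam)
        = A * S ^ k + D * ∑ w ∈ LW d k, |(Ww d m r w : ℝ)| ^ lam := by
      rw [hSdef, ← sum_Mw_rpow (m := m) lam k, hA, Finset.sum_mul_sum]
      simp only [Finset.sum_add_distrib, Finset.sum_const, card_range, nsmul_eq_mul,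
        ← Finset.mul_sum]
      rw [hD, mul_assoc]
    rw [e3]
    have h2 : D * ∑ w ∈ LW d k, |(Ww d m r w : ℝ)| ^ lam ≤
        D * (A * (D ^ k - S ^ k) / (D - S)) := by
      apply mul_le_mul_of_nonneg_left ih
      positivity
    have e4 : A * S ^ k + D * (A * (D ^ k - S ^ k) / (D - S)) =
        A * (D ^ (k + 1) - S ^ (k + 1)) / (D - S) := by
      field_simp
      ring
    linarith

/-- few words have a large offset -/
theorem moment (h : Adm d m r) : ∃ lam C : ℝ, 0 < lam ∧ 0 < C ∧ ∀ b : ℕ,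
    (((LW d b).filter fun w => (d : ℝ) ^ b * Real.exp (√b) < |(Ww d m r w : ℝ)|).card : ℝ)
      ≤ C * (d : ℝ) ^ b * Real.exp (-(lam * √b)) := by
  obtain ⟨lam, h0, h1, hS⟩ := exists_lam h
  have hd : (0 : ℝ) < d := by have := h.two_le; positivity
  set S := ∑ i ∈ range d, |(m i : ℝ)| ^ lam with hSdef
  set D := (d : ℝ) * (d : ℝ) ^ lam with hD
  set A := ∑ i ∈ range d, |(r i : ℝ)| ^ lam with hA
  have hDS : 0 < D - S := sub_pos.2 hS
  have hA0 : 0 ≤ A := Finset.sum_nonneg fun i _ => Real.rpow_nonneg (abs_nonneg _) _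
  have hS0 : 0 ≤ S := Finset.sum_nonneg fun i _ => Real.rpow_nonneg (abs_nonneg _) _
  refine ⟨lam, A / (D - S) + 1, h0, by positivity, fun b => ?_⟩
  set F := (LW d b).filter fun w => (d : ℝ) ^ b * Real.exp (√b) < |(Ww d m r w : ℝ)| with hF
  have hL := sum_Ww_rpow (r := r) h0 h1 hS b
  rw [← hSdef, ← hD, ← hA] at hL
  set T := (d : ℝ) ^ b * Real.exp (√b) with hT
  have hT0 : 0 < T := by positivity
  -- Markov
  have hM : (F.card : ℝ) * T ^ lam ≤ ∑ w ∈ LW d b, |(Ww d m r w : ℝ)| ^ lam := by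
    calc (F.card : ℝ) * T ^ lam = ∑ w ∈ F, T ^ lam := by rw [Finset.sum_const, nsmul_eq_mul]
      _ ≤ ∑ w ∈ F, |(Ww d m r w : ℝ)| ^ lam := by
        refine Finset.sum_le_sum fun w hw => ?_
        exact Real.rpow_le_rpow hT0.le (Finset.mem_filter.1 hw).2.le h0.le
      _ ≤ _ := Finset.sum_le_sum_of_subset_of_nonneg (Finset.filter_subset _ _)
        fun w _ _ => Real.rpow_nonneg (abs_nonneg _) _
  have hTl : T ^ lam = ((d : ℝ) ^ lam) ^ b * Real.exp (lam * √b) := by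
    rw [hT, Real.mul_rpow (by positivity) (Real.exp_pos _).le, ← Real.rpow_natCast,
      ← Real.rpow_mul hd.le, mul_comm (b : ℝ) lam, Real.rpow_mul hd.le, Real.rpow_natCast,
      ← Real.exp_mul, mul_comm (√(b : ℝ)) lam]
  have hDb : D ^ b = (d : ℝ) ^ b * ((d : ℝ) ^ lam) ^ b := by rw [hD, mul_pow]
  have hbound : (F.card : ℝ) * T ^ lam ≤ (A / (D - S) + 1) * D ^ b := by
    refine (hM.trans hL).trans ?_
    rw [div_eq_mul_inv, div_eq_mul_inv]
    have hSb : 0 ≤ S ^ b := pow_nonneg hS0 _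
    have hDb0 : 0 ≤ D ^ b := by positivity
    have hinv : 0 ≤ (D - S)⁻¹ := (inv_pos.2 hDS).le
    have : A * (D ^ b - S ^ b) * (D - S)⁻¹ ≤ A * (D ^ b) * (D - S)⁻¹ := by
      apply mul_le_mul_of_nonneg_right _ hinv
      apply mul_le_mul_of_nonneg_left _ hA0
      linarith
    nlinarith
  have hq : 0 < ((d : ℝ) ^ lam) ^ b := by positivity
  have hfin : (F.card : ℝ) * Real.exp (lam * √b) ≤ (A / (D - S) + 1) * (d : ℝ) ^ b := by
    rw [hTl, hDb] at hbound
    have : ((F.card : ℝ) * Real.exp (lam * √b)) * ((d : ℝ) ^ lam) ^ b ≤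
      ((A / (D - S) + 1) * (d : ℝ) ^ b) * ((d : ℝ) ^ lam) ^ b := by linarith
    exact le_of_mul_le_mul_right this hq
  rw [Real.exp_neg, ← div_eq_mul_inv, le_div_iff₀ (Real.exp_pos _)]
  exact hfin

end Pool.Agent.H319R3.GC
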