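import Pool.Agent.H319R3.GC.Defs
import Pool.Agent.H319R3.GC.W1
import Pool.Agent.H319R3.GC.E1
import Pool.Agent.H319R3.GC.F2
import Pool.Agent.H319R3.GC.M1

/-! Entropy bound for the offsets of random words. -/

set_option autoImplicit false

namespace Pool.Agent.H319R3.GC

open Finset

variable {d : ℕ} {m r : ℕ → ℤ}

private theorem cnt_eq_card_E2 {ι : Type*} (s : Finset ι) (v : ι → ℤ) : cnt s v 1 0 = s.card := by
  unfold cnt
  congr 2
  apply Finset.filter_true_of_mem
  intro i _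
  simp

private theorem EE_one_E2 {ι : Type*} (s : Finset ι) (v : ι → ℤ) :
    EE s v 1 = s.card * Real.log s.card := by
  unfold EE
  simp [cnt_eq_card_E2]

/-- at most one good word in each class -/
private theorem cnt_le_bad_E2 (h : Adm d m r) {b : ℕ} {M : ℤ} {X : ℝ} {N : ℕ} (hN : 2 * X < N) (c : ℤ) :
    cnt (gr d m b M) (Ww d m r) N c ≤
      1 + cnt ((gr d m b M).filter fun w => X < |(Ww d m r w : ℝ)|) (Ww d m r) N c := by
  classical
  unfold cnt
  have h1 : ((gr d m b M).filter fun i => (N : ℤ) ∣ Ww d m r i - c) ⊆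
      ((gr d m b M).filter fun i => (N : ℤ) ∣ Ww d m r i - c ∧ |(Ww d m r i : ℝ)| ≤ X) ∪
      (((gr d m b M).filter fun w => X < |(Ww d m r w : ℝ)|).filter
        fun i => (N : ℤ) ∣ Ww d m r i - c) := by
    intro w hw
    rw [mem_filter] at hw
    rw [mem_union, mem_filter, mem_filter, mem_filter]
    by_cases hX : |(Ww d m r w : ℝ)| ≤ X
    · exact Or.inl ⟨hw.1, hw.2, hX⟩
    · exact Or.inr ⟨⟨hw.1, not_le.1 hX⟩, hw.2⟩
  have h2 : ((gr d m b M).filter fun i => (N : ℤ) ∣ Ww d m r i - c ∧ |(Ww d m r i : ℝ)| ≤ X).card ≤ 1 := by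
    rw [Finset.card_le_one]
    intro u hu v hv
    rw [mem_filter, mem_gr, mem_LW] at hu hv
    obtain ⟨⟨⟨hul, hud⟩, huM⟩, huN, huX⟩ := hu
    obtain ⟨⟨⟨hvl, hvd⟩, hvM⟩, hvN, hvX⟩ := hv
    apply Ww_inj h hud hvd (hul.trans hvl.symm) (huM.trans hvM.symm)
    have h3 : (N : ℤ) ∣ Ww d m r u - Ww d m r v := by
      have := dvd_sub huN hvN
      rwa [show Ww d m r u - c - (Ww d m r v - c) = Ww d m r u - Ww d m r v by ring] at this
    have h4 : |(Ww d m r u - Ww d m r v : ℤ)| < (N : ℤ) := by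
      have h5 : |((Ww d m r u : ℝ) - (Ww d m r v : ℝ))| < (N : ℝ) := by
        have := abs_sub (Ww d m r u : ℝ) (Ww d m r v : ℝ)
        linarith
      exact_mod_cast h5
    have h6 := Int.eq_zero_of_abs_lt_dvd h3 h4
    linarith
  have h3 := (card_le_card h1).trans (card_union_le _ _)
  have h4 : ((gr d m b M).filter fun i => (N : ℤ) ∣ Ww d m r i - c).card ≤
      1 + (((gr d m b M).filter fun w => X < |(Ww d m r w : ℝ)|).filter
        fun i => (N : ℤ) ∣ Ww d m r i - c).card := by omega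
  exact_mod_cast h4

private theorem gr_card_le_E2 (b : ℕ) (M : ℤ) : (gr d m b M).card ≤ d ^ b := by
  rw [← card_LW (d := d) b]
  exact card_le_card (filter_subset _ _)

private theorem cnt_log_le_E2 (h : Adm d m r) {b : ℕ} {M : ℤ} {X : ℝ} {N : ℕ} (hN : 2 * X < N)
    (c : ℤ) :
    cnt (gr d m b M) (Ww d m r) N c * Real.log (cnt (gr d m b M) (Ww d m r) N c) ≤
      cnt ((gr d m b M).filter fun w => X < |(Ww d m r w : ℝ)|) (Ww d m r) N c *
        (2 * (b * Real.log d)) := by
  have h1 := cnt_le_bad_E2 h (b := b) (M := M) hN c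
  have hd : (1 : ℝ) < d := by exact_mod_cast h.two_le
  have hlog : 0 < Real.log d := Real.log_pos hd
  have hb0 : (0 : ℝ) ≤ 2 * (b * Real.log d) := by positivity
  set bad := cnt ((gr d m b M).filter fun w => X < |(Ww d m r w : ℝ)|) (Ww d m r) N c with hbad
  have hbad0 : 0 ≤ bad := cnt_nonneg _ _ _ _
  obtain ⟨n, hn⟩ : ∃ n : ℕ, cnt (gr d m b M) (Ww d m r) N c = n := ⟨_, rfl⟩
  obtain ⟨n', hn'⟩ : ∃ n : ℕ, bad = n := ⟨_, rfl⟩
  rcases Nat.lt_or_ge n 2 with h2 | h2
  · have : cnt (gr d m b M) (Ww d m r) N c * Real.log (cnt (gr d m b M) (Ww d m r) N c) = 0 := by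
      rw [hn]
      interval_cases n <;> simp
    rw [this]
    positivity
  · have h3 : Real.log (cnt (gr d m b M) (Ww d m r) N c) ≤ b * Real.log d := by
      rw [← Real.log_pow]
      apply Real.log_le_log
      · rw [hn]; exact_mod_cast (by omega : 0 < n)
      · calc cnt (gr d m b M) (Ww d m r) N c ≤ ((gr d m b M).card : ℝ) := cnt_le _ _ _ _
          _ ≤ (d : ℝ) ^ b := by exact_mod_cast gr_card_le_E2 b M
    have h4 : cnt (gr d m b M) (Ww d m r) N c ≤ 2 * bad := by
      rw [hn, hn'] at h1 ⊢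
      have h5 : n ≤ 1 + n' := by exact_mod_cast h1
      have h6 : n ≤ 2 * n' := by omega
      exact_mod_cast h6
    have h0 : 0 ≤ cnt (gr d m b M) (Ww d m r) N c := cnt_nonneg _ _ _ _
    have hb1 : (0 : ℝ) ≤ b * Real.log d := by positivity
    calc cnt (gr d m b M) (Ww d m r) N c * Real.log (cnt (gr d m b M) (Ww d m r) N c)
        ≤ cnt (gr d m b M) (Ww d m r) N c * (b * Real.log d) := mul_le_mul_of_nonneg_left h3 h0
      _ ≤ (2 * bad) * (b * Real.log d) := mul_le_mul_of_nonneg_right h4 hb1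
      _ = bad * (2 * (b * Real.log d)) := by ring

private theorem EE_le_E2 (h : Adm d m r) {b : ℕ} {M : ℤ} {X : ℝ} {N : ℕ} (hN0 : 0 < N)
    (hN : 2 * X < N) :
    EE (gr d m b M) (Ww d m r) N - EE (gr d m b M) (Ww d m r) 1 ≤
      (((gr d m b M).filter fun w => X < |(Ww d m r w : ℝ)|).card : ℝ) * (2 * (b * Real.log d))
      + (gr d m b M).card * Real.log N - (gr d m b M).card * Real.log (gr d m b M).card := by
  rw [EE_one_E2]
  unfold EE
  have h1 : ∑ c ∈ range N, cnt (gr d m b M) (Ww d m r) N (c : ℤ) *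
      Real.log (cnt (gr d m b M) (Ww d m r) N (c : ℤ)) ≤
      (((gr d m b M).filter fun w => X < |(Ww d m r w : ℝ)|).card : ℝ) * (2 * (b * Real.log d)) := by
    rw [← sum_cnt ((gr d m b M).filter fun w => X < |(Ww d m r w : ℝ)|) (Ww d m r) hN0, sum_mul]
    exact sum_le_sum fun c _ => cnt_log_le_E2 h hN c
  linarith

/-- entropy of a partition of `T` into `K` parts -/
private theorem entropy_le_E2 {κ : Type*} (s : Finset κ) (q : κ → ℝ) (hq : ∀ i ∈ s, 0 ≤ q i) {T : ℝ}
    (hT : 0 < T) (hs : ∑ i ∈ s, q i = T) :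
    T * Real.log T - ∑ i ∈ s, q i * Real.log (q i) ≤ T * Real.log s.card := by
  have hne : s.Nonempty := by
    rcases s.eq_empty_or_nonempty with h | h
    · rw [h] at hs; simp at hs; linarith
    · exact h
  have hK : (0 : ℝ) < s.card := by exact_mod_cast hne.card_pos
  -- termwise: q (log T - log q - log K) ≤ T / K - q
  have h1 : ∀ i ∈ s, q i * Real.log T - q i * Real.log (q i) - q i * Real.log s.card
      ≤ T / s.card - q i := by
    intro i hi
    rcases (hq i hi).lt_or_eq with h0 | h0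
    · have h2 : Real.log (T / (q i * s.card)) ≤ T / (q i * s.card) - 1 :=
        Real.log_le_sub_one_of_pos (by positivity)
      rw [Real.log_div hT.ne' (by positivity), Real.log_mul h0.ne' hK.ne'] at h2
      have h3 := mul_le_mul_of_nonneg_left h2 h0.le
      have h4 : q i * (T / (q i * s.card) - 1) = T / s.card - q i := by
        field_simp
      rw [h4] at h3
      linarith
    · rw [← h0]
      simp
      positivity
  have h2 := sum_le_sum h1
  rw [sum_sub_distrib, sum_sub_distrib, sum_sub_distrib, ← sum_mul, ← sum_mul, hs] at h2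
  have h3 : ∑ i ∈ s, T / (s.card : ℝ) = T := by
    rw [sum_const, nsmul_eq_mul]
    field_simp
  rw [h3] at h2
  linarith

theorem ED_bound (h : Adm d m r) : ∃ C : ℝ, 0 < C ∧ ∀ b N : ℕ, 1 ≤ b → 1 ≤ N → N ≤ d ^ b →
    ED d m r b N - ED d m r b 1 ≤ C * √b := by
  classical
  obtain ⟨lam, C0, hlam, hC0, hmom⟩ := moment h
  have hd : (1 : ℝ) < d := by exact_mod_cast h.two_le
  have hd0 : (0 : ℝ) < d := by linarith
  have hlog : 0 < Real.log d := Real.log_pos hd
  refine ⟨4 * Real.log d * C0 / lam ^ 2 + 3 + 2 * d, by positivity, ?_⟩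
  intro b N hb hN1 hNd
  have hb1 : (1 : ℝ) ≤ b := by exact_mod_cast hb
  have hsb : 1 ≤ √(b : ℝ) := by rw [Real.one_le_sqrt]; exact hb1
  have hT : (0 : ℝ) < (d : ℝ) ^ b := by positivity
  set X : ℝ := (d : ℝ) ^ b * Real.exp (√b) with hX
  have hX1 : (d : ℝ) ^ b ≤ X := by
    rw [hX]
    exact le_mul_of_one_le_right hT.le (Real.one_le_exp (Real.sqrt_nonneg _))
  have hX0 : 0 < X := by positivity
  have hNr : (0 : ℝ) < N := by exact_mod_cast hN1
  have hNd' : (N : ℝ) ≤ (d : ℝ) ^ b := by exact_mod_cast hNd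
  set L : ℕ := ⌊2 * X / N⌋₊ + 1 with hL
  have hL1 : 2 * X / N < L := by rw [hL]; push_cast; exact Nat.lt_floor_add_one _
  have hL2 : (L : ℝ) ≤ 2 * X / N + 1 := by
    rw [hL]; push_cast
    have := Nat.floor_le (show 0 ≤ 2 * X / N by positivity)
    linarith
  have hN2 : 2 * X < ((N * L : ℕ) : ℝ) := by
    rw [div_lt_iff₀ hNr] at hL1
    push_cast
    linarith [mul_comm (N : ℝ) L]
  have hN3 : ((N * L : ℕ) : ℝ) ≤ 3 * X := by
    push_cast
    calc (N : ℝ) * L ≤ N * (2 * X / N + 1) := mul_le_mul_of_nonneg_left hL2 hNr.le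
      _ = 2 * X + N := by field_simp
      _ ≤ 3 * X := by linarith
  have hNL : 0 < N * L := Nat.mul_pos hN1 (Nat.succ_pos _)
  have hmono : ED d m r b N ≤ ED d m r b (N * L) := ED_mono b hNL ⟨L, rfl⟩
  -- main estimate
  have hsumc := sum_card_gr (d := d) (m := m) b
  have hbadsum : ∑ M ∈ Ms d m b, (((gr d m b M).filter fun w => X < |(Ww d m r w : ℝ)|).card : ℝ)
      = (((LW d b).filter fun w => X < |(Ww d m r w : ℝ)|).card : ℝ) := by
    have h1 := sum_gr (d := d) (m := m) b (fun w => if X < |(Ww d m r w : ℝ)| then (1 : ℝ) else 0)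
    simp only [← Finset.sum_filter] at h1
    simpa using h1
  have h1 : ED d m r b (N * L) - ED d m r b 1 ≤
      ((((LW d b).filter fun w => X < |(Ww d m r w : ℝ)|).card : ℝ) * (2 * (b * Real.log d))
        + (d : ℝ) ^ b * Real.log ((N * L : ℕ) : ℝ)
        - ∑ M ∈ Ms d m b, ((gr d m b M).card : ℝ) * Real.log ((gr d m b M).card : ℝ)) /
        (d : ℝ) ^ b := by
    unfold ED
    rw [← sub_div]
    apply div_le_div_of_nonneg_right _ hT.le
    rw [← sum_sub_distrib]
    calc ∑ M ∈ Ms d m b, (EE (gr d m b M) (Ww d m r) (N * L) - EE (gr d m b M) (Ww d m r) 1)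
        ≤ ∑ M ∈ Ms d m b, ((((gr d m b M).filter fun w => X < |(Ww d m r w : ℝ)|).card : ℝ) *
            (2 * (b * Real.log d)) + (gr d m b M).card * Real.log ((N * L : ℕ) : ℝ)
            - (gr d m b M).card * Real.log (gr d m b M).card) :=
          sum_le_sum fun M _ => EE_le_E2 h hNL hN2
      _ = _ := by
          rw [sum_sub_distrib, sum_add_distrib, ← sum_mul, ← sum_mul, hbadsum, hsumc]
  have h2 := entropy_le_E2 (Ms d m b) (fun M => ((gr d m b M).card : ℝ)) (fun _ _ => by positivity)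
    hT hsumc
  have h3 : Real.log ((Ms d m b).card : ℝ) ≤ d * (2 * √b) := by
    have h4 : ((Ms d m b).card : ℝ) ≤ ((b : ℝ) + 1) ^ d := by exact_mod_cast card_Ms (d := d) (m := m) b
    have h5 : (0 : ℝ) ≤ d * (2 * √b) := by positivity
    rcases Nat.eq_zero_or_pos (Ms d m b).card with h0 | h0
    · rw [h0]; simpa using h5
    · calc Real.log ((Ms d m b).card : ℝ) ≤ Real.log (((b : ℝ) + 1) ^ d) :=
            Real.log_le_log (by exact_mod_cast h0) h4
        _ = d * Real.log ((b : ℝ) + 1) := Real.log_pow _ _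
        _ ≤ d * (2 * √b) := by
            apply mul_le_mul_of_nonneg_left _ hd0.le
            calc Real.log ((b : ℝ) + 1) ≤ Real.log ((1 + √b) ^ 2) := by
                  apply Real.log_le_log (by positivity)
                  have := Real.sq_sqrt (show (0 : ℝ) ≤ b by positivity)
                  nlinarith [Real.sqrt_nonneg (b : ℝ)]
              _ = 2 * Real.log (1 + √b) := by rw [Real.log_pow]; norm_num
              _ ≤ 2 * √b := by
                  have := Real.log_le_sub_one_of_pos (show 0 < 1 + √(b : ℝ) by positivity)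
                  linarith
  have h4 : Real.log ((N * L : ℕ) : ℝ) ≤ 2 * √b + b * Real.log d + √b := by
    calc Real.log ((N * L : ℕ) : ℝ) ≤ Real.log (3 * X) :=
          Real.log_le_log (by exact_mod_cast hNL) hN3
      _ = Real.log 3 + (b * Real.log d + √b) := by
          rw [Real.log_mul (by norm_num) hX0.ne', hX, Real.log_mul hT.ne' (Real.exp_pos _).ne',
            Real.log_exp, Real.log_pow]
      _ ≤ _ := by
          have : Real.log 3 ≤ 3 - 1 := Real.log_le_sub_one_of_pos (by norm_num)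
          linarith
  have h5 := hmom b
  rw [← hX] at h5
  have h6 : (b : ℝ) * Real.exp (-(lam * √b)) ≤ 2 / lam ^ 2 := by
    have h7 : (lam * √b) ^ 2 / 2 ≤ Real.exp (lam * √b) := by
      have := Real.quadratic_le_exp_of_nonneg (show 0 ≤ lam * √(b : ℝ) by positivity)
      have h8 : 0 ≤ lam * √(b : ℝ) := by positivity
      linarith
    rw [Real.exp_neg, ← div_eq_mul_inv, div_le_div_iff₀ (Real.exp_pos _) (by positivity)]
    have := Real.sq_sqrt (show (0 : ℝ) ≤ b by positivity)
    nlinarith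
  have h7 : (((LW d b).filter fun w => X < |(Ww d m r w : ℝ)|).card : ℝ) * (2 * (b * Real.log d))
      ≤ (d : ℝ) ^ b * (4 * Real.log d * C0 / lam ^ 2 * √b) := by
    calc (((LW d b).filter fun w => X < |(Ww d m r w : ℝ)|).card : ℝ) * (2 * (b * Real.log d))
        ≤ (C0 * (d : ℝ) ^ b * Real.exp (-(lam * √b))) * (2 * (b * Real.log d)) :=
          mul_le_mul_of_nonneg_right h5 (by positivity)
      _ = (d : ℝ) ^ b * (2 * C0 * Real.log d) * (b * Real.exp (-(lam * √b))) := by ring
      _ ≤ (d : ℝ) ^ b * (2 * C0 * Real.log d) * (2 / lam ^ 2) :=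
          mul_le_mul_of_nonneg_left h6 (by positivity)
      _ = (d : ℝ) ^ b * (4 * Real.log d * C0 / lam ^ 2) := by ring
      _ ≤ (d : ℝ) ^ b * (4 * Real.log d * C0 / lam ^ 2 * √b) := by
          apply mul_le_mul_of_nonneg_left _ hT.le
          exact le_mul_of_one_le_right (by positivity) hsb
  have h8 : (d : ℝ) ^ b * Real.log ((N * L : ℕ) : ℝ) ≤ (d : ℝ) ^ b * (2 * √b + b * Real.log d + √b) :=
    mul_le_mul_of_nonneg_left h4 hT.le
  have h9 : (d : ℝ) ^ b * Real.log (Ms d m b).card ≤ (d : ℝ) ^ b * (d * (2 * √b)) :=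
    mul_le_mul_of_nonneg_left h3 hT.le
  have h10 : Real.log ((d : ℝ) ^ b) = b * Real.log d := Real.log_pow _ _
  rw [h10] at h2
  have h11 : ((((LW d b).filter fun w => X < |(Ww d m r w : ℝ)|).card : ℝ) * (2 * (b * Real.log d))
        + (d : ℝ) ^ b * Real.log ((N * L : ℕ) : ℝ)
        - ∑ M ∈ Ms d m b, ((gr d m b M).card : ℝ) * Real.log ((gr d m b M).card : ℝ)) /
        (d : ℝ) ^ b ≤ (4 * Real.log d * C0 / lam ^ 2 + 3 + 2 * d) * √b := by
    rw [div_le_iff₀ hT]
    calc _ ≤ (d : ℝ) ^ b * (4 * Real.log d * C0 / lam ^ 2 * √b)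
          + (d : ℝ) ^ b * (2 * √b + b * Real.log d + √b)
          + ((d : ℝ) ^ b * (d * (2 * √b)) - (d : ℝ) ^ b * (b * Real.log d)) := by linarith
      _ = _ := by ring
  linarith

end Pool.Agent.H319R3.GC
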