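import Pool.Agent.H319R3.GC.W1
import Pool.Agent.H319R3.GC.E1
import Pool.Agent.H319R3.GC.A1
import Pool.Agent.H319R3.GC.E2
import Pool.Agent.H319R3.GC.M2
import Pool.Agent.H319R3.GC.Split
import Pool.Agent.H319R3.GC.D1a

/-! Superpolynomial decay of the nonuniformity of the digits, by induction on the exponent. -/

set_option autoImplicit false

namespace Pool.Agent.H319R3.GC

open Finset

variable {d : ℕ} {m r : ℕ → ℤ}

theorem PP_cop (h : Adm d m r) : Nat.Coprime (PP d m) d := by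
  unfold PP
  apply Nat.Coprime.prod_left
  intro i hi
  have := h.cop i (mem_range.1 hi)
  rw [Int.isCoprime_iff_gcd_eq_one] at this
  simpa [Int.gcd, Nat.Coprime] using this

theorem exp_sqrt_bound (q : ℕ) {c : ℝ} (hc : 0 < c) : ∃ C : ℝ, 0 < C ∧ ∀ j : ℝ, 1 ≤ j →
    Real.exp (-(c * j)) ≤ C / (√j) ^ q := by
  refine ⟨(q.factorial : ℝ) / c ^ q, by positivity, ?_⟩
  intro j hj
  have hj0 : 0 < j := by linarith
  have h1 := Real.pow_div_factorial_le_exp (c * j) (by positivity) q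
  rw [Real.exp_neg, inv_eq_one_div, div_le_div_iff₀ (Real.exp_pos _) (by positivity), one_mul]
  have h2 : √j ≤ j := by
    rw [Real.sqrt_le_left hj0.le]
    nlinarith
  have h3 : (√j) ^ q ≤ j ^ q := by gcongr
  refine h3.trans ?_
  rw [div_mul_eq_mul_div, le_div_iff₀ (by positivity)]
  rw [mul_pow, div_le_iff₀ (by positivity)] at h1
  linarith

/-- dividing `D` by the multipliers of a suffix and of a typical block -/
theorem div_facts {P D N j j₂ a i₁ i₂ : ℕ} (hP : 0 < P) (hD : D ∣ P ^ j₂) (hj : P ^ j ∣ D)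
    (hN : N ∣ P ^ (a + i₂)) (hN1 : P ^ i₁ ∣ N) (hle : a + i₂ ≤ j) :
    N ∣ D ∧ P ^ (j - (a + i₂)) ∣ D / N ∧ (2 ≤ P → D / N ∣ P ^ (j₂ - i₁)) := by
  have hND : N ∣ D := hN.trans ((pow_dvd_pow P hle).trans hj)
  obtain ⟨E, hE⟩ := hND
  have hD0 : 0 < D := Nat.pos_of_dvd_of_pos hD (by positivity)
  have hN0 : 0 < N := Nat.pos_of_dvd_of_pos hN (by positivity)
  have hDN : D / N = E := by rw [hE, Nat.mul_div_cancel_left _ hN0]
  refine ⟨⟨E, hE⟩, ?_, ?_⟩
  · rw [hDN]
    obtain ⟨F, hF⟩ := hN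
    obtain ⟨G, hG⟩ := hj
    -- P^j G = N E, P^(a+i₂) = N F
    refine ⟨F * G, ?_⟩
    have h1 : P ^ j = P ^ (j - (a + i₂)) * P ^ (a + i₂) := by
      rw [← pow_add]; congr 1; omega
    rw [h1, hF, hE] at hG
    apply Nat.eq_of_mul_eq_mul_left hN0
    rw [hG]; ring
  · intro hP2
    rw [hDN]
    obtain ⟨F, hF⟩ := hN1
    have h1 : P ^ i₁ * E ∣ P ^ j₂ := by
      refine dvd_trans ?_ hD
      rw [hE, hF]
      exact ⟨F, by ring⟩
    have h2 : i₁ ≤ j₂ := by
      have : P ^ i₁ ∣ P ^ j₂ := (dvd_mul_right _ _).trans h1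
      exact (Nat.pow_dvd_pow_iff_le_right (by omega)).1 this
    have h3 : P ^ j₂ = P ^ i₁ * P ^ (j₂ - i₁) := by rw [← pow_add]; congr 1; omega
    rw [h3] at h1
    exact Nat.dvd_of_mul_dvd_mul_left (by positivity) h1

/-! Small arithmetic facts (stated separately: much faster than in the large context below). -/

private theorem d1_heκ {δ' κ : ℝ} (hκ0 : 0 < κ) (hδ1 : δ' ≤ 1) : δ' * κ / 16 ≤ κ / 16 := by
  nlinarith

private theorem d1_heδ {δ' κ : ℝ} (hδ0 : 0 < δ') (hκ1 : κ < 1) : δ' * κ / 16 ≤ δ' / 16 := by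
  nlinarith

private theorem d1_B1 {X Λ d b : ℝ} (hd : 2 ≤ d) (h : b < X * (d * Λ) + 1) :
    b ≤ (X * Λ + 1 / 2) * d := by
  nlinarith

private theorem d1_i1 {e B : ℝ} (hB : 0 ≤ B) (he : e ≤ 1) : 0 ≤ B - e * B := by
  nlinarith

private theorem d1_mul {a b c : ℝ} (h : a ≤ b) (hc : 0 ≤ c) : a * c ≤ b * c :=
  mul_le_mul_of_nonneg_right h hc

private theorem d1_ej {e j x : ℝ} (hj : 0 ≤ j) (he : e ≤ 1) (h : x ≤ e * j) : x ≤ j := by
  nlinarith

private theorem d1_ti {x κ j : ℝ} (hκ : 0 ≤ κ) (hj : 0 ≤ j) (h : x ≤ (1 - κ / 2) * j) : x ≤ j := by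
  nlinarith [mul_nonneg hκ hj]

private theorem d1_B4 {B e j κ : ℝ} (hκ0 : 0 < κ) (hκ1 : κ < 1) (he0 : 0 < e) (he : e ≤ κ / 16)
    (hj : 1 ≤ j) (h : B ≤ ((1 + 2 * e) * j + 1) * (1 - κ) + 1 / 2) : B ≤ 4 * j := by
  have h1 : e * j ≤ j := by nlinarith
  have h2 : 0 ≤ e * j := by positivity
  have h3 : ((1 + 2 * e) * j + 1) * (1 - κ) ≤ ((1 + 2 * e) * j + 1) * 1 := by
    apply mul_le_mul_of_nonneg_left (by linarith)
    nlinarith
  have h4 : (1 + 2 * e) * j ≤ 2 * j := by nlinarith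
  linarith

private theorem d1_dB {d B j : ℝ} (hd : 0 < d) (h : B ≤ 4 * j) : d * B ≤ 4 * d * j := by
  nlinarith

theorem decay_step (h : Adm d m r) (q : ℕ) {δ' C' : ℝ} (hδ0 : 0 < δ') (hδ1 : δ' ≤ 1) (hC' : 0 < C')
    (IH : ∀ j D k R : ℕ, 1 ≤ j → PP d m ^ j ∣ D → D ∣ PP d m ^ ⌊(1 + δ') * j⌋₊ →
      (1 - δ') * d * j ≤ k → 1 ≤ R → R ∣ PP d m → gg d m r k D R ≤ C' / (√j) ^ q) :
    ∃ δ C : ℝ, 0 < δ ∧ δ ≤ 1 ∧ 0 < C ∧ ∀ j D k R : ℕ, 1 ≤ j →
      PP d m ^ j ∣ D → D ∣ PP d m ^ ⌊(1 + δ) * j⌋₊ → (1 - δ) * d * j ≤ k → 1 ≤ R → R ∣ PP d m →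
        gg d m r k D R ≤ C / (√j) ^ (q + 1) := by
  classical
  have hd2 := h.two_le
  have hd0 : (0 : ℝ) < d := by exact_mod_cast (by omega : 0 < d)
  have hd2' : (2 : ℝ) ≤ d := by exact_mod_cast hd2
  set P : ℕ := PP d m with hPdef
  have hP2 : 2 ≤ P := h.big
  have hP0 : (0 : ℝ) < P := by exact_mod_cast (by omega : 0 < P)
  have hP1 : (1 : ℝ) ≤ P := by exact_mod_cast (by omega : 1 ≤ P)
  have hlP : 0 < Real.log P := Real.log_pos (by exact_mod_cast (by omega : 1 < P))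
  have hld : 0 < Real.log d := Real.log_pos (by exact_mod_cast (by omega : 1 < d))
  -- contraction
  set Λ : ℝ := Real.log P / (d * Real.log d) with hΛ
  have hΛ0 : 0 < Λ := by positivity
  have hΛ1 : Λ < 1 := by
    rw [hΛ, div_lt_one (by positivity)]
    have h1 : (P : ℝ) < (d : ℝ) ^ d := by exact_mod_cast h.contr
    have h2 := Real.log_lt_log hP0 h1
    rwa [Real.log_pow] at h2
  set κ : ℝ := 1 - Λ with hκ
  have hκ0 : 0 < κ := by linarith
  have hκ1 : κ < 1 := by linarith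
  set e : ℝ := δ' * κ / 16 with he
  have he0 : 0 < e := by positivity
  have heκ : e ≤ κ / 16 := by rw [he]; exact d1_heκ hκ0 hδ1
  have heδ : e ≤ δ' / 16 := by rw [he]; exact d1_heδ hδ0 hκ1
  set η : ℝ := e / d with hη
  have hη0 : 0 < η := by positivity
  obtain ⟨c, hc0, htyp⟩ := typical hd2 hη0
  obtain ⟨CE, hCE0, hED⟩ := ED_bound (d := d) (m := m) (r := r) h
  -- threshold
  set J0 : ℝ := max (100 / (δ' * κ)) (2 * d / e) with hJ0
  have hJ0a : 100 / (δ' * κ) ≤ J0 := le_max_left _ _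
  have hJ0b : 2 * d / e ≤ J0 := le_max_right _ _
  have hJ0pos : 0 < J0 := lt_of_lt_of_le (by positivity) hJ0a
  obtain ⟨C2, hC20, hexp⟩ := exp_sqrt_bound (q + 1) (c := c * (Real.log P / Real.log d)) (by positivity)
  set K1 : ℝ := P * (C' / (√(κ / 2)) ^ q) * (4 * P * (d : ℝ) ^ d * CE * √(4 * d) * (2 * d / e)) with hK1
  set K2 : ℝ := P * (2 * d * C2) with hK2
  set K3 : ℝ := P * (√J0) ^ (q + 1) with hK3
  have hK1' : 0 < K1 := by positivity
  have hK2' : 0 < K2 := by positivity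
  have hK3' : 0 < K3 := by positivity
  refine ⟨2 * e, K1 + K2 + K3, by positivity, by linarith, by positivity, ?_⟩
  intro j D k R hj hjD hDj hk hR hRP
  have hj0 : (0 : ℝ) < j := by exact_mod_cast hj
  have hj1 : (1 : ℝ) ≤ j := by exact_mod_cast hj
  have hRle : (R : ℝ) ≤ P := by exact_mod_cast Nat.le_of_dvd (by omega) hRP
  have hR1 : (1 : ℝ) ≤ R := by exact_mod_cast hR
  have hD0 : 0 < D := Nat.pos_of_dvd_of_pos hDj (by positivity)
  have hsj : 0 < √(j : ℝ) := Real.sqrt_pos.2 hj0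
  by_cases hsmall : (j : ℝ) < J0
  · -- trivial bound
    have h1 := gg_le (d := d) (m := m) (r := r) (by omega) k hD0 hR
    refine h1.trans ?_
    rw [le_div_iff₀ (by positivity)]
    have h2 : (√(j : ℝ)) ^ (q + 1) ≤ (√J0) ^ (q + 1) := by gcongr
    calc ((R : ℝ) - 1) * (√(j : ℝ)) ^ (q + 1) ≤ P * (√J0) ^ (q + 1) := by
          apply mul_le_mul _ h2 (by positivity) hP0.le
          linarith
      _ ≤ _ := by rw [← hK3]; linarith
  push Not at hsmall
  have hJa : 100 / (δ' * κ) ≤ (j : ℝ) := hJ0a.trans hsmall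
  have hJb : 2 * d / e ≤ (j : ℝ) := hJ0b.trans hsmall
  -- the block length
  set b : ℕ := ⌈((1 + 2 * e) * j + 1) * (Real.log P / Real.log d)⌉₊ with hb
  have hbge : ((1 + 2 * e) * j + 1) * (Real.log P / Real.log d) ≤ b := Nat.le_ceil _
  have hble : (b : ℝ) < ((1 + 2 * e) * j + 1) * (Real.log P / Real.log d) + 1 :=
    Nat.ceil_lt_add_one (by positivity)
  have hb0 : (0 : ℝ) < b := lt_of_lt_of_le (by positivity) hbge
  have hb1 : 1 ≤ b := by exact_mod_cast hb0
  have hlam : Real.log P / Real.log d = d * Λ := by rw [hΛ]; field_simp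
  set B : ℝ := (b : ℝ) / d with hBdef
  have hB0 : 0 ≤ B := by positivity
  have hBb : (b : ℝ) = d * B := by rw [hBdef]; field_simp
  have hB1 : B ≤ ((1 + 2 * e) * j + 1) * (1 - κ) + 1 / 2 := by
    rw [hlam] at hble
    rw [hBdef, div_le_iff₀ hd0]
    have : 1 - κ = Λ := by rw [hκ]; ring
    rw [this]
    exact d1_B1 hd2' hble
  have hηb : η * b = e * B := by rw [hη, hBdef]; ring
  -- typical range of letter counts
  set i₁ : ℕ := ⌊B - e * B⌋₊ with hi₁
  set i₂ : ℕ := ⌈B + e * B⌉₊ with hi₂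
  have hi1a : B - e * B - 1 ≤ i₁ := by
    have := Nat.lt_floor_add_one (B - e * B)
    linarith
  have hi1b : (i₁ : ℝ) ≤ B - e * B := by
    apply Nat.floor_le
    have : e ≤ 1 := by linarith
    exact d1_i1 hB0 this
  have hi2a : B + e * B ≤ i₂ := Nat.le_ceil _
  have hi2b : (i₂ : ℝ) ≤ B + e * B + 1 := (Nat.ceil_lt_add_one (by positivity)).le
  -- window of suffix lengths
  set W : ℕ := ⌊e * j / d⌋₊ with hW
  have hWge : e * j / (2 * d) ≤ W := by
    have h1 := Nat.lt_floor_add_one (e * (j : ℝ) / d)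
    have h2 : 2 ≤ e * j / d := by
      rw [div_le_iff₀ he0] at hJb
      rw [le_div_iff₀ hd0]
      linarith
    have h3 : e * j / (2 * d) = (e * j / d) / 2 := by field_simp
    rw [h3]
    linarith
  have hWle : (W : ℝ) ≤ e * j / d := Nat.floor_le (by positivity)
  have hW1 : 1 ≤ W := by
    have : (0 : ℝ) < W := lt_of_lt_of_le (by positivity) hWge
    exact_mod_cast this
  have hWd : (W : ℝ) * d ≤ e * j := by
    rw [le_div_iff₀ hd0] at hWle
    exact hWle
  have hWdj : W * d ≤ j := by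
    have : (W : ℝ) * d ≤ j := d1_ej hj0.le (by linarith) hWd
    exact_mod_cast this
  have hPWd : P ^ (W * d) ∣ D := (pow_dvd_pow P hWdj).trans hjD
  obtain ⟨τ, hτ1, hτW, hτ⟩ := avg h b hW1 hR hRP hD0 hPWd
  -- bound of the average
  have hDR : D * R ≤ d ^ b := by
    have h1 : (D : ℝ) ≤ (P : ℝ) ^ ((1 + 2 * e) * j) := by
      have h2 : D ≤ P ^ ⌊(1 + 2 * e) * (j : ℝ)⌋₊ := Nat.le_of_dvd (by positivity) hDj
      have h3 : (D : ℝ) ≤ (P : ℝ) ^ ⌊(1 + 2 * e) * (j : ℝ)⌋₊ := by exact_mod_cast h2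
      refine h3.trans ?_
      rw [← Real.rpow_natCast]
      apply Real.rpow_le_rpow_of_exponent_le hP1
      exact Nat.floor_le (by positivity)
    have h4 : (D : ℝ) * R ≤ (P : ℝ) ^ ((1 + 2 * e) * j + 1) := by
      rw [Real.rpow_add hP0, Real.rpow_one]
      gcongr
    have h5 : (P : ℝ) ^ ((1 + 2 * e) * (j : ℝ) + 1) ≤ (d : ℝ) ^ (b : ℝ) := by
      rw [Real.rpow_def_of_pos hP0, Real.rpow_def_of_pos hd0]
      apply Real.exp_le_exp.2
      rw [mul_div_assoc', div_le_iff₀ hld] at hbge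
      linarith
    rw [Real.rpow_natCast] at h5
    exact_mod_cast h4.trans h5
  have hEDb := hED b (D * R) hb1 (Nat.mul_pos hD0 hR) hDR
  -- split
  set t : ℕ := τ * d with ht
  have htW : (t : ℝ) ≤ e * j := by
    refine le_trans ?_ hWd
    rw [ht]
    push_cast
    have : (τ : ℝ) ≤ W := by exact_mod_cast hτW
    exact d1_mul this hd0.le
  obtain ⟨a1, a2, a3⟩ := arith (κ := κ) (δ' := δ') (e := e) (B := B) (J := j) (t := t) (i₁ := i₁)
    (i₂ := i₂) hκ0 hκ1 hδ0 hδ1 he hJa hB0 hB1 hi1a hi2a hi2b (by positivity) htW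
  have a3' := a3 k d hd2' (by linarith)
  have hti : t + i₂ ≤ j := by
    have : ((t + i₂ : ℕ) : ℝ) ≤ j := by push_cast; exact d1_ti hκ0.le hj0.le a1
    exact_mod_cast this
  have hj' : ((j - (t + i₂) : ℕ) : ℝ) = j - t - i₂ := by
    rw [Nat.cast_sub hti]; push_cast; ring
  have hj'ge : κ / 2 * j ≤ ((j - (t + i₂) : ℕ) : ℝ) := by rw [hj']; linarith
  have hj'1 : 1 ≤ j - (t + i₂) := by
    have : (0 : ℝ) < ((j - (t + i₂) : ℕ) : ℝ) := lt_of_lt_of_le (by positivity) hj'ge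
    exact_mod_cast this
  have hkbt : b + t ≤ k := by
    have h1 : 0 ≤ (1 - δ') * d * ((j : ℝ) - t - i₂) := by
      rw [← hj']
      have : 0 ≤ 1 - δ' := by linarith
      positivity
    have : ((b + t : ℕ) : ℝ) ≤ k := by push_cast; rw [hBb]; linarith
    exact_mod_cast this
  obtain ⟨k', hk'⟩ : ∃ k', k = k' + b + t := ⟨k - (b + t), by omega⟩
  set 𝒯 : Finset ℤ := (Ms d m b).filter (fun M => P ^ i₁ ∣ M.natAbs ∧ M.natAbs ∣ P ^ i₂) with h𝒯
  have hfac : ∀ w ∈ LW d t, ∀ M ∈ 𝒯, (Mw m w * M).natAbs ∣ D ∧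
      P ^ (j - (t + i₂)) ∣ D / (Mw m w * M).natAbs ∧
      D / (Mw m w * M).natAbs ∣ P ^ (⌊(1 + 2 * e) * (j : ℝ)⌋₊ - i₁) := by
    intro w hw M hM
    rw [h𝒯, mem_filter] at hM
    have h1 : (Mw m w * M).natAbs ∣ P ^ (t + i₂) := by
      rw [Int.natAbs_mul, pow_add]
      exact mul_dvd_mul (natAbs_Mw_dvd hw) hM.2.2
    have h2 : P ^ i₁ ∣ (Mw m w * M).natAbs := by
      rw [Int.natAbs_mul]
      exact hM.2.1.trans (dvd_mul_left _ _)
    obtain ⟨f1, f2, f3⟩ := div_facts (by omega) hDj hjD h1 h2 hti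
    exact ⟨f1, f2, f3 hP2⟩
  have hDd : Nat.Coprime D d := Nat.Coprime.coprime_dvd_left hDj ((PP_cop h).pow_left _)
  have hRd : Nat.Coprime R d := Nat.Coprime.coprime_dvd_left hRP (PP_cop h)
  set ε : ℝ := C' / (√(κ / 2 * j)) ^ q with hε
  have hε0 : 0 < ε := by positivity
  have hsp := split (d := d) (m := m) (r := r) h (k' := k') (b := b) (t := t) (D := D) (R := R) 𝒯
    hε0.le hD0 hDd hR hRd
    (fun w hw => (natAbs_Mw_dvd hw).trans ((pow_dvd_pow P (by omega)).trans hjD))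
    (fun w hw M hM => (hfac w hw M hM).1)
    (by
      intro w hw M hM
      obtain ⟨f1, f2, f3⟩ := hfac w hw M hM
      have h1 := IH (j - (t + i₂)) (D / (Mw m w * M).natAbs) k' R hj'1 f2
        (f3.trans (pow_dvd_pow P (by
          apply Nat.le_floor
          have h2 : ((⌊(1 + 2 * e) * (j : ℝ)⌋₊ : ℕ) : ℝ) ≤ (1 + 2 * e) * j :=
            Nat.floor_le (by positivity)
          rw [hj']
          rcases le_total i₁ ⌊(1 + 2 * e) * (j : ℝ)⌋₊ with hle | hle
          · rw [Nat.cast_sub hle]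
            linarith
          · rw [Nat.sub_eq_zero_of_le hle]
            push_cast
            rw [← hj']
            positivity)))
        (by
          rw [hj']
          have h2 : (k : ℝ) = k' + b + t := by rw [hk']; push_cast; ring
          rw [h2, hBb] at a3'
          linarith) hR hRP
      refine h1.trans ?_
      rw [hε]
      gcongr)
  rw [← hk'] at hsp
  refine hsp.trans ?_
  -- first term
  have hWpos : (0 : ℝ) < W := by exact_mod_cast hW1
  have hsb : √(b : ℝ) ≤ √(4 * d) * √(j : ℝ) := by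
    rw [← Real.sqrt_mul (by positivity)]
    apply Real.sqrt_le_sqrt
    rw [hBb]
    have : B ≤ 4 * j := d1_B4 hκ0 hκ1 he0 heκ hj1 hB1
    exact d1_dB hd0 this
  have t1 : (∑ w ∈ LW d t, gg d m r b (D / (Mw m w).natAbs) R) / (d : ℝ) ^ t
      ≤ 4 * P * (d : ℝ) ^ d * CE * √(4 * d) * (2 * d / e) / √(j : ℝ) := by
    refine hτ.trans ?_
    calc 4 * (R : ℝ) * (d : ℝ) ^ d * (ED d m r b (D * R) - ED d m r b 1) / W
        ≤ 4 * P * (d : ℝ) ^ d * (CE * (√(4 * d) * √(j : ℝ))) / (e * j / (2 * d)) := by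
          apply div_le_div₀ (by positivity) _ (by positivity) hWge
          apply mul_le_mul
          · gcongr
          · exact hEDb.trans (mul_le_mul_of_nonneg_left hsb hCE0.le)
          · have := ED_mono (d := d) (m := m) (r := r) b (D := 1) (N := D * R)
              (Nat.mul_pos hD0 hR) (one_dvd _)
            linarith
          · positivity
      _ = 4 * P * (d : ℝ) ^ d * CE * √(4 * d) * (2 * d / e) / √(j : ℝ) := by
          have : (j : ℝ) = √(j : ℝ) * √(j : ℝ) := (Real.mul_self_sqrt hj0.le).symm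
          rw [div_eq_div_iff (by positivity) (by positivity)]
          field_simp
          rw [Real.sq_sqrt hj0.le]
  have hεj : ε = C' / (√(κ / 2)) ^ q / (√(j : ℝ)) ^ q := by
    rw [hε, Real.sqrt_mul (by positivity), mul_pow, div_div]
  have t2 : ((R : ℝ) - 1) * ε * ((∑ w ∈ LW d t, gg d m r b (D / (Mw m w).natAbs) R) / (d : ℝ) ^ t)
      ≤ K1 / (√(j : ℝ)) ^ (q + 1) := by
    have hnn : 0 ≤ (∑ w ∈ LW d t, gg d m r b (D / (Mw m w).natAbs) R) / (d : ℝ) ^ t :=
      div_nonneg (sum_nonneg fun _ _ => gg_nonneg _ _ _) (by positivity)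
    calc ((R : ℝ) - 1) * ε * ((∑ w ∈ LW d t, gg d m r b (D / (Mw m w).natAbs) R) / (d : ℝ) ^ t)
        ≤ P * ε * (4 * P * (d : ℝ) ^ d * CE * √(4 * d) * (2 * d / e) / √(j : ℝ)) := by
          apply mul_le_mul _ t1 hnn (by positivity)
          apply mul_le_mul_of_nonneg_right _ hε0.le
          linarith
      _ = K1 / (√(j : ℝ)) ^ (q + 1) := by
          rw [hεj, hK1, pow_succ]
          field_simp
  -- second term
  have t3 : ((R : ℝ) - 1) * ((((LW d b).filter fun w => Mw m w ∉ 𝒯).card : ℝ) / (d : ℝ) ^ b)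
      ≤ K2 / (√(j : ℝ)) ^ (q + 1) := by
    have h1 : ((LW d b).filter fun w => Mw m w ∉ 𝒯) ⊆
        (LW d b).filter fun w => ∃ i < d, η * b < |(w.count i : ℝ) - b / d| := by
      intro w hw
      rw [mem_filter] at hw ⊢
      refine ⟨hw.1, ?_⟩
      by_contra hno
      push Not at hno
      apply hw.2
      rw [h𝒯, mem_filter]
      refine ⟨mem_image_of_mem _ hw.1, dvd_Mw hw.1 ?_, Mw_dvd hw.1 ?_⟩
      · intro i hi
        have h2 := hno i hi
        rw [hηb, ← hBdef, abs_le] at h2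
        have h3 : (i₁ : ℝ) ≤ w.count i := by linarith
        exact_mod_cast h3
      · intro i hi
        have h2 := hno i hi
        rw [hηb, ← hBdef, abs_le] at h2
        have h3 : (w.count i : ℝ) ≤ i₂ := by linarith
        exact_mod_cast h3
    have h2 : (((LW d b).filter fun w => Mw m w ∉ 𝒯).card : ℝ)
        ≤ 2 * d * ((d : ℝ) ^ b * Real.exp (-(c * b))) :=
      le_trans (by exact_mod_cast card_le_card h1) (htyp b)
    have h3 : (((LW d b).filter fun w => Mw m w ∉ 𝒯).card : ℝ) / (d : ℝ) ^ b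
        ≤ 2 * d * Real.exp (-(c * b)) := by
      rw [div_le_iff₀ (by positivity)]
      linarith
    have h4 : Real.exp (-(c * b)) ≤ C2 / (√(j : ℝ)) ^ (q + 1) := by
      refine le_trans (Real.exp_le_exp.2 ?_) (hexp j hj1)
      have h5 : Real.log P / Real.log d * j ≤ b := by
        refine le_trans ?_ hbge
        have h6 : 0 < Real.log P / Real.log d := by positivity
        rw [mul_comm]
        apply mul_le_mul_of_nonneg_right _ h6.le
        have h7 : 0 ≤ e * (j : ℝ) := by positivity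
        linarith
      have h8 := mul_le_mul_of_nonneg_left h5 hc0.le
      linarith
    calc ((R : ℝ) - 1) * ((((LW d b).filter fun w => Mw m w ∉ 𝒯).card : ℝ) / (d : ℝ) ^ b)
        ≤ P * (2 * d * (C2 / (√(j : ℝ)) ^ (q + 1))) := by
          apply mul_le_mul (by linarith) _
            (div_nonneg (Nat.cast_nonneg _) (pow_nonneg hd0.le _)) hP0.le
          refine h3.trans ?_
          gcongr
      _ = K2 / (√(j : ℝ)) ^ (q + 1) := by rw [hK2, mul_div_assoc', mul_div_assoc']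
  calc _ ≤ K1 / (√(j : ℝ)) ^ (q + 1) + K2 / (√(j : ℝ)) ^ (q + 1) := add_le_add t2 t3
    _ ≤ (K1 + K2 + K3) / (√(j : ℝ)) ^ (q + 1) := by
      rw [← add_div]
      apply div_le_div_of_nonneg_right _ (by positivity)
      linarith

theorem decay (h : Adm d m r) (q : ℕ) : ∃ δ C : ℝ, 0 < δ ∧ δ ≤ 1 ∧ 0 < C ∧ ∀ j D k R : ℕ, 1 ≤ j →
    PP d m ^ j ∣ D → D ∣ PP d m ^ ⌊(1 + δ) * j⌋₊ → (1 - δ) * d * j ≤ k → 1 ≤ R → R ∣ PP d m →
      gg d m r k D R ≤ C / (√j) ^ q := by
  induction q with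
  | zero =>
    refine ⟨1, PP d m, one_pos, le_rfl, by exact_mod_cast (by have := h.big; omega : 0 < PP d m), ?_⟩
    intro j D k R hj hjD hDj hk hR hRP
    have hP : 0 < PP d m := by have := h.big; omega
    have hD0 : 0 < D := Nat.pos_of_dvd_of_pos hDj (by positivity)
    have h1 := gg_le (d := d) (m := m) (r := r) (by have := h.two_le; omega) k hD0 hR
    have h2 : (R : ℝ) ≤ PP d m := by exact_mod_cast Nat.le_of_dvd hP hRP
    rw [pow_zero, div_one]
    linarith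
  | succ q ih =>
    obtain ⟨δ', C', h1, h2, h3, h4⟩ := ih
    exact decay_step h q h1 h2 h3 h4

end Pool.Agent.H319R3.GC
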