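import Pool.Agent.H319R3.GC.F1
import Pool.Agent.H319R3.GC.F2

/-! Total variation (task TV). -/

set_option autoImplicit false

namespace Pool.Agent.H319R3.GC
open Finset

theorem tv_step {ι : Type*} (s : Finset ι) (v : ι → ℤ) {D R : ℕ} (hD : 0 < D) (hR : 1 ≤ R) :
    tv s v D (D * R) ≤ √(Gam s v D R * s.card) := by
  have hR0 : (0 : ℝ) < R := by exact_mod_cast (show 0 < R from hR)
  have hD0 : (0 : ℝ) < D := by exact_mod_cast hD
  have h1 : tv s v D (D * R) = ∑ c ∈ range D, ∑ a ∈ range R,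
      |cnt s v (D * R) ((c : ℤ) + D * a)
        - (∑ b ∈ range R, cnt s v (D * R) ((c : ℤ) + D * b)) / R| := by
    unfold tv
    rw [sum_range_mul hD]
    refine sum_congr rfl fun c _ => sum_congr rfl fun a _ => ?_
    have e1 : (((c + D * a : ℕ) : ℤ)) = (c : ℤ) + D * a := by push_cast; ring
    rw [e1, ← cnt_split s v hD hR (c : ℤ)]
    have e2 : cnt s v D ((c : ℤ) + D * a) = cnt s v D (c : ℤ) :=
      cnt_congr s v ⟨a, by ring⟩
    rw [e2]
    congr 2
    push_cast
    field_simp
  rw [h1]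
  have h2 : ∀ c ∈ range D, ∑ a ∈ range R,
      |cnt s v (D * R) ((c : ℤ) + D * a)
        - (∑ b ∈ range R, cnt s v (D * R) ((c : ℤ) + D * b)) / R|
      ≤ √(Fib s v D R (c : ℤ)) * √(cnt s v D (c : ℤ)) := by
    intro c _
    have := FR_l1 hR (f := fun a => cnt s v (D * R) ((c : ℤ) + D * a))
      (fun a _ => cnt_nonneg _ _ _ _)
    refine this.trans ?_
    rw [Real.sqrt_mul (FR_nonneg fun a _ => cnt_nonneg _ _ _ _)]
    rw [cnt_split s v hD hR (c : ℤ)]
    exact le_of_eq rfl
  refine (sum_le_sum h2).trans ?_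
  refine (Real.sum_sqrt_mul_sqrt_le (range D) (fun c => FR_nonneg fun a _ => cnt_nonneg _ _ _ _)
    (fun c => cnt_nonneg _ _ _ _)).trans ?_
  rw [sum_cnt s v hD]
  exact le_of_eq (Real.sqrt_mul (Gam_nonneg s v D R) _).symm

theorem tv_trans {ι : Type*} (s : Finset ι) (v : ι → ℤ) {D E N : ℕ} (hN : 0 < N) (h1 : D ∣ E)
    (h2 : E ∣ N) : tv s v D N ≤ tv s v D E + tv s v E N := by
  obtain ⟨R, rfl⟩ := h2
  have hE : 0 < E := Nat.pos_of_mul_pos_right hN |> fun h => by
    rcases Nat.eq_zero_or_pos E with h0 | h0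
    · simp [h0] at hN
    · exact h0
  have hR : 0 < R := by
    rcases Nat.eq_zero_or_pos R with h0 | h0
    · simp [h0] at hN
    · exact h0
  have hE0 : (0 : ℝ) < E := by exact_mod_cast hE
  have hR0 : (0 : ℝ) < R := by exact_mod_cast hR
  have key : ∑ c ∈ range (E * R), |cnt s v E (c : ℤ) * E / ((E * R : ℕ) : ℝ)
      - cnt s v D (c : ℤ) * D / ((E * R : ℕ) : ℝ)| = tv s v D E := by
    rw [sum_range_mul hE]
    unfold tv
    refine sum_congr rfl fun c _ => ?_
    have : ∀ a ∈ range R, |cnt s v E ((c + E * a : ℕ) : ℤ) * E / ((E * R : ℕ) : ℝ)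
      - cnt s v D ((c + E * a : ℕ) : ℤ) * D / ((E * R : ℕ) : ℝ)|
        = |cnt s v E (c : ℤ) - cnt s v D (c : ℤ) * D / E| / R := by
      intro a _
      have e1 : (((c + E * a : ℕ) : ℤ)) = (c : ℤ) + E * a := by push_cast; ring
      rw [e1]
      have e2 : cnt s v E ((c : ℤ) + E * a) = cnt s v E (c : ℤ) :=
        cnt_congr s v ⟨a, by ring⟩
      have e3 : cnt s v D ((c : ℤ) + E * a) = cnt s v D (c : ℤ) :=
        cnt_congr s v (by
          obtain ⟨k, rfl⟩ := h1
          exact ⟨k * a, by push_cast; ring⟩)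
      rw [e2, e3]
      have e4 : cnt s v E (c : ℤ) * E / ((E * R : ℕ) : ℝ) - cnt s v D (c : ℤ) * D / ((E * R : ℕ) : ℝ)
          = (cnt s v E (c : ℤ) - cnt s v D (c : ℤ) * D / E) / R := by
        push_cast
        field_simp
      rw [e4, abs_div, abs_of_pos hR0]
    rw [sum_congr rfl this, sum_const, card_range, nsmul_eq_mul]
    field_simp
  rw [← key]
  unfold tv
  rw [← sum_add_distrib]
  refine sum_le_sum fun c _ => ?_
  rw [add_comm]
  exact abs_sub_le _ _ _

/-- chain of steps whose ratios divide `P` -/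
theorem tv_chain {ι : Type*} (s : Finset ι) (v : ι → ℤ) {D N P n : ℕ} (hD : 0 < D) (hN : 0 < N)
    (hDN : D ∣ N) (hP : N ∣ D * P ^ n) {G : ℝ} (hG : 0 ≤ G)
    (h : ∀ E R : ℕ, D ∣ E → E ∣ N → 1 ≤ R → R ∣ P → Gam s v E R ≤ G) :
    tv s v D N ≤ Nat.log 2 (N / D) * √(G * s.card) := by
  suffices H : ∀ t : ℕ, ∀ D' : ℕ, 0 < D' → D ∣ D' → D' ∣ N → N / D' = t →
      tv s v D' N ≤ Nat.log 2 (N / D') * √(G * s.card) from H _ D hD dvd_rfl hDN rfl
  intro t
  induction t using Nat.strong_induction_on with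
  | _ t ih =>
    intro D' hD' hDD' hD'N ht
    obtain ⟨q, rfl⟩ := hD'N
    have hq : 0 < q := by
      rcases Nat.eq_zero_or_pos q with h0 | h0
      · simp [h0] at hN
      · exact h0
    rw [Nat.mul_div_cancel_left _ hD'] at ht ⊢
    subst ht
    have hD'0 : (0 : ℝ) < D' := by exact_mod_cast hD'
    rcases Nat.lt_or_ge 1 q with hq1 | hq1
    · -- the gcd
      set R := Nat.gcd P q with hRdef
      have hqP : q ∣ P ^ n := by
        obtain ⟨e, rfl⟩ := hDD'
        have h3 : D * (e * q) ∣ D * P ^ n := by rw [← mul_assoc]; exact hP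
        exact (Dvd.intro_left e rfl : q ∣ e * q).trans (Nat.dvd_of_mul_dvd_mul_left hD h3)
      have hR2 : 2 ≤ R := by
        by_contra hlt
        have hRpos : 0 < R := Nat.gcd_pos_of_pos_right _ hq
        have hR1 : R = 1 := by omega
        have hc : Nat.Coprime q (P ^ n) := (Nat.Coprime.pow_left n hR1).symm
        have : q = 1 := Nat.Coprime.eq_one_of_dvd hc hqP
        omega
      obtain ⟨q', hq'⟩ : R ∣ q := Nat.gcd_dvd_right P q
      have hRP : R ∣ P := Nat.gcd_dvd_left P q
      have hq'0 : 0 < q' := by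
        rcases Nat.eq_zero_or_pos q' with h0 | h0
        · rw [h0, Nat.mul_zero] at hq'; omega
        · exact h0
      have hq'lt : q' < q := by rw [hq']; nlinarith
      have hstep : tv s v D' (D' * R) ≤ √(G * s.card) := by
        refine (tv_step s v hD' (by omega)).trans (Real.sqrt_le_sqrt ?_)
        exact mul_le_mul_of_nonneg_right (h D' R hDD' (Dvd.intro _ rfl) (by omega) hRP)
          (Nat.cast_nonneg _)
      have hNeq : D' * q = (D' * R) * q' := by rw [hq']; ring
      have hrec := ih q' hq'lt (D' * R) (by positivity) (hDD'.trans (Dvd.intro _ rfl))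
        (by rw [hNeq]; exact Dvd.intro _ rfl) (by rw [hNeq]; exact Nat.mul_div_cancel_left _ (by positivity))
      rw [hNeq, Nat.mul_div_cancel_left _ (by positivity), ← hNeq] at hrec
      have htr := tv_trans s v (D := D') (E := D' * R) (N := D' * q) (by positivity)
        (Dvd.intro _ rfl) (by rw [hNeq]; exact Dvd.intro _ rfl)
      have hlog : Nat.log 2 q' + 1 ≤ Nat.log 2 q := by
        have h5 : q' * 2 ≤ q := by rw [hq']; nlinarith
        have h6 : Nat.log 2 (q' * 2) = Nat.log 2 q' + 1 := Nat.log_mul_base (by norm_num) (by omega)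
        rw [← h6]
        exact Nat.log_mono_right h5
      have hlog' : (Nat.log 2 q' : ℝ) + 1 ≤ Nat.log 2 q := by exact_mod_cast hlog
      calc tv s v D' (D' * q) ≤ tv s v D' (D' * R) + tv s v (D' * R) (D' * q) := htr
        _ ≤ √(G * s.card) + Nat.log 2 q' * √(G * s.card) := add_le_add hstep hrec
        _ = (Nat.log 2 q' + 1) * √(G * s.card) := by ring
        _ ≤ Nat.log 2 q * √(G * s.card) :=
          mul_le_mul_of_nonneg_right hlog' (Real.sqrt_nonneg _)
    · have hq' : q = 1 := by omega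
      subst hq'
      rw [Nat.mul_one]
      have : tv s v D' D' = 0 := by
        unfold tv
        refine sum_eq_zero fun c _ => ?_
        rw [mul_div_assoc, div_self hD'0.ne', mul_one, sub_self, abs_zero]
      rw [this]
      positivity

end Pool.Agent.H319R3.GC
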