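import Mathlib

/-!
Generalised Collatz maps of coprime type: shared definitions.

`T(x) = (m_i x - r_i)/d` for `x ≡ i mod d`. Words are lists of letters `< d`, first letter = first
step. A word `w` of length `k` has multiplier `Mw m w` and offset `Ww d m r w`; if `w` is the
itinerary of `x` then `d^k T^k(x) = Mw m w * x - Ww d m r w`.
-/

set_option autoImplicit false

namespace Pool.Agent.H319R3.GC

open Finset

/-- all words of length `k` with letters `< d` -/
def LW (d : ℕ) : ℕ → Finset (List ℕ)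
  | 0 => {[]}
  | k + 1 => (range d).biUnion fun i => (LW d k).image (List.cons i)

/-- multiplier of a word -/
def Mw (m : ℕ → ℤ) (w : List ℕ) : ℤ := (w.map m).prod

/-- offset of a word (first letter first) -/
def Ww (d : ℕ) (m r : ℕ → ℤ) : List ℕ → ℤ
  | [] => 0
  | i :: w => r i * Mw m w + d * Ww d m r w

/-- the map -/
def Tm (d : ℕ) (m r : ℕ → ℤ) (x : ℤ) : ℤ := (m (x % d).toNat * x - r (x % d).toNat) / d

/-- the first `k` letters of the itinerary of `x` -/
def wd (d : ℕ) (m r : ℕ → ℤ) : ℕ → ℤ → List ℕ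
  | 0, _ => []
  | k + 1, x => (x % d).toNat :: wd d m r k (Tm d m r x)

/-- product of all multipliers -/
def PP (d : ℕ) (m : ℕ → ℤ) : ℕ := ∏ i ∈ range d, (m i).natAbs

/-- coprime type, contracting, not all multipliers `±1` -/
structure Adm (d : ℕ) (m r : ℕ → ℤ) : Prop where
  two_le : 2 ≤ d
  cop : ∀ i < d, IsCoprime (m i) (d : ℤ)
  adm : ∀ i < d, (d : ℤ) ∣ m i * i - r i
  contr : PP d m < d ^ d
  big : 2 ≤ PP d m

/-- words of length `k` with multiplier `M` -/
def gr (d : ℕ) (m : ℕ → ℤ) (k : ℕ) (M : ℤ) : Finset (List ℕ) := (LW d k).filter fun w => Mw m w = M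

/-- all multipliers of words of length `k` -/
def Ms (d : ℕ) (m : ℕ → ℤ) (k : ℕ) : Finset ℤ := (LW d k).image (Mw m)

/-- number of members of a finite family in the class of `c` mod `D` -/
noncomputable def cnt {ι : Type*} (s : Finset ι) (v : ι → ℤ) (D : ℕ) (c : ℤ) : ℝ :=
  ((s.filter fun i => (D : ℤ) ∣ v i - c).card : ℝ)

/-- nonuniformity of a function on `range R` (`R` times the squared distance to the constants,
over the mass) -/
noncomputable def FR (R : ℕ) (f : ℕ → ℝ) : ℝ :=
  (R * ∑ a ∈ range R, f a ^ 2 - (∑ a ∈ range R, f a) ^ 2) / ∑ a ∈ range R, f a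

/-- nonuniformity of the digit `D → D R` in the class of `c` mod `D` -/
noncomputable def Fib {ι : Type*} (s : Finset ι) (v : ι → ℤ) (D R : ℕ) (c : ℤ) : ℝ :=
  FR R fun a => cnt s v (D * R) (c + D * a)

/-- total nonuniformity of the digit `D → D R` given the class mod `D` -/
noncomputable def Gam {ι : Type*} (s : Finset ι) (v : ι → ℤ) (D R : ℕ) : ℝ :=
  ∑ c ∈ range D, Fib s v D R (c : ℤ)

/-- nonuniformity of the digit `D → D R` of the offset of a random word of length `k`, given the
multiplier -/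
noncomputable def gg (d : ℕ) (m r : ℕ → ℤ) (k D R : ℕ) : ℝ :=
  (∑ M ∈ Ms d m k, Gam (gr d m k M) (Ww d m r) D R) / (d : ℝ) ^ k

/-- entropy functional (nondecreasing in `D` for divisibility) -/
noncomputable def EE {ι : Type*} (s : Finset ι) (v : ι → ℤ) (D : ℕ) : ℝ :=
  ∑ c ∈ range D, cnt s v D (c : ℤ) * Real.log (cnt s v D (c : ℤ)) + s.card * Real.log D

/-- entropy functional of the offset of a random word of length `b`, given the multiplier -/
noncomputable def ED (d : ℕ) (m r : ℕ → ℤ) (b D : ℕ) : ℝ :=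
  (∑ M ∈ Ms d m b, EE (gr d m b M) (Ww d m r) D) / (d : ℝ) ^ b

/-- `ℓ¹` distance between the distribution mod `N` and the distribution mod `D` spread uniformly -/
noncomputable def tv {ι : Type*} (s : Finset ι) (v : ι → ℤ) (D N : ℕ) : ℝ :=
  ∑ c ∈ range N, |cnt s v N (c : ℤ) - cnt s v D (c : ℤ) * D / N|

/-- number of elements of `S` in the two-sided window `a ≤ |x| < 2a` and the class of `c` mod `Q` -/
noncomputable def wc (S : Set ℤ) (a : ℝ) (Q : ℕ) (c : ℤ) : ℝ :=
  ({x : ℤ | x ∈ S ∧ a ≤ |(x : ℝ)| ∧ |(x : ℝ)| < 2 * a ∧ (Q : ℤ) ∣ x - c}.ncard : ℝ)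

/-- in every class mod `Q` the window density of `S` is at most `ρ` -/
def PB (S : Set ℤ) (a : ℝ) (Q : ℕ) (ρ : ℝ) : Prop := ∀ c : ℤ, wc S a Q c ≤ ρ * (2 * a) / Q

end Pool.Agent.H319R3.GC
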