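import Pool.Agent.H319R3.GC.Defs

/-! Blueprint of the Tao type theorem for generalised Collatz maps of coprime type (all statements,
with `sorry`). Never import this file in a hand-in. -/

set_option autoImplicit false

namespace Pool.Agent.H319R3.GC.Stubs
open Pool.Agent.H319R3.GC Finset

variable {d : ℕ} {m r : ℕ → ℤ}

/-! ### W1 : file W1.lean, words -/

theorem mem_LW {k : ℕ} {w : List ℕ} : w ∈ LW d k ↔ w.length = k ∧ ∀ i ∈ w, i < d := by sorry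

theorem sum_LW_succ {M : Type*} [AddCommMonoid M] (k : ℕ) (f : List ℕ → M) :
    ∑ w ∈ LW d (k + 1), f w = ∑ i ∈ range d, ∑ w ∈ LW d k, f (i :: w) := by sorry

theorem sum_LW_add {M : Type*} [AddCommMonoid M] (k l : ℕ) (f : List ℕ → M) :
    ∑ w ∈ LW d (k + l), f w = ∑ u ∈ LW d k, ∑ v ∈ LW d l, f (u ++ v) := by sorry

theorem card_LW (k : ℕ) : (LW d k).card = d ^ k := by sorry

theorem Mw_append (u v : List ℕ) : Mw m (u ++ v) = Mw m u * Mw m v := by sorry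

theorem Ww_append (u v : List ℕ) :
    Ww d m r (u ++ v) = Mw m v * Ww d m r u + (d : ℤ) ^ u.length * Ww d m r v := by sorry

theorem Mw_cop (h : Adm d m r) {w : List ℕ} (hw : ∀ i ∈ w, i < d) : IsCoprime (Mw m w) (d : ℤ) := by
  sorry

theorem Mw_ne_zero (h : Adm d m r) {w : List ℕ} (hw : ∀ i ∈ w, i < d) : Mw m w ≠ 0 := by sorry

/-- same length, same multiplier, same offset: same word -/
theorem Ww_inj (h : Adm d m r) {u v : List ℕ} (hu : ∀ i ∈ u, i < d) (hv : ∀ i ∈ v, i < d)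
    (hl : u.length = v.length) (hM : Mw m u = Mw m v) (hW : Ww d m r u = Ww d m r v) : u = v := by
  sorry

theorem mem_gr {k : ℕ} {M : ℤ} {w : List ℕ} : w ∈ gr d m k M ↔ w ∈ LW d k ∧ Mw m w = M := by sorry

theorem sum_gr {N : Type*} [AddCommMonoid N] (k : ℕ) (f : List ℕ → N) :
    ∑ M ∈ Ms d m k, ∑ w ∈ gr d m k M, f w = ∑ w ∈ LW d k, f w := by sorry

theorem sum_card_gr (k : ℕ) : ∑ M ∈ Ms d m k, ((gr d m k M).card : ℝ) = (d : ℝ) ^ k := by sorry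

/-- `Mw` only depends on the numbers of occurrences of the letters -/
theorem card_Ms (k : ℕ) : (Ms d m k).card ≤ (k + 1) ^ d := by sorry

theorem natAbs_Mw_dvd {k : ℕ} {w : List ℕ} (hw : w ∈ LW d k) : (Mw m w).natAbs ∣ PP d m ^ k := by
  sorry

/-- if every letter occurs between `i₁` and `i₂` times -/
theorem dvd_Mw {k i₁ : ℕ} {w : List ℕ} (hw : w ∈ LW d k) (h1 : ∀ i < d, i₁ ≤ w.count i) :
    PP d m ^ i₁ ∣ (Mw m w).natAbs := by sorry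

theorem Mw_dvd {k i₂ : ℕ} {w : List ℕ} (hw : w ∈ LW d k) (h2 : ∀ i < d, w.count i ≤ i₂) :
    (Mw m w).natAbs ∣ PP d m ^ i₂ := by sorry

theorem range_mem : List.range d ∈ LW d d := by sorry

theorem Mw_range : (Mw m (List.range d)).natAbs = PP d m := by sorry

/-! ### W2 : file W2.lean, itineraries -/

theorem wd_mem (h : 2 ≤ d) (k : ℕ) (x : ℤ) : wd d m r k x ∈ LW d k := by sorry

theorem iter_eq (h : Adm d m r) (k : ℕ) (x : ℤ) :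
    (d : ℤ) ^ k * (Tm d m r)^[k] x = Mw m (wd d m r k x) * x - Ww d m r (wd d m r k x) := by sorry

theorem wd_cong (h : Adm d m r) {k : ℕ} {x y : ℤ} (hw : wd d m r k x = wd d m r k y) :
    (d : ℤ) ^ k ∣ x - y := by sorry

/-! ### F1 : file F1.lean, the functional `FR` -/

theorem FR_nonneg {R : ℕ} {f : ℕ → ℝ} (hf : ∀ a < R, 0 ≤ f a) : 0 ≤ FR R f := by sorry

theorem FR_le {R : ℕ} (hR : 1 ≤ R) {f : ℕ → ℝ} (hf : ∀ a < R, 0 ≤ f a) :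
    FR R f ≤ (R - 1) * ∑ a ∈ range R, f a := by sorry

theorem FR_sum {κ : Type*} (J : Finset κ) {R : ℕ} (f : κ → ℕ → ℝ)
    (hf : ∀ j ∈ J, ∀ a < R, 0 ≤ f j a) :
    FR R (fun a => ∑ j ∈ J, f j a) ≤ ∑ j ∈ J, FR R (f j) := by sorry

/-- invariance under affine bijections of `ℤ/R` -/
theorem FR_unit {R : ℕ} (hR : 1 ≤ R) {f : ℤ → ℝ} (hf : ∀ x, f (x + R) = f x) {u : ℤ}
    (hu : IsCoprime u (R : ℤ)) (t : ℤ) : FR R (fun a => f (u * a + t)) = FR R (fun a => f a) := by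
  sorry

theorem FR_conv {R : ℕ} (hR : 1 ≤ R) {f g : ℤ → ℝ} (hf : ∀ x, f (x + R) = f x)
    (hg : ∀ x, g (x + R) = g x) (hf0 : ∀ x, 0 ≤ f x) (hg0 : ∀ x, 0 ≤ g x) :
    FR R (fun a => ∑ b ∈ range R, f b * g (a - b)) ≤ FR R (fun a => f a) * FR R (fun a => g a) := by
  sorry

theorem FR_entropy {R : ℕ} (hR : 1 ≤ R) {f : ℕ → ℝ} (hf : ∀ a < R, 0 ≤ f a) :
    FR R f ≤ 4 * R * (∑ a ∈ range R, f a * Real.log (f a)
      - (∑ a ∈ range R, f a) * Real.log (∑ a ∈ range R, f a)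
      + (∑ a ∈ range R, f a) * Real.log R) := by sorry

theorem FR_l1 {R : ℕ} (hR : 1 ≤ R) {f : ℕ → ℝ} (hf : ∀ a < R, 0 ≤ f a) :
    ∑ a ∈ range R, |f a - (∑ b ∈ range R, f b) / R| ≤ √(FR R f * ∑ a ∈ range R, f a) := by sorry

/-! ### F2 : file F2.lean, `cnt` and `Gam` -/

theorem cnt_nonneg {ι : Type*} (s : Finset ι) (v : ι → ℤ) (D : ℕ) (c : ℤ) : 0 ≤ cnt s v D c := by
  sorry

theorem cnt_le {ι : Type*} (s : Finset ι) (v : ι → ℤ) (D : ℕ) (c : ℤ) : cnt s v D c ≤ s.card := by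
  sorry

theorem cnt_congr {ι : Type*} (s : Finset ι) (v : ι → ℤ) {D : ℕ} {c c' : ℤ}
    (h : (D : ℤ) ∣ c - c') : cnt s v D c = cnt s v D c' := by sorry

theorem sum_cnt {ι : Type*} (s : Finset ι) (v : ι → ℤ) {D : ℕ} (hD : 0 < D) :
    ∑ c ∈ range D, cnt s v D (c : ℤ) = s.card := by sorry

theorem cnt_split {ι : Type*} (s : Finset ι) (v : ι → ℤ) {D R : ℕ} (hD : 0 < D) (hR : 0 < R)
    (c : ℤ) : cnt s v D c = ∑ a ∈ range R, cnt s v (D * R) (c + D * a) := by sorry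

/-- the classes mod `D R` are `c + D a` -/
theorem sum_range_mul {M : Type*} [AddCommMonoid M] {D R : ℕ} (hD : 0 < D) (f : ℕ → M) :
    ∑ c ∈ range (D * R), f c = ∑ c ∈ range D, ∑ a ∈ range R, f (c + D * a) := by sorry

/-- sums over complete residue systems of periodic functions -/
theorem sum_affine {D : ℕ} (hD : 0 < D) {f : ℤ → ℝ} (hf : ∀ x, f (x + D) = f x) {u : ℤ}
    (hu : IsCoprime u (D : ℤ)) (t : ℤ) :
    ∑ c ∈ range D, f (u * c + t) = ∑ c ∈ range D, f (c : ℤ) := by sorry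

theorem Gam_nonneg {ι : Type*} (s : Finset ι) (v : ι → ℤ) (D R : ℕ) : 0 ≤ Gam s v D R := by sorry

theorem Gam_le {ι : Type*} (s : Finset ι) (v : ι → ℤ) {D R : ℕ} (hD : 0 < D) (hR : 1 ≤ R) :
    Gam s v D R ≤ (R - 1) * s.card := by sorry

open scoped Classical in
theorem Gam_biUnion {ι κ : Type*} (J : Finset κ) (S : κ → Finset ι)
    (hS : ∀ j ∈ J, ∀ j' ∈ J, j ≠ j' → Disjoint (S j) (S j')) (v : ι → ℤ) (D R : ℕ) :
    Gam (J.biUnion S) v D R ≤ ∑ j ∈ J, Gam (S j) v D R := by sorry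

open scoped Classical in
theorem Gam_image {ι ι' : Type*} (s : Finset ι') (φ : ι' → ι) (hφ : Set.InjOn φ (s : Set ι'))
    (v : ι → ℤ) (D R : ℕ) : Gam (s.image φ) v D R = Gam s (fun i => v (φ i)) D R := by sorry

/-! ### F3 : file F3.lean, the convolution inequality -/

/-- the values of a product family are `u v + M v'` -/
theorem Gam_conv {ι ι' : Type*} (s : Finset ι) (s' : Finset ι') (v : ι → ℤ) (v' : ι' → ℤ)
    {u M : ℤ} (hM : M ≠ 0) {D R : ℕ} (hD : 0 < D) (hR : 1 ≤ R)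
    (hu : IsCoprime u ((M.natAbs * D * R : ℕ) : ℤ)) :
    Gam (s ×ˢ s') (fun p => u * v p.1 + M * v' p.2) (M.natAbs * D) R
      ≤ Gam s v (M.natAbs * D) R * Gam s' v' D R := by sorry

/-! ### SP : file Split.lean, splitting a word into prefix, block, suffix -/

open scoped Classical in
/-- prefix of length `k'`, block of length `b`, suffix of length `t`; `𝒯` = typical multipliers of the
block -/
theorem split (h : Adm d m r) {k' b t D R : ℕ} (𝒯 : Finset ℤ) {ε : ℝ} (hε : 0 ≤ ε)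
    (hD : 0 < D) (hDd : Nat.Coprime D d) (hR : 1 ≤ R) (hRd : Nat.Coprime R d)
    (h0 : ∀ w ∈ LW d t, (Mw m w).natAbs ∣ D)
    (h1 : ∀ w ∈ LW d t, ∀ M ∈ 𝒯, (Mw m w * M).natAbs ∣ D)
    (h2 : ∀ w ∈ LW d t, ∀ M ∈ 𝒯, gg d m r k' (D / (Mw m w * M).natAbs) R ≤ ε) :
    gg d m r (k' + b + t) D R ≤
      (R - 1) * ε * ((∑ w ∈ LW d t, gg d m r b (D / (Mw m w).natAbs) R) / (d : ℝ) ^ t)
      + (R - 1) * ((((LW d b).filter fun w => Mw m w ∉ 𝒯).card : ℝ) / (d : ℝ) ^ b) := by sorry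

/-! ### E1 : file E1.lean, entropy increments -/

theorem EE_step {ι : Type*} (s : Finset ι) (v : ι → ℤ) {D R : ℕ} (hD : 0 < D) (hR : 1 ≤ R) :
    Gam s v D R ≤ 4 * R * (EE s v (D * R) - EE s v D) := by sorry

theorem EE_mono {ι : Type*} (s : Finset ι) (v : ι → ℤ) {D N : ℕ} (hN : 0 < N) (h : D ∣ N) :
    EE s v D ≤ EE s v N := by sorry

theorem gg_nonneg (k D R : ℕ) : 0 ≤ gg d m r k D R := by sorry

theorem gg_le (h : 1 ≤ d) (k : ℕ) {D R : ℕ} (hD : 0 < D) (hR : 1 ≤ R) :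
    gg d m r k D R ≤ R - 1 := by sorry

theorem gg_le_ED (h : 1 ≤ d) (b : ℕ) {D R : ℕ} (hD : 0 < D) (hR : 1 ≤ R) :
    gg d m r b D R ≤ 4 * R * (ED d m r b (D * R) - ED d m r b D) := by sorry

theorem ED_mono (b : ℕ) {D N : ℕ} (hN : 0 < N) (h : D ∣ N) : ED d m r b D ≤ ED d m r b N := by
  sorry

/-! ### A1 : file A1.lean, averaging over the length of the suffix -/

theorem avg (h : Adm d m r) (b : ℕ) {D R W : ℕ} (hW : 1 ≤ W) (hR : 1 ≤ R) (hRP : R ∣ PP d m)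
    (hD0 : 0 < D) (hD : PP d m ^ (W * d) ∣ D) :
    ∃ j, 1 ≤ j ∧ j ≤ W ∧
      (∑ w ∈ LW d (j * d), gg d m r b (D / (Mw m w).natAbs) R) / (d : ℝ) ^ (j * d)
        ≤ 4 * R * (d : ℝ) ^ d * (ED d m r b (D * R) - ED d m r b 1) / W := by sorry

/-! ### M1 : file M1.lean, size of the offsets -/

theorem moment (h : Adm d m r) : ∃ lam C : ℝ, 0 < lam ∧ 0 < C ∧ ∀ b : ℕ,
    (((LW d b).filter fun w => (d : ℝ) ^ b * Real.exp (√b) < |(Ww d m r w : ℝ)|).card : ℝ)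
      ≤ C * (d : ℝ) ^ b * Real.exp (-(lam * √b)) := by sorry

/-! ### M2 : file M2.lean, typical words -/

theorem typical (h : 2 ≤ d) {η : ℝ} (hη : 0 < η) : ∃ c : ℝ, 0 < c ∧ ∀ b : ℕ,
    (((LW d b).filter fun w => ∃ i < d, η * b < |(w.count i : ℝ) - b / d|).card : ℝ)
      ≤ 2 * d * ((d : ℝ) ^ b * Real.exp (-(c * b))) := by sorry

/-! ### E2 : file E2.lean, the entropy bound (uses M1) -/

theorem ED_bound (h : Adm d m r) : ∃ C : ℝ, 0 < C ∧ ∀ b N : ℕ, 1 ≤ b → 1 ≤ N → N ≤ d ^ b →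
    ED d m r b N - ED d m r b 1 ≤ C * √b := by sorry

/-! ### D1 : file D1.lean, decay (helper319) -/

theorem decay (h : Adm d m r) (q : ℕ) : ∃ δ C : ℝ, 0 < δ ∧ δ ≤ 1 ∧ 0 < C ∧ ∀ j D k R : ℕ, 1 ≤ j →
    PP d m ^ j ∣ D → D ∣ PP d m ^ ⌊(1 + δ) * j⌋₊ → (1 - δ) * d * j ≤ k → 1 ≤ R → R ∣ PP d m →
      gg d m r k D R ≤ C / (√j) ^ q := by sorry

/-! ### TV : file TV.lean -/

theorem tv_step {ι : Type*} (s : Finset ι) (v : ι → ℤ) {D R : ℕ} (hD : 0 < D) (hR : 1 ≤ R) :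
    tv s v D (D * R) ≤ √(Gam s v D R * s.card) := by sorry

theorem tv_trans {ι : Type*} (s : Finset ι) (v : ι → ℤ) {D E N : ℕ} (hN : 0 < N) (h1 : D ∣ E)
    (h2 : E ∣ N) : tv s v D N ≤ tv s v D E + tv s v E N := by sorry

/-- chain of steps whose ratios divide `P` -/
theorem tv_chain {ι : Type*} (s : Finset ι) (v : ι → ℤ) {D N P n : ℕ} (hD : 0 < D) (hN : 0 < N)
    (hDN : D ∣ N) (hP : N ∣ D * P ^ n) {G : ℝ} (hG : 0 ≤ G)
    (h : ∀ E R : ℕ, D ∣ E → E ∣ N → 1 ≤ R → R ∣ P → Gam s v E R ≤ G) :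
    tv s v D N ≤ Nat.log 2 (N / D) * √(G * s.card) := by sorry

/-! ### TG : file TG.lean, total variation summed over the multipliers (uses D1, TV) -/

open scoped Classical in
theorem tv_groups (h : Adm d m r) (B : ℕ) : ∃ δ : ℝ, 0 < δ ∧ δ ≤ 1 ∧ ∀ ν : ℝ, 0 < ν → ∃ C : ℝ, 0 < C ∧
    ∀ k i₁ i₂ q₀ q : ℕ, 1 ≤ k → ν * k ≤ q₀ → q₀ ≤ q → (q : ℝ) ≤ k → i₁ ≤ i₂ →
      ((i₂ + q : ℕ) : ℝ) ≤ (1 + δ) * ((i₁ + q : ℕ) : ℝ) →
      (1 - δ) * d * ((i₁ + q : ℕ) : ℝ) ≤ k →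
      ∑ M ∈ (Ms d m k).filter (fun M => PP d m ^ i₁ ∣ M.natAbs ∧ M.natAbs ∣ PP d m ^ i₂),
        tv (gr d m k M) (Ww d m r) (PP d m ^ q₀) (M.natAbs * PP d m ^ q) ≤ C * (d : ℝ) ^ k / (k : ℝ) ^ B := by
  sorry

/-! ### S1 : file S1.lean, counting integers in windows and classes -/

/-- number of integers `a ≤ |x| < b`, `x ≡ c mod Q` -/
theorem win_le {a b : ℝ} (ha : 0 ≤ a) (hab : a ≤ b) {Q : ℕ} (hQ : 0 < Q) (c : ℤ) :
    {x : ℤ | a ≤ |(x : ℝ)| ∧ |(x : ℝ)| < b ∧ (Q : ℤ) ∣ x - c}.Finite ∧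
    ({x : ℤ | a ≤ |(x : ℝ)| ∧ |(x : ℝ)| < b ∧ (Q : ℤ) ∣ x - c}.ncard : ℝ) ≤ 2 * ((b - a) / Q + 1) := by
  sorry

/-- coarser classes -/
theorem PB.coarse {S : Set ℤ} {a : ℝ} (ha : 0 < a) {Q Q' : ℕ} {ρ : ℝ} (hQ' : 0 < Q') (hQ : Q ∣ Q')
    (h : PB S a Q' ρ) : PB S a Q ρ := by sorry

open scoped Classical in
/-- few integers of a window in a class have their itinerary in a given set of words -/
theorem bad_words (h : Adm d m r) {a : ℝ} (ha : 0 < a) {k Q : ℕ} (hQ : 0 < Q) (hQd : Nat.Coprime Q d)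
    (hk : (d : ℝ) ^ k * Q ≤ a) (c : ℤ) (Bad : Finset (List ℕ)) :
    ({x : ℤ | a ≤ |(x : ℝ)| ∧ |(x : ℝ)| < 2 * a ∧ (Q : ℤ) ∣ x - c ∧ wd d m r k x ∈ Bad}.ncard : ℝ)
      ≤ Bad.card * (4 * a / ((d : ℝ) ^ k * Q)) := by sorry

/-! ### S2 : file S2.lean, one group of words -/

open scoped Classical in
/-- elements of `S` (forward invariant) of the window whose itinerary is in the group of `M` and
whose `k`-th iterate lies in the window of `a' = |M| a / d^k` -/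
theorem group_count (h : Adm d m r) {S : Set ℤ} (hS : ∀ x ∈ S, Tm d m r x ∈ S) {a : ℝ} (ha : 0 < a)
    {k Q Q₀ : ℕ} (hQ : 0 < Q) (hQ₀ : 0 < Q₀) (hQQ : Q₀ ∣ Q) (hQd : Nat.Coprime Q d)
    (hk : (d : ℝ) ^ k * Q ≤ a) (c : ℤ) {M : ℤ} (hM : M ∈ Ms d m k) {ρ : ℝ} (hρ : 0 ≤ ρ)
    (hPB : PB S (|(M : ℝ)| * a / (d : ℝ) ^ k) Q₀ ρ) :
    ({x : ℤ | x ∈ S ∧ (Q : ℤ) ∣ x - c ∧ Mw m (wd d m r k x) = M ∧
        |(M : ℝ)| * a / (d : ℝ) ^ k ≤ |(((Tm d m r)^[k] x : ℤ) : ℝ)| ∧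
        |(((Tm d m r)^[k] x : ℤ) : ℝ)| < 2 * (|(M : ℝ)| * a / (d : ℝ) ^ k)}.ncard : ℝ)
      ≤ ρ * (gr d m k M).card * (2 * a) / ((d : ℝ) ^ k * Q)
        + 4 * a / ((d : ℝ) ^ k * Q) * tv (gr d m k M) (Ww d m r) Q₀ (M.natAbs * Q) := by sorry

/-! ### S3 : file S3.lean, the one stage inequality (uses TG, S1, S2, M1, M2) -/

theorem stage (h : Adm d m r) (B : ℕ) : ∃ lo hi ν L₀ C : ℝ, 0 < lo ∧ lo ≤ hi ∧ hi < 1 ∧ 0 < ν ∧
    1 ≤ L₀ ∧ 0 < C ∧ ∀ S : Set ℤ, (∀ x ∈ S, Tm d m r x ∈ S) → ∀ a ρ : ℝ, 0 < a → L₀ ≤ Real.log a →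
      0 ≤ ρ →
      (∀ a' : ℝ, 0 < a' → lo * Real.log a ≤ Real.log a' → Real.log a' ≤ hi * Real.log a →
        PB S a' (PP d m ^ ⌊ν * Real.log a'⌋₊) ρ) →
      PB S a (PP d m ^ ⌊ν * Real.log a⌋₊) (ρ + C / (Real.log a) ^ B) := by sorry

/-! ### I1 : file I1.lean, iteration (uses S3) -/

theorem main (h : Adm d m r) (B : ℕ) : ∃ C : ℝ, 0 < C ∧ ∀ X y : ℝ, 1 ≤ X → 2 ≤ y →
    ({x : ℤ | |(x : ℝ)| ≤ X ∧ ∀ k : ℕ, y < |(((Tm d m r)^[k] x : ℤ) : ℝ)|}.ncard : ℝ)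
      ≤ C * X / (Real.log y) ^ B := by sorry

end Pool.Agent.H319R3.GC.Stubs
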